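import Mathlib

set_option autoImplicit false

open Filter Topology Polynomial OnePoint

namespace Pool.Agent.H44.Fatou

/-- Hyperbolicity of the rational map `P/Q`, in the words of the frozen statement. -/
def Hyp (P Q : Polynomial ℂ) : Prop :=
  ∃ f : OnePoint ℂ → OnePoint ℂ, Continuous f ∧
    (∀ z : ℂ, Q.eval z ≠ 0 → f (OnePoint.some z) = OnePoint.some (P.eval z / Q.eval z)) ∧
    ∀ c : OnePoint ℂ, (¬ ∃ U ∈ nhds c, Set.InjOn f U) →
      ∃ z : OnePoint ℂ, ∃ n : ℕ, 0 < n ∧ f^[n] z = z ∧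
        (∃ U ∈ nhds z, ∀ w ∈ U,
          Filter.Tendsto (fun k : ℕ => f^[n * k] w) Filter.atTop (nhds z)) ∧
        Filter.Tendsto (fun k : ℕ => f^[n * k] c) Filter.atTop (nhds z)

/-- the point of the sphere with homogeneous coordinates `[x : y]` -/
noncomputable def pt (x y : ℂ) : OnePoint ℂ := if y = 0 then ∞ else ((x / y : ℂ) : OnePoint ℂ)

theorem pt_eq {x y x' y' : ℂ} (h : pt x y = pt x' y') : x * y' = x' * y := by
  unfold pt at h
  split_ifs at h with h1 h2 h2
  · rw [h1, h2]; ring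
  · exact absurd h (infty_ne_coe _)
  · exact absurd h (coe_ne_infty _)
  · rw [coe_eq_coe, div_eq_div_iff h1 h2] at h
    exact h

theorem pt_smul {x y t : ℂ} (ht : t ≠ 0) : pt (x * t) (y * t) = pt x y := by
  unfold pt
  by_cases h : y = 0
  · simp [h]
  · rw [if_neg h, if_neg (mul_ne_zero h ht), mul_div_mul_right _ _ ht]

theorem tendsto_pt {α : Type*} {l : Filter α} {x y : α → ℂ} {x0 y0 : ℂ}
    (hx : Tendsto x l (𝓝 x0)) (hy : Tendsto y l (𝓝 y0)) (h : x0 ≠ 0 ∨ y0 ≠ 0) :
    Tendsto (fun t => pt (x t) (y t)) l (𝓝 (pt x0 y0)) := by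
  by_cases hy0 : y0 = 0
  · have hx0 : x0 ≠ 0 := by
      rcases h with h | h
      · exact h
      · exact absurd hy0 h
    have h0 : pt x0 y0 = ∞ := by unfold pt; rw [if_pos hy0]
    rw [h0]
    rw [tendsto_iff_forall_eventually_mem]
    intro s hs
    rw [nhds_infty_eq, mem_sup, mem_map, mem_pure] at hs
    obtain ⟨hs1, hs2⟩ := hs
    rw [coclosedCompact_eq_cocompact, ← Metric.cobounded_eq_cocompact] at hs1
    have hs1' : ∃ M : ℝ, ∀ z : ℂ, M < ‖z‖ → (z : OnePoint ℂ) ∈ s := by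
      rw [← comap_norm_atTop, mem_comap] at hs1
      obtain ⟨t, ht, hts⟩ := hs1
      rw [mem_atTop_sets] at ht
      obtain ⟨M, hM⟩ := ht
      exact ⟨M, fun z hz => hts (hM _ hz.le)⟩
    obtain ⟨M, hM⟩ := hs1'
    have hx0n : 0 < ‖x0‖ := norm_pos_iff.2 hx0
    have e1 : ∀ᶠ t in l, ‖x0‖ / 2 < ‖x t‖ :=
      hx.norm.eventually (lt_mem_nhds (by linarith))
    have hpos : 0 < ‖x0‖ / (2 * (|M| + 1)) := by positivity
    have e2 : ∀ᶠ t in l, ‖y t‖ < ‖x0‖ / (2 * (|M| + 1)) := by
      have := hy.norm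
      rw [hy0, norm_zero] at this
      exact this.eventually (gt_mem_nhds hpos)
    filter_upwards [e1, e2] with t h1 h2
    unfold pt
    split_ifs with h3
    · exact hs2
    · apply hM
      rw [norm_div, lt_div_iff₀ (norm_pos_iff.2 h3)]
      have h4 : M ≤ |M| := le_abs_self M
      have h5 : 0 ≤ |M| := abs_nonneg M
      have h6 : 0 < ‖y t‖ := norm_pos_iff.2 h3
      calc M * ‖y t‖ ≤ (|M| + 1) * ‖y t‖ := by gcongr; linarith
        _ ≤ (|M| + 1) * (‖x0‖ / (2 * (|M| + 1))) := by gcongr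
        _ = ‖x0‖ / 2 := by field_simp
        _ < ‖x t‖ := h1
  · have h0 : pt x0 y0 = ((x0 / y0 : ℂ) : OnePoint ℂ) := by unfold pt; rw [if_neg hy0]
    rw [h0]
    have h1 : Tendsto (fun t => ((x t / y t : ℂ) : OnePoint ℂ)) l (𝓝 ((x0 / y0 : ℂ) : OnePoint ℂ)) :=
      (continuous_coe.tendsto _).comp (hx.div hy hy0)
    apply h1.congr'
    filter_upwards [hy.eventually_ne hy0] with t ht
    unfold pt
    rw [if_neg ht]

/-- degree of the rational map -/
noncomputable def dg (P Q : Polynomial ℂ) : ℕ := max P.natDegree Q.natDegree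

/-- the rational map on the sphere -/
noncomputable def rat (P Q : Polynomial ℂ) : OnePoint ℂ → OnePoint ℂ :=
  fun z => z.elim (pt (P.coeff (dg P Q)) (Q.coeff (dg P Q))) (fun z => pt (P.eval z) (Q.eval z))

@[simp] theorem rat_coe (P Q : Polynomial ℂ) (z : ℂ) : rat P Q z = pt (P.eval z) (Q.eval z) := rfl
@[simp] theorem rat_infty (P Q : Polynomial ℂ) :
    rat P Q ∞ = pt (P.coeff (dg P Q)) (Q.coeff (dg P Q)) := rfl

theorem rat_coe_of_ne {P Q : Polynomial ℂ} {z : ℂ} (h : Q.eval z ≠ 0) :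
    rat P Q (OnePoint.some z) = OnePoint.some (P.eval z / Q.eval z) := by
  rw [rat_coe]; unfold pt; rw [if_neg h]

theorem eval_reflect {P : Polynomial ℂ} {N : ℕ} (hN : P.natDegree ≤ N) {z : ℂ} (hz : z ≠ 0) :
    P.eval z = (reflect N P).eval z⁻¹ * z ^ N := by
  let _ : Invertible z := invertibleOfNonzero hz
  have := eval₂_reflect_mul_pow (RingHom.id ℂ) z N P hN
  rw [invOf_eq_inv] at this
  simp only [eval₂_id] at this
  exact this.symm

theorem eval_reflect_zero (P : Polynomial ℂ) (N : ℕ) : (reflect N P).eval 0 = P.coeff N := by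
  rw [← coeff_zero_eq_eval_zero, coeff_reflect, revAt_zero]

theorem rat_coe_eq {P Q : Polynomial ℂ} {z : ℂ} (hz : z ≠ 0) :
    rat P Q z = pt ((reflect (dg P Q) P).eval z⁻¹) ((reflect (dg P Q) Q).eval z⁻¹) := by
  rw [rat_coe, eval_reflect (N := dg P Q) (le_max_left _ _) hz,
    eval_reflect (N := dg P Q) (le_max_right _ _) hz, pt_smul (pow_ne_zero _ hz)]

theorem coprime_eval {P Q : Polynomial ℂ} (h : IsCoprime P Q) (z : ℂ) :
    P.eval z ≠ 0 ∨ Q.eval z ≠ 0 := by
  by_contra hcon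
  push Not at hcon
  obtain ⟨a, b, hab⟩ := h
  have := congrArg (Polynomial.eval z) hab
  rw [eval_add, eval_mul, eval_mul, hcon.1, hcon.2, eval_one] at this
  simp at this

theorem coeff_dg {P Q : Polynomial ℂ} (h : IsCoprime P Q) :
    P.coeff (dg P Q) ≠ 0 ∨ Q.coeff (dg P Q) ≠ 0 := by
  unfold dg
  by_cases hP : P = 0
  · right
    have hQ : Q ≠ 0 := by
      intro hQ
      rw [hP, hQ] at h
      obtain ⟨a, b, hab⟩ := h
      simp at hab
    rw [hP, natDegree_zero, Nat.zero_max]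
    exact leadingCoeff_ne_zero.2 hQ
  · by_cases hQ : Q = 0
    · left
      rw [hQ, natDegree_zero, Nat.max_zero]
      exact leadingCoeff_ne_zero.2 hP
    · rcases le_total P.natDegree Q.natDegree with hle | hle
      · right
        rw [max_eq_right hle]
        exact leadingCoeff_ne_zero.2 hQ
      · left
        rw [max_eq_left hle]
        exact leadingCoeff_ne_zero.2 hP

theorem rat_continuous {P Q : Polynomial ℂ} (h : IsCoprime P Q) : Continuous (rat P Q) := by
  rw [continuous_iff_continuousAt]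
  intro x
  induction x using OnePoint.rec with
  | infty =>
    rw [continuousAt_infty', coclosedCompact_eq_cocompact, ← Metric.cobounded_eq_cocompact]
    rw [rat_infty, ← eval_reflect_zero P, ← eval_reflect_zero Q]
    have h1 : Tendsto (fun z : ℂ => pt ((reflect (dg P Q) P).eval z⁻¹)
        ((reflect (dg P Q) Q).eval z⁻¹)) (Bornology.cobounded ℂ)
        (𝓝 (pt ((reflect (dg P Q) P).eval 0) ((reflect (dg P Q) Q).eval 0))) := by
      apply tendsto_pt
      · exact ((reflect (dg P Q) P).continuous.tendsto 0).comp tendsto_inv₀_cobounded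
      · exact ((reflect (dg P Q) Q).continuous.tendsto 0).comp tendsto_inv₀_cobounded
      · rw [eval_reflect_zero, eval_reflect_zero]
        exact coeff_dg h
    apply h1.congr'
    have h2 : ∀ᶠ z : ℂ in Bornology.cobounded ℂ, z ≠ 0 := by
      have := (tendsto_inv₀_cobounded' (α := ℂ)).eventually (self_mem_nhdsWithin)
      filter_upwards [this] with z hz h0
      apply hz
      simp [h0]
    filter_upwards [h2] with z hz
    simp only [Function.comp_apply]
    exact (rat_coe_eq hz).symm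
  | coe z =>
    rw [continuousAt_coe]
    have : (rat P Q ∘ ((↑) : ℂ → OnePoint ℂ)) = fun z => pt (P.eval z) (Q.eval z) := rfl
    rw [this]
    exact tendsto_pt (P.continuous.tendsto z) (Q.continuous.tendsto z) (coprime_eval h z)

/-- the Wronskian -/
noncomputable def Wr (P Q : Polynomial ℂ) : Polynomial ℂ := derivative P * Q - P * derivative Q

/-- two-point estimate near a point with nonzero Wronskian -/
theorem wr_inj {P Q : Polynomial ℂ} {c : ℂ} (hW : (Wr P Q).eval c ≠ 0) :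
    ∀ᶠ p : ℂ × ℂ in 𝓝 (c, c), P.eval p.1 * Q.eval p.2 = P.eval p.2 * Q.eval p.1 → p.1 = p.2 := by
  have hP := (P.hasStrictDerivAt c).isLittleO
  have hQ := (Q.hasStrictDerivAt c).isLittleO
  set W := (Wr P Q).eval c with hWdef
  have hWn : 0 < ‖W‖ := norm_pos_iff.2 hW
  set p0 := P.eval c
  set q0 := Q.eval c
  set p1 := (derivative P).eval c
  set q1 := (derivative Q).eval c
  have hWeq : W = p1 * q0 - p0 * q1 := by
    rw [hWdef]; unfold Wr; rw [eval_sub, eval_mul, eval_mul]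
  -- constants
  set B : ℝ := ‖p0‖ + ‖q0‖ + ‖p1‖ + ‖q1‖ + 1 with hB
  have hBpos : 0 < B := by positivity
  set ε : ℝ := min 1 (‖W‖ / (8 * B)) with hε
  have hεpos : 0 < ε := lt_min one_pos (by positivity)
  have hε1 : ε ≤ 1 := min_le_left _ _
  have hε2 : ε ≤ ‖W‖ / (8 * B) := min_le_right _ _
  have e1 := hP.def hεpos
  have e2 := hQ.def hεpos
  have hcp : ∀ᶠ p : ℂ × ℂ in 𝓝 (c, c), ‖P.eval p.2 - p0‖ < ε := by
    have : Tendsto (fun p : ℂ × ℂ => P.eval p.2 - p0) (𝓝 (c, c)) (𝓝 0) := by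
      have h1 : Continuous (fun p : ℂ × ℂ => P.eval p.2 - p0) :=
        (P.continuous.comp continuous_snd).sub continuous_const
      have h2 := h1.tendsto (c, c)
      simpa [p0] using h2
    have h3 := this.norm
    rw [norm_zero] at h3
    exact h3.eventually (gt_mem_nhds hεpos)
  have hcq : ∀ᶠ p : ℂ × ℂ in 𝓝 (c, c), ‖Q.eval p.2 - q0‖ < ε := by
    have : Tendsto (fun p : ℂ × ℂ => Q.eval p.2 - q0) (𝓝 (c, c)) (𝓝 0) := by
      have h1 : Continuous (fun p : ℂ × ℂ => Q.eval p.2 - q0) :=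
        (Q.continuous.comp continuous_snd).sub continuous_const
      have h2 := h1.tendsto (c, c)
      simpa [q0] using h2
    have h3 := this.norm
    rw [norm_zero] at h3
    exact h3.eventually (gt_mem_nhds hεpos)
  filter_upwards [e1, e2, hcp, hcq] with p h1 h2 h3 h4 heq
  by_contra hne
  have hxy : 0 < ‖p.1 - p.2‖ := norm_pos_iff.2 (sub_ne_zero.2 hne)
  set x := p.1
  set y := p.2
  have h1' : ‖P.eval x - P.eval y - (x - y) * p1‖ ≤ ε * ‖x - y‖ := by simpa using h1
  have h2' : ‖Q.eval x - Q.eval y - (x - y) * q1‖ ≤ ε * ‖x - y‖ := by simpa using h2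
  -- (x - y) * W = ...
  have key : (x - y) * W = -((P.eval x - P.eval y - (x - y) * p1) * Q.eval y)
      + P.eval y * (Q.eval x - Q.eval y - (x - y) * q1)
      - (x - y) * p1 * (Q.eval y - q0) + (x - y) * q1 * (P.eval y - p0) := by
    rw [hWeq]
    linear_combination heq
  have hn : ‖(x - y) * W‖ ≤ ‖x - y‖ * (ε * (4 * B)) := by
    rw [key]
    have hQy : ‖Q.eval y‖ ≤ B := by
      calc ‖Q.eval y‖ = ‖(Q.eval y - q0) + q0‖ := by ring_nf
        _ ≤ ‖Q.eval y - q0‖ + ‖q0‖ := norm_add_le _ _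
        _ ≤ B := by
          have := norm_nonneg p0; have := norm_nonneg p1; have := norm_nonneg q1
          rw [hB]; linarith
    have hPy : ‖P.eval y‖ ≤ B := by
      calc ‖P.eval y‖ = ‖(P.eval y - p0) + p0‖ := by ring_nf
        _ ≤ ‖P.eval y - p0‖ + ‖p0‖ := norm_add_le _ _
        _ ≤ B := by
          have := norm_nonneg q0; have := norm_nonneg p1; have := norm_nonneg q1
          rw [hB]; linarith
    have hp1 : ‖p1‖ ≤ B := by
      have := norm_nonneg q0; have := norm_nonneg p0; have := norm_nonneg q1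
      rw [hB]; linarith
    have hq1 : ‖q1‖ ≤ B := by
      have := norm_nonneg q0; have := norm_nonneg p0; have := norm_nonneg p1
      rw [hB]; linarith
    have a1 : ‖(P.eval x - P.eval y - (x - y) * p1) * Q.eval y‖ ≤ (ε * ‖x - y‖) * B := by
      rw [norm_mul]; gcongr
    have a2 : ‖P.eval y * (Q.eval x - Q.eval y - (x - y) * q1)‖ ≤ B * (ε * ‖x - y‖) := by
      rw [norm_mul]; gcongr
    have a3 : ‖(x - y) * p1 * (Q.eval y - q0)‖ ≤ ‖x - y‖ * B * ε := by
      rw [norm_mul, norm_mul]; gcongr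
    have a4 : ‖(x - y) * q1 * (P.eval y - p0)‖ ≤ ‖x - y‖ * B * ε := by
      rw [norm_mul, norm_mul]; gcongr
    calc _ ≤ ‖-((P.eval x - P.eval y - (x - y) * p1) * Q.eval y)
            + P.eval y * (Q.eval x - Q.eval y - (x - y) * q1)
            - (x - y) * p1 * (Q.eval y - q0)‖ + ‖(x - y) * q1 * (P.eval y - p0)‖ := norm_add_le _ _
      _ ≤ ‖-((P.eval x - P.eval y - (x - y) * p1) * Q.eval y)
            + P.eval y * (Q.eval x - Q.eval y - (x - y) * q1)‖
            + ‖(x - y) * p1 * (Q.eval y - q0)‖ + ‖(x - y) * q1 * (P.eval y - p0)‖ := by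
          gcongr; exact norm_sub_le _ _
      _ ≤ ‖-((P.eval x - P.eval y - (x - y) * p1) * Q.eval y)‖
            + ‖P.eval y * (Q.eval x - Q.eval y - (x - y) * q1)‖
            + ‖(x - y) * p1 * (Q.eval y - q0)‖ + ‖(x - y) * q1 * (P.eval y - p0)‖ := by
          gcongr; exact norm_add_le _ _
      _ ≤ (ε * ‖x - y‖) * B + B * (ε * ‖x - y‖) + ‖x - y‖ * B * ε + ‖x - y‖ * B * ε := by
          rw [norm_neg]; gcongr
      _ = ‖x - y‖ * (ε * (4 * B)) := by ring
  rw [norm_mul] at hn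
  have hn2 := le_of_mul_le_mul_left hn hxy
  have hn3 : ε * (4 * B) ≤ ‖W‖ / 2 := by
    calc ε * (4 * B) ≤ ‖W‖ / (8 * B) * (4 * B) := by gcongr
      _ = ‖W‖ / 2 := by field_simp; norm_num
  linarith

theorem exists_inj_of_wr {P Q : Polynomial ℂ} {c : ℂ} (hW : (Wr P Q).eval c ≠ 0) :
    ∃ V ∈ 𝓝 c, ∀ x ∈ V, ∀ y ∈ V, P.eval x * Q.eval y = P.eval y * Q.eval x → x = y := by
  have h := wr_inj hW
  rw [nhds_prod_eq, eventually_prod_self_iff'] at h
  obtain ⟨V, hV, h⟩ := h
  exact ⟨V, hV, fun x hx y hy => h x hx y hy⟩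

/-- finite critical points are zeros of the Wronskian -/
theorem crit_coe {P Q : Polynomial ℂ} {c : ℂ}
    (hc : ¬ ∃ U ∈ nhds (c : OnePoint ℂ), Set.InjOn (rat P Q) U) : (Wr P Q).eval c = 0 := by
  by_contra hW
  apply hc
  obtain ⟨V, hV, h⟩ := exists_inj_of_wr hW
  refine ⟨((↑) : ℂ → OnePoint ℂ) '' V, ?_, ?_⟩
  · rw [nhds_coe_eq]; exact image_mem_map hV
  · rintro _ ⟨x, hx, rfl⟩ _ ⟨y, hy, rfl⟩ hxy
    rw [rat_coe, rat_coe] at hxy
    rw [h x hx y hy (pt_eq hxy)]

/-- the point at infinity -/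
theorem crit_infty {P Q : Polynomial ℂ}
    (hc : ¬ ∃ U ∈ nhds (∞ : OnePoint ℂ), Set.InjOn (rat P Q) U) :
    (Wr (reflect (dg P Q) P) (reflect (dg P Q) Q)).eval 0 = 0 := by
  by_contra hW
  apply hc
  obtain ⟨V, hV, h⟩ := exists_inj_of_wr hW
  set io : OnePoint ℂ → ℂ := fun z => z.elim 0 (fun z => z⁻¹) with hio
  have hrat : ∀ x : OnePoint ℂ, x ≠ ((0 : ℂ) : OnePoint ℂ) → rat P Q x
      = pt ((reflect (dg P Q) P).eval (io x)) ((reflect (dg P Q) Q).eval (io x)) := by
    intro x hx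
    induction x using OnePoint.rec with
    | infty =>
      rw [rat_infty, ← eval_reflect_zero P, ← eval_reflect_zero Q]; rfl
    | coe z =>
      have hz : z ≠ 0 := fun h0 => hx (by rw [h0])
      rw [rat_coe_eq hz]; rfl
  refine ⟨{x | x ≠ ((0 : ℂ) : OnePoint ℂ) ∧ io x ∈ V}, ?_, ?_⟩
  · rw [nhds_infty_eq, mem_sup, mem_map, mem_pure]
    refine ⟨?_, ⟨infty_ne_coe _, mem_of_mem_nhds hV⟩⟩
    rw [coclosedCompact_eq_cocompact, ← Metric.cobounded_eq_cocompact]
    have h1 := (tendsto_inv₀_cobounded' (α := ℂ)).eventually (self_mem_nhdsWithin)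
    have h2 := (tendsto_inv₀_cobounded (α := ℂ)).eventually hV
    filter_upwards [h1, h2] with z hz1 hz2
    refine ⟨?_, hz2⟩
    intro h0
    rw [coe_eq_coe] at h0
    apply hz1
    simp [h0]
  · rintro x ⟨hx1, hx2⟩ y ⟨hy1, hy2⟩ hxy
    rw [hrat x hx1, hrat y hy1] at hxy
    have h3 := h _ hx2 _ hy2 (pt_eq hxy)
    induction x using OnePoint.rec with
    | infty =>
      induction y using OnePoint.rec with
      | infty => rfl
      | coe z =>
        exfalso
        apply hy1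
        have : (0 : ℂ) = z⁻¹ := h3
        rw [inv_eq_zero.1 this.symm]
    | coe w =>
      induction y using OnePoint.rec with
      | infty =>
        exfalso
        apply hx1
        have : w⁻¹ = (0 : ℂ) := h3
        rw [inv_eq_zero.1 this]
      | coe z =>
        have : w⁻¹ = z⁻¹ := h3
        rw [inv_injective this]

end Pool.Agent.H44.Fatou
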