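import Mathlib
import Pool.Agent.H44.Fatou.Basic

set_option autoImplicit false

open Filter Topology Polynomial OnePoint Metric

namespace Pool.Agent.H44.Fatou

theorem trap {f : OnePoint ℂ → OnePoint ℂ} {F : ℂ → ℂ} {a : ℂ} {r q : ℝ} (hr : 0 < r)
    (hq0 : 0 ≤ q) (hq : q < 1) (hfF : ∀ z ∈ closedBall a r, f (z : OnePoint ℂ) = (F z : OnePoint ℂ))
    (hmaps : ∀ z ∈ closedBall a r, F z ∈ ball a r)
    (hlip : ∀ z ∈ closedBall a r, ∀ w ∈ closedBall a r, ‖F z - F w‖ ≤ q * ‖z - w‖) :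
    ∃ z0 : OnePoint ℂ, f z0 = z0 ∧
      (∃ U ∈ 𝓝 z0, ∀ w ∈ U, Tendsto (fun k : ℕ => f^[k] w) atTop (𝓝 z0)) ∧
      ∀ w ∈ closedBall a r, Tendsto (fun k : ℕ => f^[k] (w : OnePoint ℂ)) atTop (𝓝 z0) := by
  have hmaps' : Set.MapsTo F (closedBall a r) (closedBall a r) :=
    fun z hz => ball_subset_closedBall (hmaps z hz)
  have hcontr : ContractingWith ⟨q, hq0⟩ (hmaps'.restrict F _ _) := by
    refine ⟨by exact_mod_cast hq, ?_⟩
    apply LipschitzWith.of_dist_le_mul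
    intro x y
    rw [Subtype.dist_eq, Subtype.dist_eq, dist_eq_norm, dist_eq_norm]
    exact hlip x x.2 y y.2
  have hcomplete : IsComplete (closedBall a r) := isClosed_closedBall.isComplete
  obtain ⟨y, hy, hfix, -, -⟩ := hcontr.exists_fixedPoint' hcomplete hmaps'
    (mem_closedBall_self hr.le) (edist_ne_top _ _)
  have hfixF : F y = y := hfix
  have hiter : ∀ k : ℕ, ∀ w ∈ closedBall a r, F^[k] w ∈ closedBall a r := by
    intro k w hw
    exact hmaps'.iterate k hw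
  have hfiter : ∀ k : ℕ, ∀ w ∈ closedBall a r, f^[k] (w : OnePoint ℂ) = (F^[k] w : ℂ) := by
    intro k
    induction k with
    | zero => intro w _; rfl
    | succ k ih =>
      intro w hw
      rw [Function.iterate_succ_apply', ih w hw, hfF _ (hiter k w hw),
        Function.iterate_succ_apply']
  have hgeo : ∀ k : ℕ, ∀ w ∈ closedBall a r, ‖F^[k] w - y‖ ≤ q ^ k * ‖w - y‖ := by
    intro k
    induction k with
    | zero => intro w _; simp
    | succ k ih =>
      intro w hw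
      rw [Function.iterate_succ_apply']
      calc ‖F (F^[k] w) - y‖ = ‖F (F^[k] w) - F y‖ := by rw [hfixF]
        _ ≤ q * ‖F^[k] w - y‖ := hlip _ (hiter k w hw) _ hy
        _ ≤ q * (q ^ k * ‖w - y‖) := by gcongr; exact ih w hw
        _ = q ^ (k + 1) * ‖w - y‖ := by ring
  have htend : ∀ w ∈ closedBall a r,
      Tendsto (fun k : ℕ => f^[k] (w : OnePoint ℂ)) atTop (𝓝 (y : OnePoint ℂ)) := by
    intro w hw
    have h1 : Tendsto (fun k : ℕ => F^[k] w) atTop (𝓝 y) := by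
      rw [tendsto_iff_norm_sub_tendsto_zero]
      apply squeeze_zero (fun k => norm_nonneg _) (fun k => hgeo k w hw)
      have := (tendsto_pow_atTop_nhds_zero_of_lt_one hq0 hq).mul_const ‖w - y‖
      rwa [zero_mul] at this
    have h2 := (continuous_coe.tendsto y).comp h1
    apply h2.congr
    intro k
    exact (hfiter k w hw).symm
  refine ⟨(y : OnePoint ℂ), ?_, ⟨((↑) : ℂ → OnePoint ℂ) '' ball a r, ?_, ?_⟩, htend⟩
  · rw [hfF y hy, hfixF]
  · have hyb : y ∈ ball a r := by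
      have := hmaps y hy
      rwa [hfixF] at this
    rw [nhds_coe_eq]
    exact image_mem_map (isOpen_ball.mem_nhds hyb)
  · rintro _ ⟨w, hw, rfl⟩
    exact htend w (ball_subset_closedBall hw)

/-- a finite trap catching all critical points gives hyperbolicity -/
theorem hyp_of_trap {P Q : Polynomial ℂ} (hcop : IsCoprime P Q) {F : ℂ → ℂ} {a : ℂ} {r q : ℝ}
    (hr : 0 < r) (hq0 : 0 ≤ q) (hq : q < 1)
    (hfF : ∀ z ∈ closedBall a r, rat P Q (z : OnePoint ℂ) = (F z : OnePoint ℂ))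
    (hmaps : ∀ z ∈ closedBall a r, F z ∈ ball a r)
    (hlip : ∀ z ∈ closedBall a r, ∀ w ∈ closedBall a r, ‖F z - F w‖ ≤ q * ‖z - w‖)
    (hcrit : ∀ c : OnePoint ℂ, (¬ ∃ U ∈ nhds c, Set.InjOn (rat P Q) U) →
      ∃ m : ℕ, ∃ w ∈ closedBall a r, (rat P Q)^[m] c = (w : OnePoint ℂ)) : Hyp P Q := by
  obtain ⟨z0, h1, h2, h3⟩ := trap hr hq0 hq hfF hmaps hlip
  refine ⟨rat P Q, rat_continuous hcop, fun z hz => rat_coe_of_ne hz, ?_⟩
  intro c hc
  obtain ⟨m, w, hw, hm⟩ := hcrit c hc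
  refine ⟨z0, 1, one_pos, ?_, ?_, ?_⟩
  · simpa using h1
  · simpa using h2
  · simp only [one_mul]
    rw [← tendsto_add_atTop_iff_nat m]
    have h4 := h3 w hw
    apply h4.congr
    intro k
    rw [Function.iterate_add_apply, hm]

/-- evaluation bound from coefficient bound -/
theorem eval_bound {s : Polynomial ℂ} {n : ℕ} {δ : ℝ} (hn : s.natDegree ≤ n)
    (hδ : ∀ i, ‖s.coeff i‖ ≤ δ) (z : ℂ) : ‖s.eval z‖ ≤ (n + 1) * δ * (1 + ‖z‖) ^ n := by
  have hδ0 : 0 ≤ δ := (norm_nonneg _).trans (hδ 0)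
  rw [eval_eq_sum_range' (lt_of_le_of_lt hn (Nat.lt_succ_self n))]
  calc ‖∑ i ∈ Finset.range (n + 1), s.coeff i * z ^ i‖
      ≤ ∑ i ∈ Finset.range (n + 1), ‖s.coeff i * z ^ i‖ := norm_sum_le _ _
    _ ≤ ∑ i ∈ Finset.range (n + 1), δ * (1 + ‖z‖) ^ n := by
        apply Finset.sum_le_sum
        intro i hi
        rw [Finset.mem_range] at hi
        rw [norm_mul, norm_pow]
        have h1 : ‖z‖ ^ i ≤ (1 + ‖z‖) ^ n := by
          calc ‖z‖ ^ i ≤ (1 + ‖z‖) ^ i := by gcongr; linarith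
            _ ≤ (1 + ‖z‖) ^ n := by
                apply pow_le_pow_right₀
                · have := norm_nonneg z; linarith
                · omega
        gcongr
        exact hδ i
    _ = (n + 1) * δ * (1 + ‖z‖) ^ n := by
        rw [Finset.sum_const, Finset.card_range, nsmul_eq_mul]; push_cast; ring

theorem deriv_coeff_bound {s : Polynomial ℂ} {n : ℕ} {δ : ℝ} (hn : s.natDegree ≤ n)
    (hδ : ∀ i, ‖s.coeff i‖ ≤ δ) (i : ℕ) : ‖(derivative s).coeff i‖ ≤ n * δ := by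
  have hδ0 : 0 ≤ δ := (norm_nonneg _).trans (hδ 0)
  rw [coeff_derivative, norm_mul]
  by_cases h : i + 1 ≤ n
  · have h1 : ‖((i : ℂ) + 1)‖ = (i : ℝ) + 1 := by
      have : ((i : ℂ) + 1) = ((i + 1 : ℕ) : ℂ) := by push_cast; rfl
      rw [this, Complex.norm_natCast]; push_cast; rfl
    rw [h1, mul_comm]
    have h2 : (i : ℝ) + 1 ≤ n := by exact_mod_cast h
    have := hδ (i + 1)
    gcongr
  · rw [coeff_eq_zero_of_natDegree_lt (by omega), norm_zero, zero_mul]
    positivity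

theorem deriv_bound {s : Polynomial ℂ} {n : ℕ} {δ : ℝ} (hn : s.natDegree ≤ n)
    (hδ : ∀ i, ‖s.coeff i‖ ≤ δ) (z : ℂ) :
    ‖(derivative s).eval z‖ ≤ (n + 1) * (n * δ) * (1 + ‖z‖) ^ (n - 1) := by
  have h1 : (derivative s).natDegree ≤ n - 1 := (natDegree_derivative_le s).trans (by omega)
  have h2 := eval_bound h1 (deriv_coeff_bound hn hδ) z
  refine h2.trans ?_
  have hδ0 : 0 ≤ δ := (norm_nonneg _).trans (hδ 0)
  have h3 : (((n - 1 : ℕ) : ℝ) + 1) ≤ (n : ℝ) + 1 := by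
    have : n - 1 ≤ n := Nat.sub_le n 1
    have : ((n - 1 : ℕ) : ℝ) ≤ n := by exact_mod_cast this
    linarith
  gcongr

/-- lower bound at infinity -/
theorem lower_infty {H : Polynomial ℂ} {d : ℕ} (hd : H.natDegree = d) (hH : H ≠ 0) :
    ∃ R m : ℝ, 0 < m ∧ ∀ z : ℂ, R ≤ ‖z‖ → m * (1 + ‖z‖) ^ d ≤ ‖H.eval z‖ := by
  have hl : 0 < ‖H.coeff d‖ := by
    rw [← hd]; exact norm_pos_iff.2 (leadingCoeff_ne_zero.2 hH)
  -- reflect: H(z) = R(1/z) z^d
  have h1 : Tendsto (fun z : ℂ => (reflect d H).eval z⁻¹) (Bornology.cobounded ℂ)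
      (𝓝 ((reflect d H).eval 0)) := ((reflect d H).continuous.tendsto 0).comp tendsto_inv₀_cobounded
  rw [eval_reflect_zero] at h1
  have h2 := h1.norm.eventually (lt_mem_nhds (by linarith : ‖H.coeff d‖ / 2 < ‖H.coeff d‖))
  rw [← comap_norm_atTop] at h2
  rw [eventually_comap, eventually_atTop] at h2
  obtain ⟨R, hR⟩ := h2
  refine ⟨max R 1, ‖H.coeff d‖ / 2 / 2 ^ d, by positivity, ?_⟩
  intro z hz
  have hz1 : 1 ≤ ‖z‖ := le_trans (le_max_right _ _) hz
  have hzR : R ≤ ‖z‖ := le_trans (le_max_left _ _) hz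
  have hz0 : z ≠ 0 := by
    intro h; rw [h, norm_zero] at hz1; linarith
  rw [eval_reflect hd.le hz0, norm_mul, norm_pow]
  have h3 := (hR _ hzR z rfl).le
  calc ‖H.coeff d‖ / 2 / 2 ^ d * (1 + ‖z‖) ^ d ≤ ‖H.coeff d‖ / 2 / 2 ^ d * (2 * ‖z‖) ^ d := by
        gcongr; linarith
    _ = ‖H.coeff d‖ / 2 * ‖z‖ ^ d := by rw [mul_pow]; field_simp
    _ ≤ _ := by gcongr

/-- lower bound for a squarefree polynomial and its derivative -/
theorem lower_sqfree {H : Polynomial ℂ} {d : ℕ} (hd : H.natDegree = d) (hH : H ≠ 0)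
    (hsq : IsCoprime H (derivative H)) :
    ∃ m : ℝ, 0 < m ∧ ∀ z : ℂ, m * (1 + ‖z‖) ^ d ≤ ‖H.eval z‖ ∨
      m * (1 + ‖z‖) ^ (d - 1) ≤ ‖(derivative H).eval z‖ := by
  obtain ⟨R, m1, hm1, hR⟩ := lower_infty hd hH
  have hcomp : IsCompact (closedBall (0 : ℂ) (max R 0)) := isCompact_closedBall _ _
  have hcont : ContinuousOn (fun z : ℂ => ‖H.eval z‖ + ‖(derivative H).eval z‖)
      (closedBall 0 (max R 0)) :=
    (H.continuous.norm.add (derivative H).continuous.norm).continuousOn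
  obtain ⟨z0, -, hz0⟩ := hcomp.exists_isMinOn ⟨0, by simp⟩ hcont
  set m2 := ‖H.eval z0‖ + ‖(derivative H).eval z0‖ with hm2
  have hm2pos : 0 < m2 := by
    rcases coprime_eval hsq z0 with h | h
    · have := norm_pos_iff.2 h
      have := norm_nonneg ((derivative H).eval z0)
      linarith
    · have := norm_pos_iff.2 h
      have := norm_nonneg (H.eval z0)
      linarith
  set B := (1 + max R 0) ^ d with hB
  have hBpos : 0 < B := by
    have : 0 ≤ max R 0 := le_max_right _ _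
    positivity
  have hB1 : 1 ≤ B := one_le_pow₀ (by have : 0 ≤ max R 0 := le_max_right _ _; linarith)
  refine ⟨min m1 (m2 / 2 / B), lt_min hm1 (by positivity), ?_⟩
  intro z
  rcases le_total R ‖z‖ with h | h
  · left
    refine le_trans ?_ (hR z h)
    gcongr
    exact min_le_left _ _
  · have hz : z ∈ closedBall (0 : ℂ) (max R 0) := by
      rw [mem_closedBall_zero_iff]
      exact h.trans (le_max_left _ _)
    have h1 : m2 ≤ ‖H.eval z‖ + ‖(derivative H).eval z‖ := hz0 hz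
    have h2 : min m1 (m2 / 2 / B) ≤ m2 / 2 / B := min_le_right _ _
    have hw : 1 + ‖z‖ ≤ 1 + max R 0 := by
      have := h.trans (le_max_left R 0); linarith
    have hw0 : 0 ≤ 1 + ‖z‖ := by positivity
    have h3 : (1 + ‖z‖) ^ d ≤ B := by rw [hB]; gcongr
    have h4 : (1 + ‖z‖) ^ (d - 1) ≤ B := by
      refine le_trans ?_ h3
      apply pow_le_pow_right₀
      · have := norm_nonneg z; linarith
      · omega
    have h5 : 0 ≤ m2 / 2 / B := by positivity
    by_cases hc : m2 / 2 ≤ ‖H.eval z‖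
    · left
      refine le_trans ?_ hc
      calc min m1 (m2 / 2 / B) * (1 + ‖z‖) ^ d ≤ m2 / 2 / B * B := by gcongr
        _ = m2 / 2 := by field_simp
    · right
      push Not at hc
      have hc2 : m2 / 2 ≤ ‖(derivative H).eval z‖ := by linarith
      refine le_trans ?_ hc2
      calc min m1 (m2 / 2 / B) * (1 + ‖z‖) ^ (d - 1) ≤ m2 / 2 / B * B := by gcongr
        _ = m2 / 2 := by field_simp

end Pool.Agent.H44.Fatou
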