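import Mathlib
import Pool.Agent.H44.Fatou.Trap

set_option autoImplicit false

open Filter Topology Polynomial OnePoint Metric

namespace Pool.Agent.H44.Fatou

variable {d : ℕ}

/-- evaluation of coefficient vectors -/
noncomputable def ev (p : Fin (d + 1) → ℂ) (z : ℂ) : ℂ := ∑ i, p i * z ^ (i : ℕ)

noncomputable def dev (p : Fin (d + 1) → ℂ) (z : ℂ) : ℂ := ∑ i, p i * ((i : ℕ) * z ^ ((i : ℕ) - 1))

theorem ev_cont : Continuous (fun x : (Fin (d + 1) → ℂ) × ℂ => ev x.1 x.2) := by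
  unfold ev
  apply continuous_finsetSum
  intro i _
  exact ((continuous_apply i).comp continuous_fst).mul (continuous_snd.pow _)

theorem dev_cont : Continuous (fun x : (Fin (d + 1) → ℂ) × ℂ => dev x.1 x.2) := by
  unfold dev
  apply continuous_finsetSum
  intro i _
  exact ((continuous_apply i).comp continuous_fst).mul (continuous_const.mul (continuous_snd.pow _))

/-- coefficient vector -/
noncomputable def cf (d : ℕ) (P : Polynomial ℂ) : Fin (d + 1) → ℂ := fun i => P.coeff i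

theorem ev_cf {P : Polynomial ℂ} (h : P.natDegree ≤ d) (z : ℂ) : ev (cf d P) z = P.eval z := by
  unfold ev cf
  rw [eval_eq_sum_range' (lt_of_le_of_lt h (Nat.lt_succ_self d)), Finset.sum_range]

theorem dev_cf {P : Polynomial ℂ} (h : P.natDegree ≤ d) (z : ℂ) :
    dev (cf d P) z = (derivative P).eval z := by
  unfold dev cf
  rw [derivative_eval, sum_over_range' P (n := d + 1) (by simp)
    (lt_of_le_of_lt h (Nat.lt_succ_self d)), Finset.sum_range]
  apply Finset.sum_congr rfl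
  intro i _
  ring

theorem cf_reflect (P : Polynomial ℂ) : cf d (reflect d P) = fun i => cf d P (Fin.rev i) := by
  funext i
  unfold cf
  rw [coeff_reflect]
  congr 1
  rw [revAt_le (by omega), Fin.val_rev]
  omega

/-- Wronskian of coefficient vectors -/
noncomputable def wv (v : (Fin (d + 1) → ℂ) × (Fin (d + 1) → ℂ)) (z : ℂ) : ℂ :=
  dev v.1 z * ev v.2 z - ev v.1 z * dev v.2 z

theorem ev1_cont : Continuous (fun x : ((Fin (d + 1) → ℂ) × (Fin (d + 1) → ℂ)) × ℂ => ev x.1.1 x.2) :=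
  ev_cont.comp ((continuous_fst.comp continuous_fst).prodMk continuous_snd)
theorem ev2_cont : Continuous (fun x : ((Fin (d + 1) → ℂ) × (Fin (d + 1) → ℂ)) × ℂ => ev x.1.2 x.2) :=
  ev_cont.comp ((continuous_snd.comp continuous_fst).prodMk continuous_snd)
theorem dev1_cont : Continuous (fun x : ((Fin (d + 1) → ℂ) × (Fin (d + 1) → ℂ)) × ℂ => dev x.1.1 x.2) :=
  dev_cont.comp ((continuous_fst.comp continuous_fst).prodMk continuous_snd)
theorem dev2_cont : Continuous (fun x : ((Fin (d + 1) → ℂ) × (Fin (d + 1) → ℂ)) × ℂ => dev x.1.2 x.2) :=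
  dev_cont.comp ((continuous_snd.comp continuous_fst).prodMk continuous_snd)

theorem wv_cont : Continuous (fun x : ((Fin (d + 1) → ℂ) × (Fin (d + 1) → ℂ)) × ℂ => wv x.1 x.2) := by
  unfold wv
  exact (dev1_cont.mul ev2_cont).sub (ev1_cont.mul dev2_cont)

theorem wv_cf {P Q : Polynomial ℂ} (hP : P.natDegree ≤ d) (hQ : Q.natDegree ≤ d) (z : ℂ) :
    wv (cf d P, cf d Q) z = (Wr P Q).eval z := by
  unfold wv Wr
  simp only
  rw [ev_cf hP, ev_cf hQ, dev_cf hP, dev_cf hQ, eval_sub, eval_mul, eval_mul]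

/-- reaching a point by iteration, staying away from poles -/
def Reach (v : (Fin (d + 1) → ℂ) × (Fin (d + 1) → ℂ)) : ℕ → ℂ → ℂ → Prop
  | 0, z, w => z = w
  | n + 1, z, w => ev v.2 z ≠ 0 ∧ Reach v n (ev v.1 z / ev v.2 z) w

theorem reach_rat {P Q : Polynomial ℂ} (hP : P.natDegree ≤ d) (hQ : Q.natDegree ≤ d) :
    ∀ (n : ℕ) (z w : ℂ), Reach (cf d P, cf d Q) n z w → (rat P Q)^[n] (z : OnePoint ℂ) = (w : OnePoint ℂ) := by
  intro n
  induction n with
  | zero =>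
    intro z w h
    have : z = w := h
    rw [this]; rfl
  | succ n ih =>
    intro z w h
    obtain ⟨h1, h2⟩ := h
    simp only at h1 h2
    rw [ev_cf hQ] at h1 h2
    rw [ev_cf hP] at h2
    rw [Function.iterate_succ_apply, rat_coe_of_ne h1]
    exact ih _ _ h2

/-- tracking of orbits -/
theorem track (v0 : (Fin (d + 1) → ℂ) × (Fin (d + 1) → ℂ)) :
    ∀ (n : ℕ) (x : ℕ → ℂ), (∀ i < n, ev v0.2 (x i) ≠ 0) →
      (∀ i < n, ev v0.1 (x i) / ev v0.2 (x i) = x (i + 1)) → ∀ N ∈ 𝓝 (x n),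
      ∀ᶠ y : ((Fin (d + 1) → ℂ) × (Fin (d + 1) → ℂ)) × ℂ in 𝓝 (v0, x 0),
        ∃ w ∈ N, Reach y.1 n y.2 w := by
  intro n
  induction n with
  | zero =>
    intro x _ _ N hN
    have h1 : Tendsto (fun y : ((Fin (d + 1) → ℂ) × (Fin (d + 1) → ℂ)) × ℂ => y.2) (𝓝 (v0, x 0))
        (𝓝 (x 0)) := continuous_snd.tendsto _
    filter_upwards [h1 hN] with y hy
    exact ⟨y.2, hy, rfl⟩
  | succ n ih =>
    intro x hx1 hx2 N hN
    have h1 := ih (fun i => x (i + 1)) (fun i hi => hx1 (i + 1) (by omega))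
      (fun i hi => hx2 (i + 1) (by omega)) N hN
    simp only [zero_add] at h1
    have h2 : ContinuousAt (fun y : ((Fin (d + 1) → ℂ) × (Fin (d + 1) → ℂ)) × ℂ =>
        (y.1, ev y.1.1 y.2 / ev y.1.2 y.2)) (v0, x 0) := by
      apply ContinuousAt.prodMk
      · exact continuous_fst.continuousAt
      · exact ev1_cont.continuousAt.div ev2_cont.continuousAt (hx1 0 (by omega))
    have h3 := h2.tendsto
    simp only at h3
    rw [hx2 0 (by omega)] at h3
    have h4 := h3.eventually h1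
    have h5 : ∀ᶠ y : ((Fin (d + 1) → ℂ) × (Fin (d + 1) → ℂ)) × ℂ in 𝓝 (v0, x 0),
        ev y.1.2 y.2 ≠ 0 := by
      have h6 : Tendsto (fun y : ((Fin (d + 1) → ℂ) × (Fin (d + 1) → ℂ)) × ℂ => ev y.1.2 y.2)
          (𝓝 (v0, x 0)) (𝓝 (ev v0.2 (x 0))) := ev2_cont.tendsto (v0, x 0)
      exact h6.eventually_ne (hx1 0 (by omega))
    filter_upwards [h4, h5] with y hy1 hy2
    obtain ⟨w, hw, hr⟩ := hy1
    exact ⟨w, hw, hy2, hr⟩

/-- behaviour at critical points near a simple hole -/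
theorem crit_near_hole (v0 : (Fin (d + 1) → ℂ) × (Fin (d + 1) → ℂ)) {A B : ℂ → ℂ} {G : ℂ → ℂ}
    {h : ℂ} (hA : Continuous A) (hB : Continuous B) (hG : Continuous G)
    (hBh : B h ≠ 0) (hGh : G h ≠ 0) (h1 : dev v0.1 h = A h * G h) (h2 : dev v0.2 h = B h * G h)
    {N : Set ℂ} (hN : N ∈ 𝓝 (A h / B h)) :
    ∀ᶠ y : ((Fin (d + 1) → ℂ) × (Fin (d + 1) → ℂ)) × ℂ in 𝓝 (v0, h),
      wv y.1 y.2 = 0 → (ev y.1.1 y.2 ≠ 0 ∨ ev y.1.2 y.2 ≠ 0) →
        ev y.1.2 y.2 ≠ 0 ∧ ev y.1.1 y.2 / ev y.1.2 y.2 ∈ N := by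
  obtain ⟨ε0, hε0, hball⟩ := Metric.mem_nhds_iff.1 hN
  set M := A h / B h with hM
  -- small errors
  have t1 : Tendsto (fun y : ((Fin (d + 1) → ℂ) × (Fin (d + 1) → ℂ)) × ℂ =>
      dev y.1.1 y.2 - A y.2 * G y.2) (𝓝 (v0, h)) (𝓝 0) := by
    have hc : Continuous (fun y : ((Fin (d + 1) → ℂ) × (Fin (d + 1) → ℂ)) × ℂ =>
        dev y.1.1 y.2 - A y.2 * G y.2) :=
      dev1_cont.sub ((hA.comp continuous_snd).mul (hG.comp continuous_snd))
    have := hc.tendsto (v0, h)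
    simpa [h1] using this
  have t2 : Tendsto (fun y : ((Fin (d + 1) → ℂ) × (Fin (d + 1) → ℂ)) × ℂ =>
      dev y.1.2 y.2 - B y.2 * G y.2) (𝓝 (v0, h)) (𝓝 0) := by
    have hc : Continuous (fun y : ((Fin (d + 1) → ℂ) × (Fin (d + 1) → ℂ)) × ℂ =>
        dev y.1.2 y.2 - B y.2 * G y.2) :=
      dev2_cont.sub ((hB.comp continuous_snd).mul (hG.comp continuous_snd))
    have := hc.tendsto (v0, h)
    simpa [h2] using this
  have tG : Tendsto (fun y : ((Fin (d + 1) → ℂ) × (Fin (d + 1) → ℂ)) × ℂ => G y.2 * B y.2)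
      (𝓝 (v0, h)) (𝓝 (G h * B h)) :=
    ((hG.comp continuous_snd).mul (hB.comp continuous_snd)).tendsto (v0, h)
  have tM : Tendsto (fun y : ((Fin (d + 1) → ℂ) × (Fin (d + 1) → ℂ)) × ℂ => A y.2 / B y.2)
      (𝓝 (v0, h)) (𝓝 M) := by
    have h3 : ContinuousAt (fun z => A z / B z) h := hA.continuousAt.div hB.continuousAt hBh
    exact h3.tendsto.comp (continuous_snd.tendsto (v0, h))
  set m := ‖G h * B h‖ / 2 with hm
  have hmpos : 0 < m := by
    have := norm_pos_iff.2 (mul_ne_zero hGh hBh); positivity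
  -- tolerance
  set τ := min (1 / 2) (ε0 / (4 * (‖M‖ + 3))) with hτ
  have hτpos : 0 < τ := lt_min (by norm_num) (by positivity)
  have hτ1 : τ ≤ 1 / 2 := min_le_left _ _
  have hτ2 : τ ≤ ε0 / (4 * (‖M‖ + 3)) := min_le_right _ _
  have e1 := t1.norm.eventually (gt_mem_nhds (by rw [norm_zero]; positivity : ‖(0 : ℂ)‖ < τ * m))
  have e2 := t2.norm.eventually (gt_mem_nhds (by rw [norm_zero]; positivity : ‖(0 : ℂ)‖ < τ * m))
  have e3 := tG.norm.eventually (lt_mem_nhds (by rw [hm]; linarith : m < ‖G h * B h‖))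
  have e4 := tM.eventually (Metric.ball_mem_nhds M (by positivity : 0 < min (ε0 / 2) 1))
  filter_upwards [e1, e2, e3, e4] with y y1 y2 y3 y4 hW hne
  set u := ev y.1.1 y.2 with hu
  set v := ev y.1.2 y.2 with hv
  set a1 := dev y.1.1 y.2 with ha1
  set a2 := dev y.1.2 y.2 with ha2
  set Ac := A y.2
  set Bc := B y.2
  set Gc := G y.2
  have hBc : Bc ≠ 0 := by
    intro h0
    rw [h0, mul_zero, norm_zero] at y3
    linarith
  have hWeq : a1 * v - u * a2 = 0 := hW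
  -- Gc Bc (M(c) v - u) = -(e1 v - e2 u)
  have key : Gc * Bc * (Ac / Bc * v - u) = -((a1 - Ac * Gc) * v - (a2 - Bc * Gc) * u) := by
    field_simp
    linear_combination hWeq
  have hb : ‖Ac / Bc * v - u‖ ≤ τ * (‖v‖ + ‖u‖) := by
    have h3 : ‖Gc * Bc‖ * ‖Ac / Bc * v - u‖ ≤ τ * m * (‖v‖ + ‖u‖) := by
      rw [← norm_mul, key, norm_neg]
      calc _ ≤ ‖(a1 - Ac * Gc) * v‖ + ‖(a2 - Bc * Gc) * u‖ := norm_sub_le _ _
        _ ≤ τ * m * ‖v‖ + τ * m * ‖u‖ := by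
            rw [norm_mul, norm_mul]; gcongr
        _ = _ := by ring
    have h4 : m * ‖Ac / Bc * v - u‖ ≤ ‖Gc * Bc‖ * ‖Ac / Bc * v - u‖ := by
      apply mul_le_mul_of_nonneg_right y3.le (norm_nonneg _)
    have h5 : m * ‖Ac / Bc * v - u‖ ≤ m * (τ * (‖v‖ + ‖u‖)) := by
      calc _ ≤ _ := h4
        _ ≤ _ := h3
        _ = _ := by ring
    exact le_of_mul_le_mul_left h5 hmpos
  have hMc : ‖Ac / Bc‖ ≤ ‖M‖ + 1 := by
    rw [dist_eq_norm] at y4
    calc ‖Ac / Bc‖ = ‖(Ac / Bc - M) + M‖ := by ring_nf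
      _ ≤ ‖Ac / Bc - M‖ + ‖M‖ := norm_add_le _ _
      _ ≤ ‖M‖ + 1 := by
          have := min_le_right (ε0 / 2) 1
          linarith
  have hv0 : v ≠ 0 := by
    intro h0
    rw [h0, mul_zero, zero_sub, norm_neg, norm_zero, zero_add] at hb
    have hu0 : u ≠ 0 := by
      rcases hne with h3 | h3
      · exact h3
      · exact absurd h0 h3
    have := norm_pos_iff.2 hu0
    nlinarith
  refine ⟨hv0, hball ?_⟩
  have hvn := norm_pos_iff.2 hv0
  have hF : ‖Ac / Bc - u / v‖ ≤ τ * (1 + ‖u / v‖) := by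
    have h3 : Ac / Bc * v - u = (Ac / Bc - u / v) * v := by field_simp
    rw [h3, norm_mul] at hb
    have h4 : τ * (‖v‖ + ‖u‖) = τ * (1 + ‖u / v‖) * ‖v‖ := by
      rw [norm_div]; field_simp
    rw [h4] at hb
    exact le_of_mul_le_mul_right hb hvn
  have hFn : ‖u / v‖ ≤ 2 * ‖M‖ + 3 := by
    have h3 : ‖u / v‖ ≤ ‖Ac / Bc‖ + ‖Ac / Bc - u / v‖ := by
      calc ‖u / v‖ = ‖Ac / Bc - (Ac / Bc - u / v)‖ := by ring_nf
        _ ≤ _ := norm_sub_le _ _
    have h4 : τ * (1 + ‖u / v‖) ≤ 1 / 2 * (1 + ‖u / v‖) := by gcongr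
    linarith
  have hF2 : ‖Ac / Bc - u / v‖ ≤ ε0 / 2 := by
    refine hF.trans ?_
    calc τ * (1 + ‖u / v‖) ≤ ε0 / (4 * (‖M‖ + 3)) * (1 + (2 * ‖M‖ + 3)) := by gcongr
      _ ≤ ε0 / (4 * (‖M‖ + 3)) * (2 * (‖M‖ + 3)) := by
          have : 0 ≤ ε0 / (4 * (‖M‖ + 3)) := by positivity
          gcongr
          have := norm_nonneg M
          linarith
      _ = ε0 / 2 := by field_simp; norm_num
  rw [dist_eq_norm] at y4
  rw [mem_ball, dist_eq_norm]
  have h6 := min_le_left (ε0 / 2) 1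
  calc ‖u / v - M‖ = ‖(Ac / Bc - M) - (Ac / Bc - u / v)‖ := by ring_nf
    _ ≤ ‖Ac / Bc - M‖ + ‖Ac / Bc - u / v‖ := norm_sub_le _ _
    _ < ε0 := by linarith

end Pool.Agent.H44.Fatou
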