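import Mathlib
import Pool.Agent.H44.Fatou.Mob

set_option autoImplicit false

open Filter Topology Polynomial OnePoint Metric

namespace Pool.Agent.H44.Fatou

variable {d : ℕ}

/-- reversal -/
def rv (v : (Fin (d + 1) → ℂ) × (Fin (d + 1) → ℂ)) : (Fin (d + 1) → ℂ) × (Fin (d + 1) → ℂ) :=
  (fun i => v.1 (Fin.rev i), fun i => v.2 (Fin.rev i))

theorem rv_cont : Continuous (rv (d := d)) := by
  unfold rv
  apply Continuous.prodMk
  · exact continuous_pi (fun i => (continuous_apply (Fin.rev i)).comp continuous_fst)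
  · exact continuous_pi (fun i => (continuous_apply (Fin.rev i)).comp continuous_snd)

theorem rv1_cont : Continuous (fun x : ((Fin (d + 1) → ℂ) × (Fin (d + 1) → ℂ)) × ℂ =>
    (rv x.1, x.2)) :=
  (rv_cont.comp continuous_fst).prodMk continuous_snd

theorem rv2_cont : Continuous (fun x : ((Fin (d + 1) → ℂ) × (Fin (d + 1) → ℂ)) × ℂ =>
    wv (rv x.1) x.2) := by
  have h := Continuous.comp (wv_cont (d := d)) (rv1_cont (d := d))
  exact h

theorem ev_rev (p : Fin (d + 1) → ℂ) {c : ℂ} (hc : c ≠ 0) :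
    ev p c = ev (fun i => p (Fin.rev i)) c⁻¹ * c ^ d := by
  unfold ev
  rw [Finset.sum_mul]
  rw [← Equiv.sum_comp Fin.revPerm (fun i : Fin (d + 1) => p i * c ^ (i : ℕ))]
  apply Finset.sum_congr rfl
  intro i _
  rw [Fin.revPerm_apply, mul_assoc]
  congr 1
  rw [Fin.val_rev, show d + 1 - ((i : ℕ) + 1) = d - i by omega, inv_pow]
  have h1 : c ^ d = c ^ (d - (i : ℕ)) * c ^ (i : ℕ) := by
    rw [← pow_add]; congr 1; omega
  rw [h1]
  field_simp

theorem term_rev (p : ℂ) {c : ℂ} (hc : c ≠ 0) (d n : ℕ) (hn : n ≤ d) :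
    c ^ 2 * (p * (((d : ℂ) - n) * c ^ (d - n - 1)))
      = c ^ d * (d * c * (p * c⁻¹ ^ n) - p * (n * c⁻¹ ^ (n - 1))) := by
  obtain ⟨m, rfl⟩ := Nat.exists_eq_add_of_le hn
  rcases m with _ | m
  · rcases n with _ | n
    · simp
    · simp only [Nat.add_zero, sub_self, zero_mul, mul_zero, Nat.add_sub_cancel]
      rw [pow_succ c⁻¹ n]
      field_simp
      ring
  · rcases n with _ | n
    · have h : 0 + (m + 1) - 0 - 1 = m := by omega
      rw [h]
      simp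
      ring
    · have h : n + 1 + (m + 1) - (n + 1) - 1 = m := by omega
      have h2 : n + 1 - 1 = n := by omega
      rw [h, h2]
      have h3 : c ^ (n + 1 + (m + 1)) = c ^ n * c ^ m * c ^ 2 := by ring
      rw [h3, inv_pow, inv_pow]
      have hne : c ^ n ≠ 0 := pow_ne_zero _ hc
      push_cast
      field_simp
      ring

theorem dev_rev (p : Fin (d + 1) → ℂ) {c : ℂ} (hc : c ≠ 0) :
    c ^ 2 * dev p c = c ^ d * (d * c * ev (fun i => p (Fin.rev i)) c⁻¹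
      - dev (fun i => p (Fin.rev i)) c⁻¹) := by
  unfold ev dev
  rw [Finset.mul_sum, Finset.mul_sum, ← Finset.sum_sub_distrib, Finset.mul_sum]
  rw [← Equiv.sum_comp Fin.revPerm (fun i : Fin (d + 1) => c ^ 2 * (p i * ((i : ℕ) * c ^ ((i : ℕ) - 1))))]
  apply Finset.sum_congr rfl
  intro i _
  rw [Fin.revPerm_apply]
  have hi : (i : ℕ) ≤ d := by omega
  have hr : ((Fin.rev i : Fin (d + 1)) : ℕ) = d - i := by rw [Fin.val_rev]; omega
  rw [hr]
  have hcast : ((d - (i : ℕ) : ℕ) : ℂ) = (d : ℂ) - (i : ℕ) := by rw [Nat.cast_sub hi]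
  rw [hcast]
  exact term_rev (p (Fin.rev i)) hc d i hi

theorem wv_rev_aux (c D N P Q P' Q' RP RQ RP' RQ' : ℂ)
    (h1 : P = RP * D) (h2 : Q = RQ * D)
    (h3 : c ^ 2 * P' = D * (N * c * RP - RP'))
    (h4 : c ^ 2 * Q' = D * (N * c * RQ - RQ')) :
    c ^ 2 * (P' * Q - P * Q') = -(D * D * (RP' * RQ - RP * RQ')) := by
  subst h1 h2
  linear_combination (RQ * D) * h3 - (RP * D) * h4

theorem wv_rev (v : (Fin (d + 1) → ℂ) × (Fin (d + 1) → ℂ)) {c : ℂ} (hc : c ≠ 0)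
    (h : wv v c = 0) : wv (rv v) c⁻¹ = 0 := by
  have key : c ^ 2 * wv v c = -(c ^ d * c ^ d * wv (rv v) c⁻¹) :=
    wv_rev_aux c (c ^ d) d (ev v.1 c) (ev v.2 c) (dev v.1 c) (dev v.2 c)
      (ev (fun i => v.1 (Fin.rev i)) c⁻¹) (ev (fun i => v.2 (Fin.rev i)) c⁻¹)
      (dev (fun i => v.1 (Fin.rev i)) c⁻¹) (dev (fun i => v.2 (Fin.rev i)) c⁻¹)
      (ev_rev v.1 hc) (ev_rev v.2 hc) (dev_rev v.1 hc) (dev_rev v.2 hc)
  rw [h, mul_zero] at key
  have hcd : c ^ d * c ^ d ≠ 0 := mul_ne_zero (pow_ne_zero _ hc) (pow_ne_zero _ hc)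
  have := neg_eq_zero.1 key.symm
  rcases mul_eq_zero.1 this with h5 | h5
  · exact absurd h5 hcd
  · exact h5

/-- no critical points near infinity -/
theorem no_crit_infty (v0 : (Fin (d + 1) → ℂ) × (Fin (d + 1) → ℂ)) (h0 : wv (rv v0) 0 ≠ 0) :
    ∃ R : ℝ, 0 < R ∧ ∀ᶠ v in 𝓝 v0, (∀ c : ℂ, R < ‖c‖ → wv v c ≠ 0) ∧ wv (rv v) 0 ≠ 0 := by
  have hc := rv2_cont (d := d)
  have h1 := (hc.tendsto (v0, 0)).eventually_ne h0
  rw [nhds_prod_eq, eventually_prod_iff] at h1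
  obtain ⟨p, hp, q, hq, hpq⟩ := h1
  obtain ⟨ε, hε, hball⟩ := Metric.eventually_nhds_iff_ball.1 hq
  refine ⟨1 / ε, by positivity, ?_⟩
  filter_upwards [hp] with v hv
  constructor
  · intro c hc hw
    have hcn : 0 < ‖c‖ := lt_trans (by positivity) hc
    have hc0 : c ≠ 0 := norm_pos_iff.1 hcn
    have h2 := wv_rev v hc0 hw
    have h3 : q c⁻¹ := by
      apply hball
      rw [mem_ball_zero_iff, norm_inv, inv_lt_comm₀ hcn hε, ← one_div]
      exact hc
    exact hpq hv h3 h2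
  · exact hpq hv (hball 0 (mem_ball_self hε))

/-- the trap for nearby maps -/
theorem trap_near (v0 : (Fin (d + 1) → ℂ) × (Fin (d + 1) → ℂ)) {a : ℂ} (hQ : ev v0.2 a ≠ 0)
    (hfix : ev v0.1 a / ev v0.2 a = a) (hattr : ‖wv v0 a / ev v0.2 a ^ 2‖ < 1) :
    ∃ r q : ℝ, 0 < r ∧ 0 ≤ q ∧ q < 1 ∧ ∀ᶠ v in 𝓝 v0, ∀ z ∈ closedBall a r,
      ev v.2 z ≠ 0 ∧ ‖wv v z / ev v.2 z ^ 2‖ ≤ q ∧ ev v.1 z / ev v.2 z ∈ ball a r := by
  obtain ⟨q, hq1, hq2⟩ := exists_between hattr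
  have hq0 : 0 ≤ q := (norm_nonneg _).trans hq1.le
  -- radius for v0
  have hid : Continuous (fun z : ℂ => (v0, z)) := Continuous.prodMk continuous_const continuous_id
  have hcw : Continuous (fun z => wv v0 z) := by
    have h := Continuous.comp (wv_cont (d := d)) hid
    exact h
  have hce1 : Continuous (fun z => ev v0.1 z) := by
    have h := Continuous.comp (ev1_cont (d := d)) hid
    exact h
  have hce2 : Continuous (fun z => ev v0.2 z) := by
    have h := Continuous.comp (ev2_cont (d := d)) hid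
    exact h
  have e1 : ∀ᶠ z in 𝓝 a, ev v0.2 z ≠ 0 := hce2.continuousAt.eventually_ne hQ
  have e2 : ∀ᶠ z in 𝓝 a, ‖wv v0 z / ev v0.2 z ^ 2‖ < q := by
    have h1 : ContinuousAt (fun z => wv v0 z / ev v0.2 z ^ 2) a :=
      hcw.continuousAt.div (hce2.continuousAt.pow 2) (pow_ne_zero 2 hQ)
    exact h1.norm.eventually (gt_mem_nhds hq1)
  obtain ⟨ε, hε, hball⟩ := Metric.eventually_nhds_iff_ball.1 (e1.and e2)
  set r := ε / 2 with hr
  have hrpos : 0 < r := by positivity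
  have hsub : closedBall a r ⊆ ball a ε := closedBall_subset_ball (by rw [hr]; linarith)
  have hderiv : ∀ v : (Fin (d + 1) → ℂ) × (Fin (d + 1) → ℂ), ∀ z, ev v.2 z ≠ 0 →
      HasDerivAt (fun z => ev v.1 z / ev v.2 z) (wv v z / ev v.2 z ^ 2) z := by
    intro v z hz
    have hev : ∀ p : Fin (d + 1) → ℂ, HasDerivAt (fun z => ev p z) (dev p z) z := by
      intro p
      unfold ev dev
      apply HasDerivAt.fun_sum
      intro i _
      exact (hasDerivAt_pow (i : ℕ) z).const_mul (p i)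
    exact (hev v.1).div (hev v.2) hz
  have hF0 : ∀ z ∈ closedBall a r, ‖ev v0.1 z / ev v0.2 z - a‖ < r := by
    intro z hz
    have h1 : ‖ev v0.1 z / ev v0.2 z - ev v0.1 a / ev v0.2 a‖ ≤ q * ‖z - a‖ :=
      (convex_closedBall a r).norm_image_sub_le_of_norm_hasDerivWithin_le
        (f := fun z => ev v0.1 z / ev v0.2 z)
        (fun x hx => (hderiv v0 x (hball x (hsub hx)).1).hasDerivWithinAt)
        (fun x hx => (hball x (hsub hx)).2.le) (mem_closedBall_self hrpos.le) hz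
    rw [hfix] at h1
    rw [mem_closedBall, dist_eq_norm] at hz
    calc _ ≤ q * ‖z - a‖ := h1
      _ ≤ q * r := by gcongr
      _ < r := by nlinarith
  refine ⟨r, q, hrpos, hq0, hq2, ?_⟩
  apply (isCompact_closedBall a r).eventually_forall_of_forall_eventually
  intro z0 hz0
  have hne := (hball z0 (hsub hz0)).1
  have hlt := (hball z0 (hsub hz0)).2
  have g1 : ∀ᶠ y : ((Fin (d + 1) → ℂ) × (Fin (d + 1) → ℂ)) × ℂ in 𝓝 (v0, z0), ev y.1.2 y.2 ≠ 0 :=
    (ev2_cont.tendsto (v0, z0)).eventually_ne hne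
  have g2 : ∀ᶠ y : ((Fin (d + 1) → ℂ) × (Fin (d + 1) → ℂ)) × ℂ in 𝓝 (v0, z0),
      ‖wv y.1 y.2 / ev y.1.2 y.2 ^ 2‖ < q := by
    have h1 : ContinuousAt (fun y : ((Fin (d + 1) → ℂ) × (Fin (d + 1) → ℂ)) × ℂ =>
        wv y.1 y.2 / ev y.1.2 y.2 ^ 2) (v0, z0) :=
      wv_cont.continuousAt.div (ev2_cont.continuousAt.pow 2) (pow_ne_zero 2 hne)
    exact h1.norm.eventually (gt_mem_nhds hlt)
  have g3 : ∀ᶠ y : ((Fin (d + 1) → ℂ) × (Fin (d + 1) → ℂ)) × ℂ in 𝓝 (v0, z0),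
      ‖ev y.1.1 y.2 / ev y.1.2 y.2 - a‖ < r := by
    have h1 : ContinuousAt (fun y : ((Fin (d + 1) → ℂ) × (Fin (d + 1) → ℂ)) × ℂ =>
        ev y.1.1 y.2 / ev y.1.2 y.2 - a) (v0, z0) :=
      (ev1_cont.continuousAt.div ev2_cont.continuousAt hne).sub continuousAt_const
    exact h1.norm.eventually (gt_mem_nhds (hF0 z0 hz0))
  filter_upwards [g1, g2, g3] with y h1 h2 h3
  refine ⟨h1, h2.le, ?_⟩
  rw [mem_ball, dist_eq_norm]
  exact h3

theorem Wr_mul (A B G : Polynomial ℂ) : Wr (A * G) (B * G) = Wr A B * G ^ 2 := by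
  unfold Wr
  rw [derivative_mul, derivative_mul]
  ring

theorem Wr_lin (α β γ δ : ℂ) :
    Wr (C α * X + C β) (C γ * X + C δ) = C (α * δ - β * γ) := by
  unfold Wr
  simp only [derivative_add, derivative_mul, derivative_C, zero_mul, derivative_X, mul_one,
    zero_add, add_zero]
  rw [C_sub, C_mul, C_mul]
  ring

end Pool.Agent.H44.Fatou
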