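import Mathlib
import Pool.Agent.H44.Fatou.Mob2

set_option autoImplicit false

open Filter Topology Polynomial OnePoint Metric

namespace Pool.Agent.H44.Fatou

/-- data of a degenerate map with a Mobius reduction, all holes attracted to the sink -/
structure MobData (α β γ δ a : ℂ) (H : Polynomial ℂ) : Prop where
  det : α * δ - β * γ ≠ 0
  den : γ * a + δ ≠ 0
  fix : α * a + β = a * (γ * a + δ)
  attr : ‖α * δ - β * γ‖ < ‖γ * a + δ‖ ^ 2
  sq : ∀ h, H.eval h = 0 → (derivative H).eval h ≠ 0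
  Ha : H.eval a ≠ 0
  orb : ∀ h, H.eval h = 0 → ∃ x : ℕ → ℂ, x 0 = h ∧ (∀ i, γ * x i + δ ≠ 0) ∧
    (∀ i, (α * x i + β) / (γ * x i + δ) = x (i + 1)) ∧ (∀ i, H.eval (x (i + 1)) ≠ 0) ∧
    Tendsto x atTop (𝓝 a)

theorem deg_lin (α β : ℂ) (H : Polynomial ℂ) :
    ((C α * X + C β) * H).natDegree ≤ H.natDegree + 1 := by
  refine natDegree_mul_le.trans ?_
  have : (C α * X + C β).natDegree ≤ 1 := natDegree_linear_le
  omega

theorem coeff_lin_top (α β : ℂ) (H : Polynomial ℂ) :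
    ((C α * X + C β) * H).coeff (H.natDegree + 1) = α * H.leadingCoeff := by
  rw [add_mul, coeff_add, mul_assoc, coeff_C_mul, coeff_C_mul, coeff_X_mul,
    coeff_eq_zero_of_natDegree_lt (Nat.lt_succ_self _), mul_zero, add_zero]
  rfl

theorem coeff_lin_sub (α β : ℂ) (H : Polynomial ℂ) :
    ((C α * X + C β) * H).coeff H.natDegree = α * (X * H).coeff H.natDegree + β * H.leadingCoeff := by
  rw [add_mul, coeff_add, mul_assoc, coeff_C_mul, coeff_C_mul]
  rfl

theorem wr_infty (α β γ δ : ℂ) {H : Polynomial ℂ} (hH : H ≠ 0) (hΔ : α * δ - β * γ ≠ 0) :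
    (Wr (reflect (H.natDegree + 1) ((C α * X + C β) * H))
      (reflect (H.natDegree + 1) ((C γ * X + C δ) * H))).eval 0 ≠ 0 := by
  unfold Wr
  rw [eval_sub, eval_mul, eval_mul]
  have h0 : ∀ P : Polynomial ℂ, (derivative P).eval 0 = P.coeff 1 := by
    intro P
    rw [← coeff_zero_eq_eval_zero, coeff_derivative]
    simp
  rw [h0, h0, ← coeff_zero_eq_eval_zero, ← coeff_zero_eq_eval_zero]
  simp only [coeff_reflect]
  rw [revAt_le (by omega : 1 ≤ H.natDegree + 1), revAt_zero]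
  rw [Nat.add_sub_cancel]
  rw [coeff_lin_top, coeff_lin_top, coeff_lin_sub, coeff_lin_sub]
  have hl : H.leadingCoeff ≠ 0 := leadingCoeff_ne_zero.2 hH
  have : (α * (X * H).coeff H.natDegree + β * H.leadingCoeff) * (γ * H.leadingCoeff) -
      α * H.leadingCoeff * (γ * (X * H).coeff H.natDegree + δ * H.leadingCoeff)
      = -((α * δ - β * γ) * H.leadingCoeff ^ 2) := by ring
  rw [this]
  exact neg_ne_zero.2 (mul_ne_zero hΔ (pow_ne_zero 2 hl))

/-- the coefficient vectors of the degenerate pair -/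
noncomputable def v0 (α β γ δ : ℂ) (H : Polynomial ℂ) :
    (Fin (H.natDegree + 1 + 1) → ℂ) × (Fin (H.natDegree + 1 + 1) → ℂ) :=
  (cf (H.natDegree + 1) ((C α * X + C β) * H), cf (H.natDegree + 1) ((C γ * X + C δ) * H))

theorem ev_v0_1 (α β γ δ : ℂ) (H : Polynomial ℂ) (z : ℂ) :
    ev (v0 α β γ δ H).1 z = (α * z + β) * H.eval z := by
  unfold v0
  simp only
  rw [ev_cf (deg_lin α β H)]
  simp

theorem ev_v0_2 (α β γ δ : ℂ) (H : Polynomial ℂ) (z : ℂ) :
    ev (v0 α β γ δ H).2 z = (γ * z + δ) * H.eval z := by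
  unfold v0
  simp only
  rw [ev_cf (deg_lin γ δ H)]
  simp

theorem dev_v0_1 (α β γ δ : ℂ) (H : Polynomial ℂ) {z : ℂ} (hz : H.eval z = 0) :
    dev (v0 α β γ δ H).1 z = (α * z + β) * (derivative H).eval z := by
  unfold v0
  simp only
  rw [dev_cf (deg_lin α β H), derivative_mul, eval_add, eval_mul, eval_mul, hz]
  simp

theorem dev_v0_2 (α β γ δ : ℂ) (H : Polynomial ℂ) {z : ℂ} (hz : H.eval z = 0) :
    dev (v0 α β γ δ H).2 z = (γ * z + δ) * (derivative H).eval z := by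
  unfold v0
  simp only
  rw [dev_cf (deg_lin γ δ H), derivative_mul, eval_add, eval_mul, eval_mul, hz]
  simp

theorem wv_v0 (α β γ δ : ℂ) (H : Polynomial ℂ) (z : ℂ) :
    wv (v0 α β γ δ H) z = (α * δ - β * γ) * H.eval z ^ 2 := by
  unfold v0
  rw [wv_cf (deg_lin α β H) (deg_lin γ δ H), Wr_mul, Wr_lin]
  simp

theorem rv_cf (d : ℕ) (P Q : Polynomial ℂ) :
    rv (cf d P, cf d Q) = (cf d (reflect d P), cf d (reflect d Q)) := by
  unfold rv
  rw [cf_reflect, cf_reflect]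

theorem natDegree_reflect_le' {d : ℕ} {P : Polynomial ℂ} (h : P.natDegree ≤ d) :
    (reflect d P).natDegree ≤ d := by
  rw [natDegree_le_iff_coeff_eq_zero]
  intro N hN
  rw [coeff_reflect, revAt_eq_self_of_lt hN]
  exact coeff_eq_zero_of_natDegree_lt (by omega)

/-- eventual behaviour of critical points in a compact set -/
theorem crit_reach {α β γ δ a : ℂ} {H : Polynomial ℂ} (D : MobData α β γ δ a H) {r : ℝ}
    (hr : 0 < r) (z0 : ℂ) :
    ∀ᶠ y : ((Fin (H.natDegree + 1 + 1) → ℂ) × (Fin (H.natDegree + 1 + 1) → ℂ)) × ℂ in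
      𝓝 (v0 α β γ δ H, z0), wv y.1 y.2 = 0 → (ev y.1.1 y.2 ≠ 0 ∨ ev y.1.2 y.2 ≠ 0) →
        ∃ n : ℕ, ∃ w ∈ ball a r, Reach y.1 n y.2 w := by
  by_cases hz : H.eval z0 = 0
  · obtain ⟨x, hx0, hx1, hx2, hx3, hx4⟩ := D.orb z0 hz
    -- reach the ball
    have h1 : ∀ᶠ i in atTop, x i ∈ ball a r := hx4.eventually (ball_mem_nhds a hr)
    obtain ⟨n, hn⟩ := (h1.and (eventually_ge_atTop 1)).exists
    obtain ⟨m, rfl⟩ := Nat.exists_eq_add_of_le' hn.2
    have htr := track (v0 α β γ δ H) m (fun i => x (i + 1))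
      (by
        intro i _
        rw [ev_v0_2]
        exact mul_ne_zero (hx1 _) (hx3 _))
      (by
        intro i _
        rw [ev_v0_2, ev_v0_1, mul_div_mul_right _ _ (hx3 i)]
        exact hx2 (i + 1)) (ball a r) (isOpen_ball.mem_nhds hn.1)
    rw [nhds_prod_eq, eventually_prod_iff] at htr
    obtain ⟨p, hp, q, hq, hpq⟩ := htr
    have hx1' : x (0 + 1) = (α * z0 + β) / (γ * z0 + δ) := by
      rw [← hx0]; exact (hx2 0).symm
    have hq' : ∀ᶠ y in 𝓝 ((α * z0 + β) / (γ * z0 + δ)), q y := by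
      rw [← hx1']; exact hq
    have hch := crit_near_hole (v0 α β γ δ H) (A := fun z => α * z + β) (B := fun z => γ * z + δ)
      (G := fun z => (derivative H).eval z) (h := z0) (by fun_prop) (by fun_prop)
      (derivative H).continuous (by have := hx1 0; rwa [hx0] at this) (D.sq z0 hz)
      (dev_v0_1 α β γ δ H hz) (dev_v0_2 α β γ δ H hz) (N := {w | q w}) hq'
    have hp' : ∀ᶠ y : ((Fin (H.natDegree + 1 + 1) → ℂ) × (Fin (H.natDegree + 1 + 1) → ℂ)) × ℂ in
        𝓝 (v0 α β γ δ H, z0), p y.1 := by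
      have h2 : Tendsto (fun y : ((Fin (H.natDegree + 1 + 1) → ℂ) ×
          (Fin (H.natDegree + 1 + 1) → ℂ)) × ℂ => y.1) (𝓝 (v0 α β γ δ H, z0))
          (𝓝 (v0 α β γ δ H)) := continuous_fst.tendsto _
      exact h2.eventually hp
    filter_upwards [hch, hp'] with y hy1 hy2 hw hne
    obtain ⟨h3, h4⟩ := hy1 hw hne
    obtain ⟨w, hw1, hw2⟩ := hpq hy2 h4
    exact ⟨m + 1, w, hw1, h3, hw2⟩
  · have h1 : wv (v0 α β γ δ H) z0 ≠ 0 := by
      rw [wv_v0]
      exact mul_ne_zero D.det (pow_ne_zero 2 hz)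
    have h2 := (wv_cont (d := H.natDegree + 1)).tendsto (v0 α β γ δ H, z0)
    have h3 := h2.eventually_ne h1
    filter_upwards [h3] with y hy hw
    exact absurd hw hy

theorem mob_nhds {α β γ δ a : ℂ} {H : Polynomial ℂ} (D : MobData α β γ δ a H) :
    ∀ᶠ v in 𝓝 (v0 α β γ δ H), ∀ P Q : Polynomial ℂ, IsCoprime P Q →
      max P.natDegree Q.natDegree = H.natDegree + 1 →
      v = (cf (H.natDegree + 1) P, cf (H.natDegree + 1) Q) → Hyp P Q := by
  have hH : H ≠ 0 := by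
    intro h0
    have := D.Ha
    rw [h0] at this
    simp at this
  -- trap
  have hQa : ev (v0 α β γ δ H).2 a ≠ 0 := by
    rw [ev_v0_2]; exact mul_ne_zero D.den D.Ha
  have hfix : ev (v0 α β γ δ H).1 a / ev (v0 α β γ δ H).2 a = a := by
    rw [ev_v0_2, ev_v0_1, mul_div_mul_right _ _ D.Ha, D.fix, mul_div_assoc, div_self D.den, mul_one]
  have hattr : ‖wv (v0 α β γ δ H) a / ev (v0 α β γ δ H).2 a ^ 2‖ < 1 := by
    rw [wv_v0, ev_v0_2, mul_pow, mul_div_mul_right _ _ (pow_ne_zero 2 D.Ha), norm_div, norm_pow]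
    rw [div_lt_one (pow_pos (norm_pos_iff.2 D.den) 2)]
    exact D.attr
  obtain ⟨r, q, hr, hq0, hq1, htrap⟩ := trap_near (v0 α β γ δ H) hQa hfix hattr
  -- infinity
  have hinf : wv (rv (v0 α β γ δ H)) 0 ≠ 0 := by
    unfold v0
    rw [rv_cf, wv_cf (natDegree_reflect_le' (deg_lin α β H)) (natDegree_reflect_le' (deg_lin γ δ H))]
    exact wr_infty α β γ δ hH D.det
  obtain ⟨R, hR, hnc⟩ := no_crit_infty (v0 α β γ δ H) hinf
  -- compact part
  have hcomp : ∀ᶠ v in 𝓝 (v0 α β γ δ H), ∀ z ∈ closedBall (0 : ℂ) R,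
      wv v z = 0 → (ev v.1 z ≠ 0 ∨ ev v.2 z ≠ 0) → ∃ n : ℕ, ∃ w ∈ ball a r, Reach v n z w := by
    apply (isCompact_closedBall (0 : ℂ) R).eventually_forall_of_forall_eventually
    intro z0 _
    exact crit_reach D hr z0
  filter_upwards [htrap, hnc, hcomp] with v h1 h2 h3 P Q hcop hdeg hv
  subst hv
  have hPd : P.natDegree ≤ H.natDegree + 1 := by rw [← hdeg]; exact le_max_left _ _
  have hQd : Q.natDegree ≤ H.natDegree + 1 := by rw [← hdeg]; exact le_max_right _ _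
  simp only [ev_cf hPd, ev_cf hQd, wv_cf hPd hQd] at h1 h3
  have hderiv : ∀ z, Q.eval z ≠ 0 →
      HasDerivAt (fun z => P.eval z / Q.eval z) ((Wr P Q).eval z / Q.eval z ^ 2) z := by
    intro z hz
    have := (P.hasDerivAt z).div (Q.hasDerivAt z) hz
    unfold Wr
    rw [eval_sub, eval_mul, eval_mul]
    exact this
  apply hyp_of_trap hcop (F := fun z => P.eval z / Q.eval z) hr hq0 hq1 (a := a)
  · intro z hz
    exact rat_coe_of_ne (h1 z hz).1
  · intro z hz
    exact (h1 z hz).2.2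
  · intro z hz w hw
    exact (convex_closedBall a r).norm_image_sub_le_of_norm_hasDerivWithin_le
      (f := fun z => P.eval z / Q.eval z)
      (fun x hx => (hderiv x (h1 x hx).1).hasDerivWithinAt) (fun x hx => (h1 x hx).2.1) hw hz
  · intro c hc
    induction c using OnePoint.rec with
    | infty =>
      exfalso
      have h4 := crit_infty hc
      apply h2.2
      rw [rv_cf, wv_cf (natDegree_reflect_le' hPd) (natDegree_reflect_le' hQd)]
      have : dg P Q = H.natDegree + 1 := hdeg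
      rw [← this]
      exact h4
    | coe c =>
      have h4 := crit_coe hc
      have h5 : ‖c‖ ≤ R := by
        by_contra h6
        push Not at h6
        apply h2.1 c h6
        rw [wv_cf hPd hQd]
        exact h4
      obtain ⟨n, w, hw, hreach⟩ := h3 c (by rw [mem_closedBall_zero_iff]; exact h5) h4
        (coprime_eval hcop c)
      exact ⟨n, w, ball_subset_closedBall hw, reach_rat hPd hQd n c w hreach⟩

/-- neighbourhoods of degenerate maps with Mobius reduction -/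
theorem mob_main {α β γ δ a : ℂ} {H : Polynomial ℂ} (D : MobData α β γ δ a H) :
    ∃ ρ : ℝ, 0 < ρ ∧ ∀ P Q : Polynomial ℂ, IsCoprime P Q →
      max P.natDegree Q.natDegree = H.natDegree + 1 →
      (∀ i, ‖P.coeff i - ((C α * X + C β) * H).coeff i‖ < ρ) →
      (∀ i, ‖Q.coeff i - ((C γ * X + C δ) * H).coeff i‖ < ρ) → Hyp P Q := by
  obtain ⟨ρ, hρ, hball⟩ := Metric.eventually_nhds_iff_ball.1 (mob_nhds D)
  refine ⟨ρ, hρ, ?_⟩
  intro P Q hcop hdeg h1 h2
  refine hball (cf (H.natDegree + 1) P, cf (H.natDegree + 1) Q) ?_ P Q hcop hdeg rfl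
  rw [mem_ball]
  unfold v0
  rw [Prod.dist_eq, max_lt_iff]
  constructor
  · rw [dist_pi_lt_iff hρ]
    intro i
    rw [dist_eq_norm]
    exact h1 i
  · rw [dist_pi_lt_iff hρ]
    intro i
    rw [dist_eq_norm]
    exact h2 i

end Pool.Agent.H44.Fatou
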