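import Mathlib
import Pool.Agent.H44.Fatou.Mob3

set_option autoImplicit false

open Filter Topology Polynomial OnePoint Metric

namespace Pool.Agent.H44.Fatou

/-- generic choice of points avoiding a symmetric relation with countable fibres -/
theorem generic_pts (B : Set ℂ) (hB : B.Countable) (R : ℂ → ℂ → Prop)
    (hR : ∀ z, {w | R z w}.Countable) (hsym : ∀ z w, R z w → R w z) :
    ∀ (k : ℕ) (h : Fin k → ℂ) (ε : ℝ), 0 < ε → ∃ h' : Fin k → ℂ, (∀ i, ‖h' i - h i‖ < ε) ∧
      (∀ i, h' i ∉ B) ∧ ∀ i j, i ≠ j → ¬ R (h' i) (h' j) := by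
  intro k
  induction k with
  | zero =>
    intro h ε hε
    exact ⟨h, fun i => i.elim0, fun i => i.elim0, fun i => i.elim0⟩
  | succ k ih =>
    intro h ε hε
    obtain ⟨g, hg1, hg2, hg3⟩ := ih (fun i => h i.succ) ε hε
    have hc : (B ∪ ⋃ i, {w | R (g i) w}).Countable :=
      hB.union (Set.countable_iUnion fun i => hR (g i))
    obtain ⟨x, hx1, hx2⟩ := (hc.dense_compl ℝ).exists_dist_lt (h 0) hε
    rw [Set.mem_compl_iff, Set.mem_union, Set.mem_iUnion] at hx1
    push Not at hx1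
    refine ⟨Fin.cons x g, ?_, ?_, ?_⟩
    · intro i
      refine Fin.cases ?_ (fun i => ?_) i
      · rw [Fin.cons_zero, ← dist_eq_norm, dist_comm]
        exact hx2
      · rw [Fin.cons_succ]
        exact hg1 i
    · intro i
      refine Fin.cases ?_ (fun i => ?_) i
      · rw [Fin.cons_zero]; exact hx1.1
      · rw [Fin.cons_succ]; exact hg2 i
    · intro i j
      refine Fin.cases ?_ (fun i => ?_) i
      · refine Fin.cases ?_ (fun j => ?_) j
        · intro hne; exact absurd rfl hne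
        · intro _ hr
          rw [Fin.cons_zero, Fin.cons_succ] at hr
          exact hx1.2 j (hsym _ _ hr)
      · refine Fin.cases ?_ (fun j => ?_) j
        · intro _ hr
          rw [Fin.cons_zero, Fin.cons_succ] at hr
          exact hx1.2 i hr
        · intro hne hr
          rw [Fin.cons_succ, Fin.cons_succ] at hr
          exact hg3 i j (fun h => hne (by rw [h])) hr

/-- the coordinate in which the Mobius map is linear -/
noncomputable def ze (a r z : ℂ) : ℂ := (z - a) / (z - r)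

theorem ze_fib (a r : ℂ) (har : a ≠ r) (c : ℂ) : {w | ze a r w = c}.Countable := by
  apply Set.Countable.mono (s₂ := {r, (a - c * r) / (1 - c)})
  · intro w hw
    by_cases hwr : w = r
    · left; exact hwr
    · right
      have h1 : w - r ≠ 0 := sub_ne_zero.2 hwr
      have h2 : w - a = c * (w - r) := by
        have : ze a r w = c := hw
        rw [← this]; unfold ze; field_simp
      have h3 : (1 : ℂ) - c ≠ 0 := by
        intro h4
        have h5 : c = 1 := by linear_combination -h4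
        rw [h5] at h2
        apply har
        linear_combination -h2
      show w = (a - c * r) / (1 - c)
      rw [eq_div_iff h3]
      linear_combination h2
  · exact (Set.finite_singleton _).insert _ |>.countable

/-- the orbit of a point -/
theorem orbit_ex {a r l1 l2 g h : ℂ} (h1 : l1 ≠ 0) (hρ : g * (r - a) = l2 - l1)
    (har : r ≠ a) (hlt : ‖l2‖ < ‖l1‖) (hhr : h ≠ r)
    (hne : ∀ n : ℕ, (l2 / l1) ^ n * ze a r h ≠ 1) :
    ∃ x : ℕ → ℂ, x 0 = h ∧ (∀ i, g * x i + (l1 - g * a) ≠ 0) ∧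
      (∀ i, ((l2 + g * a) * x i + (-g * a ^ 2 + (l1 - l2) * a)) / (g * x i + (l1 - g * a))
        = x (i + 1)) ∧
      (∀ i, ze a r (x i) = (l2 / l1) ^ i * ze a r h) ∧ Tendsto x atTop (𝓝 a) := by
  set κ := l2 / l1 with hκ
  set ζ := ze a r h with hζ
  have hκl : l2 = κ * l1 := by rw [hκ]; field_simp
  have hκ1 : ‖κ‖ < 1 := by
    rw [hκ, norm_div, div_lt_one (norm_pos_iff.2 h1)]; exact hlt
  have hsub : ∀ n : ℕ, κ ^ n * ζ - 1 ≠ 0 := fun n => sub_ne_zero.2 (hne n)
  have hra : r - a ≠ 0 := sub_ne_zero.2 har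
  refine ⟨fun n => a + κ ^ n * ζ * (r - a) / (κ ^ n * ζ - 1), ?_, ?_, ?_, ?_, ?_⟩
  · simp only [pow_zero, one_mul]
    have h2 : h - r ≠ 0 := sub_ne_zero.2 hhr
    have h3 : ζ - 1 = (r - a) / (h - r) := by
      rw [hζ]; unfold ze; field_simp; ring
    rw [h3, hζ]
    unfold ze
    field_simp
    ring
  · intro i
    have h2 : g * (a + κ ^ i * ζ * (r - a) / (κ ^ i * ζ - 1)) + (l1 - g * a)
        = l1 * (κ ^ (i + 1) * ζ - 1) / (κ ^ i * ζ - 1) := by
      rw [eq_div_iff (hsub i)]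
      have h3 : g * (κ ^ i * ζ * (r - a) / (κ ^ i * ζ - 1)) * (κ ^ i * ζ - 1)
          = κ ^ i * ζ * (l2 - l1) := by
        rw [← hρ]
        field_simp [hsub i]
      have h4 : (g * (a + κ ^ i * ζ * (r - a) / (κ ^ i * ζ - 1)) + (l1 - g * a)) * (κ ^ i * ζ - 1)
          = g * (κ ^ i * ζ * (r - a) / (κ ^ i * ζ - 1)) * (κ ^ i * ζ - 1) + l1 * (κ ^ i * ζ - 1) := by
        ring
      rw [h4, h3, hκl, pow_succ]
      ring
    show g * (a + κ ^ i * ζ * (r - a) / (κ ^ i * ζ - 1)) + (l1 - g * a) ≠ 0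
    rw [h2]
    exact div_ne_zero (mul_ne_zero h1 (hsub (i + 1))) (hsub i)
  · intro i
    have h2 : g * (a + κ ^ i * ζ * (r - a) / (κ ^ i * ζ - 1)) + (l1 - g * a)
        = l1 * (κ ^ (i + 1) * ζ - 1) / (κ ^ i * ζ - 1) := by
      rw [eq_div_iff (hsub i)]
      have h3 : g * (κ ^ i * ζ * (r - a) / (κ ^ i * ζ - 1)) * (κ ^ i * ζ - 1)
          = κ ^ i * ζ * (l2 - l1) := by
        rw [← hρ]
        field_simp [hsub i]
      have h4 : (g * (a + κ ^ i * ζ * (r - a) / (κ ^ i * ζ - 1)) + (l1 - g * a)) * (κ ^ i * ζ - 1)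
          = g * (κ ^ i * ζ * (r - a) / (κ ^ i * ζ - 1)) * (κ ^ i * ζ - 1) + l1 * (κ ^ i * ζ - 1) := by
        ring
      rw [h4, h3, hκl, pow_succ]
      ring
    have h5 : (l2 + g * a) * (a + κ ^ i * ζ * (r - a) / (κ ^ i * ζ - 1))
          + (-g * a ^ 2 + (l1 - l2) * a)
        = a * (g * (a + κ ^ i * ζ * (r - a) / (κ ^ i * ζ - 1)) + (l1 - g * a))
          + l2 * (κ ^ i * ζ * (r - a) / (κ ^ i * ζ - 1)) := by ring
    show ((l2 + g * a) * (a + κ ^ i * ζ * (r - a) / (κ ^ i * ζ - 1))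
          + (-g * a ^ 2 + (l1 - l2) * a)) /
          (g * (a + κ ^ i * ζ * (r - a) / (κ ^ i * ζ - 1)) + (l1 - g * a))
        = a + κ ^ (i + 1) * ζ * (r - a) / (κ ^ (i + 1) * ζ - 1)
    have h6 : g * (a + κ ^ i * ζ * (r - a) / (κ ^ i * ζ - 1)) + (l1 - g * a) ≠ 0 := by
      rw [h2]
      exact div_ne_zero (mul_ne_zero h1 (hsub (i + 1))) (hsub i)
    rw [h5, add_div, mul_div_assoc, div_self h6, mul_one, h2]
    congr 1
    have h7 := hsub i
    have h8 := hsub (i + 1)
    rw [hκl]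
    rw [div_eq_div_iff (div_ne_zero (mul_ne_zero h1 h8) h7) h8]
    field_simp
    ring
  · intro i
    show ze a r (a + κ ^ i * ζ * (r - a) / (κ ^ i * ζ - 1)) = κ ^ i * ζ
    have h7 := hsub i
    unfold ze
    have h8 : a + κ ^ i * ζ * (r - a) / (κ ^ i * ζ - 1) - r = (r - a) / (κ ^ i * ζ - 1) := by
      field_simp
      ring
    rw [h8]
    field_simp
    ring
  · have h2 : Tendsto (fun n : ℕ => κ ^ n * ζ) atTop (𝓝 (0 * ζ)) :=
      (tendsto_pow_atTop_nhds_zero_of_norm_lt_one hκ1).mul_const ζ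
    rw [zero_mul] at h2
    have h3 : Tendsto (fun n : ℕ => a + κ ^ n * ζ * (r - a) / (κ ^ n * ζ - 1)) atTop
        (𝓝 (a + 0 * (r - a) / (0 - 1))) := by
      apply Tendsto.const_add
      apply Tendsto.div (h2.mul_const _) (h2.sub_const 1)
      norm_num
    simpa using h3

/-- Mobius data in normal form, with generic roots -/
theorem mobdata_of_generic {a l1 l2 g : ℂ} (hg : g ≠ 0) (h1 : l1 ≠ 0) (h2 : l2 ≠ 0)
    (hlt : ‖l2‖ < ‖l1‖) {k : ℕ} {h : Fin k → ℂ} {l : ℂ} (hl : l ≠ 0)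
    (hr : ∀ i, h i ≠ a + (l2 - l1) / g) (ha : ∀ i, h i ≠ a)
    (hne : ∀ i, ∀ n : ℕ, (l2 / l1) ^ n * ze a (a + (l2 - l1) / g) (h i) ≠ 1)
    (hR : ∀ i j, i ≠ j → ∀ n : ℕ, (l2 / l1) ^ n * ze a (a + (l2 - l1) / g) (h i) ≠
      ze a (a + (l2 - l1) / g) (h j)) :
    MobData (l2 + g * a) (-g * a ^ 2 + (l1 - l2) * a) g (l1 - g * a) a
      (C l * ∏ i, (X - C (h i))) := by
  set r := a + (l2 - l1) / g with hrdef
  have hgr : g * (r - a) = l2 - l1 := by rw [hrdef]; field_simp; ring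
  have hll : l2 - l1 ≠ 0 := by
    intro h3
    rw [sub_eq_zero.1 h3] at hlt
    exact lt_irrefl _ hlt
  have hra : r ≠ a := by
    intro h3
    rw [h3, sub_self, mul_zero] at hgr
    exact hll hgr.symm
  have heval : ∀ z, (C l * ∏ i, (X - C (h i))).eval z = l * ∏ i, (z - h i) := by
    intro z
    rw [eval_mul, eval_C, eval_prod]
    simp
  have hroot : ∀ z, (C l * ∏ i, (X - C (h i))).eval z = 0 → ∃ i, z = h i := by
    intro z hz
    rw [heval] at hz
    rcases mul_eq_zero.1 hz with h3 | h3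
    · exact absurd h3 hl
    · obtain ⟨i, -, hi⟩ := Finset.prod_eq_zero_iff.1 h3
      exact ⟨i, sub_eq_zero.1 hi⟩
  have hκ1 : ‖l2 / l1‖ < 1 := by
    rw [norm_div, div_lt_one (norm_pos_iff.2 h1)]; exact hlt
  have hinj : Function.Injective h := by
    intro i j hij
    by_contra hne'
    apply hR i j hne' 0
    rw [pow_zero, one_mul, hij]
  constructor
  · have : (l2 + g * a) * (l1 - g * a) - (-g * a ^ 2 + (l1 - l2) * a) * g = l1 * l2 := by ring
    rw [this]; exact mul_ne_zero h1 h2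
  · have : g * a + (l1 - g * a) = l1 := by ring
    rw [this]; exact h1
  · ring
  · have e1 : (l2 + g * a) * (l1 - g * a) - (-g * a ^ 2 + (l1 - l2) * a) * g = l2 * l1 := by ring
    have e2 : g * a + (l1 - g * a) = l1 := by ring
    rw [e1, e2, norm_mul, sq]
    exact mul_lt_mul_of_pos_right hlt (norm_pos_iff.2 h1)
  · intro z hz
    have hsep : (∏ i, (X - C (h i))).Separable := separable_prod_X_sub_C_iff.2 hinj
    have hz2 : (∏ i, (X - C (h i))).eval z = 0 := by
      rw [eval_mul, eval_C] at hz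
      rcases mul_eq_zero.1 hz with h3 | h3
      · exact absurd h3 hl
      · exact h3
    rw [derivative_C_mul, eval_mul, eval_C]
    apply mul_ne_zero hl
    rcases coprime_eval hsep z with h3 | h3
    · exact absurd hz2 h3
    · exact h3
  · intro hz
    obtain ⟨i, hi⟩ := hroot _ hz
    exact ha i hi.symm
  · intro z hz
    obtain ⟨i, rfl⟩ := hroot _ hz
    obtain ⟨x, hx0, hx1, hx2, hx3, hx4⟩ := orbit_ex h1 hgr hra hlt (hr i) (hne i)
    refine ⟨x, hx0, hx1, hx2, ?_, hx4⟩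
    intro n hn
    obtain ⟨j, hj⟩ := hroot _ hn
    have h3 := hx3 (n + 1)
    rw [hj] at h3
    by_cases hij : i = j
    · subst hij
      have hz0 : ze a r (h i) ≠ 0 := by
        unfold ze
        exact div_ne_zero (sub_ne_zero.2 (ha i)) (sub_ne_zero.2 (hr i))
      have h4 : (l2 / l1) ^ (n + 1) = 1 := by
        have : (1 : ℂ) * ze a r (h i) = (l2 / l1) ^ (n + 1) * ze a r (h i) := by rw [one_mul]; exact h3
        exact (mul_right_cancel₀ hz0 this).symm
      have h5 : ‖(l2 / l1) ^ (n + 1)‖ < 1 := by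
        rw [norm_pow]
        exact pow_lt_one₀ (norm_nonneg _) hκ1 (Nat.succ_ne_zero n)
      rw [h4, norm_one] at h5
      exact lt_irrefl _ h5
    · exact hR i j hij (n + 1) h3.symm

/-- generic roots near given ones -/
theorem generic_roots {a l1 l2 g : ℂ} (hg : g ≠ 0) (h1 : l1 ≠ 0) (h2 : l2 ≠ 0)
    (hlt : ‖l2‖ < ‖l1‖) {k : ℕ} (h : Fin k → ℂ) {l : ℂ} (hl : l ≠ 0) {ε : ℝ} (hε : 0 < ε) :
    ∃ h' : Fin k → ℂ, (∀ i, ‖h' i - h i‖ < ε) ∧
      MobData (l2 + g * a) (-g * a ^ 2 + (l1 - l2) * a) g (l1 - g * a) a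
        (C l * ∏ i, (X - C (h' i))) := by
  set r := a + (l2 - l1) / g with hrdef
  have hgr : g * (r - a) = l2 - l1 := by rw [hrdef]; field_simp; ring
  have hll : l2 - l1 ≠ 0 := by
    intro h3
    rw [sub_eq_zero.1 h3] at hlt
    exact lt_irrefl _ hlt
  have hra : a ≠ r := by
    intro h3
    rw [← h3, sub_self, mul_zero] at hgr
    exact hll hgr.symm
  have hκ0 : l2 / l1 ≠ 0 := div_ne_zero h2 h1
  set κ := l2 / l1 with hκ
  set B : Set ℂ := {r, a} ∪ ⋃ n : ℕ, {w | ze a r w = (κ ^ n)⁻¹} with hB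
  have hBc : B.Countable := by
    apply Set.Countable.union
    · exact ((Set.finite_singleton a).insert r).countable
    · exact Set.countable_iUnion fun n => ze_fib a r hra _
  set R : ℂ → ℂ → Prop := fun z w => ∃ n : ℕ, κ ^ n * ze a r z = ze a r w ∨
    κ ^ n * ze a r w = ze a r z with hRdef
  have hRc : ∀ z, {w | R z w}.Countable := by
    intro z
    have : {w | R z w} ⊆ (⋃ n : ℕ, {w | ze a r w = κ ^ n * ze a r z}) ∪
        ⋃ n : ℕ, {w | ze a r w = (κ ^ n)⁻¹ * ze a r z} := by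
      rintro w ⟨n, hn | hn⟩
      · left
        exact Set.mem_iUnion.2 ⟨n, hn.symm⟩
      · right
        refine Set.mem_iUnion.2 ⟨n, ?_⟩
        show ze a r w = (κ ^ n)⁻¹ * ze a r z
        rw [← hn]
        have := pow_ne_zero n hκ0
        field_simp
    exact ((Set.countable_iUnion fun n => ze_fib a r hra _).union
      (Set.countable_iUnion fun n => ze_fib a r hra _)).mono this
  have hsym : ∀ z w, R z w → R w z := by
    rintro z w ⟨n, hn | hn⟩
    · exact ⟨n, Or.inr hn⟩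
    · exact ⟨n, Or.inl hn⟩
  obtain ⟨h', hh1, hh2, hh3⟩ := generic_pts B hBc R hRc hsym k h ε hε
  refine ⟨h', hh1, ?_⟩
  apply mobdata_of_generic hg h1 h2 hlt hl
  · intro i hi
    exact hh2 i (Or.inl (Or.inl hi))
  · intro i hi
    exact hh2 i (Or.inl (Or.inr hi))
  · intro i n hn
    apply hh2 i
    right
    refine Set.mem_iUnion.2 ⟨n, ?_⟩
    show ze a r (h' i) = (κ ^ n)⁻¹
    have := pow_ne_zero n hκ0
    field_simp
    linear_combination hn
  · intro i j hij n hn
    exact hh3 i j hij ⟨n, Or.inl hn⟩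

end Pool.Agent.H44.Fatou
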