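import Mathlib
import Pool.Agent.H44.Fatou.Gen

set_option autoImplicit false

open Filter Topology Polynomial OnePoint Metric

namespace Pool.Agent.H44.Fatou

/-- perturbation of two numbers to nonzero numbers of distinct modulus -/
theorem pert_two (l1 l2 : ℂ) (hle : ‖l2‖ ≤ ‖l1‖) {ε : ℝ} (hε : 0 < ε) :
    ∃ m1 m2 : ℂ, ‖m1 - l1‖ < ε ∧ ‖m2 - l2‖ < ε ∧ m1 ≠ 0 ∧ m2 ≠ 0 ∧ ‖m2‖ < ‖m1‖ := by
  -- enlarge l1
  obtain ⟨m1, h1, h2⟩ : ∃ m1 : ℂ, ‖m1 - l1‖ < ε ∧ ‖l1‖ < ‖m1‖ := by
    by_cases h0 : l1 = 0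
    · refine ⟨((ε / 2 : ℝ) : ℂ), ?_, ?_⟩
      · rw [h0, sub_zero, Complex.norm_real, Real.norm_eq_abs, abs_of_pos (by positivity)]
        linarith
      · rw [h0, norm_zero, Complex.norm_real, Real.norm_eq_abs, abs_of_pos (by positivity)]
        positivity
    · have hn : 0 < ‖l1‖ := norm_pos_iff.2 h0
      refine ⟨l1 * ((1 + ε / (2 * ‖l1‖) : ℝ) : ℂ), ?_, ?_⟩
      · have : l1 * ((1 + ε / (2 * ‖l1‖) : ℝ) : ℂ) - l1 = l1 * ((ε / (2 * ‖l1‖) : ℝ) : ℂ) := by
          push_cast; ring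
        rw [this, norm_mul, Complex.norm_real, Real.norm_eq_abs, abs_of_pos (by positivity)]
        have : ‖l1‖ * (ε / (2 * ‖l1‖)) = ε / 2 := by field_simp
        rw [this]; linarith
      · rw [norm_mul, Complex.norm_real, Real.norm_eq_abs, abs_of_pos (by positivity)]
        have : ‖l1‖ * (1 + ε / (2 * ‖l1‖)) = ‖l1‖ + ε / 2 := by field_simp
        rw [this]; linarith
  have hm1 : m1 ≠ 0 := by
    intro h0
    rw [h0, norm_zero] at h2
    exact absurd h2 (not_lt.2 (norm_nonneg _))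
  by_cases h0 : l2 = 0
  · set t := min (ε / 2) (‖m1‖ / 2) with ht
    have htpos : 0 < t := lt_min (by positivity) (by have := norm_pos_iff.2 hm1; positivity)
    refine ⟨m1, (t : ℂ), h1, ?_, hm1, ?_, ?_⟩
    · rw [h0, sub_zero, Complex.norm_real, Real.norm_eq_abs, abs_of_pos htpos]
      have := min_le_left (ε / 2) (‖m1‖ / 2)
      linarith
    · exact_mod_cast htpos.ne'
    · rw [Complex.norm_real, Real.norm_eq_abs, abs_of_pos htpos]
      have := min_le_right (ε / 2) (‖m1‖ / 2)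
      have := norm_pos_iff.2 hm1
      linarith
  · exact ⟨m1, l2, h1, by rw [sub_self, norm_zero]; exact hε, hm1, h0, lt_of_le_of_lt hle h2⟩

/-- normal form near an arbitrary matrix -/
theorem pert_mob (α β γ δ : ℂ) {ε : ℝ} (hε : 0 < ε) :
    ∃ a l1 l2 g : ℂ, g ≠ 0 ∧ l1 ≠ 0 ∧ l2 ≠ 0 ∧ ‖l2‖ < ‖l1‖ ∧ ‖(l2 + g * a) - α‖ < ε ∧
      ‖(-g * a ^ 2 + (l1 - l2) * a) - β‖ < ε ∧ ‖g - γ‖ < ε ∧ ‖(l1 - g * a) - δ‖ < ε := by
  -- nonzero g
  obtain ⟨g, hg0, hg⟩ : ∃ g : ℂ, g ≠ 0 ∧ ‖g - γ‖ < ε := by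
    by_cases h0 : γ = 0
    · refine ⟨((ε / 2 : ℝ) : ℂ), ?_, ?_⟩
      · have : (ε / 2 : ℝ) ≠ 0 := by positivity
        exact_mod_cast this
      · rw [h0, sub_zero, Complex.norm_real, Real.norm_eq_abs, abs_of_pos (by positivity)]
        linarith
    · exact ⟨γ, h0, by rw [sub_self, norm_zero]; exact hε⟩
  -- fixed point with the larger eigenvalue
  obtain ⟨a, ha, hle⟩ : ∃ a : ℂ, g * a ^ 2 + (δ - α) * a - β = 0 ∧ ‖α + δ - (g * a + δ)‖ ≤ ‖g * a + δ‖ := by
    obtain ⟨z, hz⟩ : ∃ z : ℂ, g * z ^ 2 + (δ - α) * z - β = 0 := by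
      have hdeg : (C g * X ^ 2 + C (δ - α) * X + C (-β)).degree ≠ 0 := by
        rw [degree_quadratic hg0]; norm_num
      obtain ⟨z, hz⟩ := IsAlgClosed.exists_root _ hdeg
      refine ⟨z, ?_⟩
      have h1 : (C g * X ^ 2 + C (δ - α) * X + C (-β)).eval z = 0 := hz
      simp only [eval_add, eval_mul, eval_C, eval_pow, eval_X] at h1
      linear_combination h1
    by_cases hle : ‖α + δ - (g * z + δ)‖ ≤ ‖g * z + δ‖
    · exact ⟨z, hz, hle⟩
    · push Not at hle
      refine ⟨z + (α + δ - (g * z + δ) - (g * z + δ)) / g, ?_, ?_⟩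
      · field_simp
        linear_combination g * hz
      · have e1 : g * (z + (α + δ - (g * z + δ) - (g * z + δ)) / g) + δ = α + δ - (g * z + δ) := by
          field_simp; ring
        rw [e1]
        have e2 : α + δ - (α + δ - (g * z + δ)) = g * z + δ := by ring
        rw [e2]
        exact hle.le
  obtain ⟨m1, m2, h1, h2, h3, h4, h5⟩ := pert_two (g * a + δ) (α + δ - (g * a + δ)) hle
    (ε := ε / (2 * (1 + ‖a‖))) (by positivity)
  have hb : ε / (2 * (1 + ‖a‖)) ≤ ε / 2 := by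
    apply div_le_div_of_nonneg_left hε.le (by norm_num)
    have := norm_nonneg a
    linarith
  refine ⟨a, m1, m2, g, hg0, h3, h4, h5, ?_, ?_, hg, ?_⟩
  · have : m2 + g * a - α = m2 - (α + δ - (g * a + δ)) := by ring
    rw [this]
    linarith
  · have : -g * a ^ 2 + (m1 - m2) * a - β
        = ((m1 - (g * a + δ)) - (m2 - (α + δ - (g * a + δ)))) * a := by
      linear_combination ha
    rw [this, norm_mul]
    have h6 : ‖(m1 - (g * a + δ)) - (m2 - (α + δ - (g * a + δ)))‖ ≤ 2 * (ε / (2 * (1 + ‖a‖))) := by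
      refine (norm_sub_le _ _).trans ?_
      linarith
    calc _ ≤ 2 * (ε / (2 * (1 + ‖a‖))) * ‖a‖ := by gcongr
      _ = ε * (‖a‖ / (1 + ‖a‖)) := by field_simp
      _ < ε * 1 := by
          apply mul_lt_mul_of_pos_left _ hε
          rw [div_lt_one (by positivity)]
          linarith
      _ = ε := mul_one _
  · have : m1 - g * a - δ = m1 - (g * a + δ) := by ring
    rw [this]
    linarith

/-- coefficientwise continuity -/
def ContC {T : Type*} [TopologicalSpace T] (f : T → Polynomial ℂ) : Prop :=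
  ∀ i, Continuous (fun t => (f t).coeff i)

theorem ContC.mul {T : Type*} [TopologicalSpace T] {f g : T → Polynomial ℂ} (hf : ContC f)
    (hg : ContC g) : ContC (fun t => f t * g t) := by
  intro i
  simp only [coeff_mul]
  apply continuous_finsetSum
  intro p _
  exact (hf _).mul (hg _)

theorem ContC.add {T : Type*} [TopologicalSpace T] {f g : T → Polynomial ℂ} (hf : ContC f)
    (hg : ContC g) : ContC (fun t => f t + g t) := by
  intro i
  simp only [coeff_add]
  exact (hf _).add (hg _)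

theorem ContC.sub {T : Type*} [TopologicalSpace T] {f g : T → Polynomial ℂ} (hf : ContC f)
    (hg : ContC g) : ContC (fun t => f t - g t) := by
  intro i
  simp only [coeff_sub]
  exact (hf _).sub (hg _)

theorem ContC.const {T : Type*} [TopologicalSpace T] (p : Polynomial ℂ) :
    ContC (fun _ : T => p) := fun _ => continuous_const

theorem ContC.C {T : Type*} [TopologicalSpace T] {f : T → ℂ} (hf : Continuous f) :
    ContC (fun t => Polynomial.C (f t)) := by
  intro i
  simp only [coeff_C]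
  by_cases h : i = 0
  · simp only [h, if_true]; exact hf
  · simp only [h, if_false]; exact continuous_const

theorem ContC.prod {T ι : Type*} [TopologicalSpace T] (s : Finset ι) {f : ι → T → Polynomial ℂ}
    (hf : ∀ i, ContC (f i)) : ContC (fun t => ∏ i ∈ s, f i t) := by
  classical
  induction s using Finset.induction_on with
  | empty => simpa using ContC.const 1
  | insert a s ha ih =>
    simp only [Finset.prod_insert ha]
    exact (hf a).mul ih

/-- uniform closeness of coefficients -/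
theorem ContC.near {T : Type*} [TopologicalSpace T] {f : T → Polynomial ℂ} (hf : ContC f)
    {d : ℕ} (hd : ∀ t, (f t).natDegree ≤ d) (t0 : T) {ε : ℝ} (hε : 0 < ε) :
    ∀ᶠ t in 𝓝 t0, ∀ i, ‖(f t).coeff i - (f t0).coeff i‖ < ε := by
  have h1 : ∀ i : Fin (d + 1), ∀ᶠ t in 𝓝 t0, ‖(f t).coeff i - (f t0).coeff i‖ < ε := by
    intro i
    have h2 : Tendsto (fun t => (f t).coeff i - (f t0).coeff i) (𝓝 t0) (𝓝 0) := by
      have h3 : Continuous (fun t => (f t).coeff i - (f t0).coeff i) :=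
        (hf i).sub continuous_const
      have h4 := h3.tendsto t0
      simpa using h4
    have h4 := h2.norm
    rw [norm_zero] at h4
    exact h4.eventually (gt_mem_nhds hε)
  have h5 := eventually_all.2 h1
  filter_upwards [h5] with t ht i
  by_cases hi : i ≤ d
  · exact ht ⟨i, by omega⟩
  · rw [coeff_eq_zero_of_natDegree_lt (lt_of_le_of_lt (hd t) (by omega)),
      coeff_eq_zero_of_natDegree_lt (lt_of_le_of_lt (hd t0) (by omega)), sub_self, norm_zero]
    exact hε

/-- enumeration of roots -/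
theorem exists_roots : ∀ (k : ℕ) (H : Polynomial ℂ), H ≠ 0 → H.natDegree = k →
    ∃ (l : ℂ) (h : Fin k → ℂ), l ≠ 0 ∧ H = C l * ∏ i, (X - C (h i)) := by
  intro k
  induction k with
  | zero =>
    intro H hH hk
    refine ⟨H.coeff 0, fun i => i.elim0, ?_, ?_⟩
    · rw [eq_C_of_natDegree_eq_zero hk] at hH
      intro h0
      rw [h0, C_0] at hH
      exact hH rfl
    · simpa using eq_C_of_natDegree_eq_zero hk
  | succ k ih =>
    intro H hH hk
    have hdeg : H.degree ≠ 0 := by
      rw [degree_eq_natDegree hH, hk]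
      exact_mod_cast Nat.succ_ne_zero k
    obtain ⟨z, hz⟩ := IsAlgClosed.exists_root H hdeg
    obtain ⟨G, hG⟩ := dvd_iff_isRoot.2 hz
    have hG0 : G ≠ 0 := by
      rintro rfl
      rw [mul_zero] at hG
      exact hH hG
    have hGk : G.natDegree = k := by
      have h1 : H.natDegree = 1 + G.natDegree := by
        rw [hG, natDegree_mul (X_sub_C_ne_zero z) hG0, natDegree_X_sub_C]
      omega
    obtain ⟨l, h, hl, hGe⟩ := ih G hG0 hGk
    refine ⟨l, Fin.cons z h, hl, ?_⟩
    rw [Fin.prod_univ_succ, Fin.cons_zero]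
    simp only [Fin.cons_succ]
    rw [hG]
    nth_rewrite 1 [hGe]
    ring

end Pool.Agent.H44.Fatou
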