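import Mathlib
import Pool.Agent.H44.Fatou.Gen2

set_option autoImplicit false

open Filter Topology Polynomial OnePoint Metric

namespace Pool.Agent.H44.Fatou

theorem natDegree_roots {k : ℕ} {l : ℂ} (hl : l ≠ 0) (h : Fin k → ℂ) :
    (C l * ∏ i, (X - C (h i))).natDegree = k := by
  rw [natDegree_C_mul hl, natDegree_prod_of_monic _ _ (fun i _ => monic_X_sub_C (h i))]
  simp

/-- perturbing the common factor to full degree -/
theorem pert_deg (A C' H : Polynomial ℂ) {k : ℕ} (hH : H.natDegree ≤ k) {ε : ℝ} (hε : 0 < ε)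
    (hA : A.natDegree ≤ 1) (hC : C'.natDegree ≤ 1) :
    ∃ H1 : Polynomial ℂ, H1 ≠ 0 ∧ H1.natDegree = k ∧
      (∀ i, ‖(A * H1).coeff i - (A * H).coeff i‖ < ε) ∧
      (∀ i, ‖(C' * H1).coeff i - (C' * H).coeff i‖ < ε) := by
  by_cases hk : H.coeff k = 0
  · have hcont : ∀ B : Polynomial ℂ, ContC (fun t : ℂ => B * (H + C t * X ^ k)) := by
      intro B
      exact (ContC.const B).mul ((ContC.const H).add ((ContC.C continuous_id).mul (ContC.const _)))
    have hdeg : ∀ B : Polynomial ℂ, B.natDegree ≤ 1 → ∀ t : ℂ,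
        (B * (H + C t * X ^ k)).natDegree ≤ k + 1 := by
      intro B hB t
      refine natDegree_mul_le.trans ?_
      have h1 : (H + C t * X ^ k).natDegree ≤ k := by
        apply (natDegree_add_le _ _).trans
        apply max_le hH
        exact natDegree_C_mul_X_pow_le _ _
      omega
    have e1 := (hcont A).near (hdeg A hA) 0 hε
    have e2 := (hcont C').near (hdeg C' hC) 0 hε
    obtain ⟨η, hη, hball⟩ := Metric.eventually_nhds_iff_ball.1 (e1.and e2)
    have ht : ((η / 2 : ℝ) : ℂ) ∈ ball (0 : ℂ) η := by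
      rw [mem_ball_zero_iff, Complex.norm_real, Real.norm_eq_abs, abs_of_pos (by positivity)]
      linarith
    have ht0 : ((η / 2 : ℝ) : ℂ) ≠ 0 := by
      have : (η / 2 : ℝ) ≠ 0 := by positivity
      exact_mod_cast this
    have h3 := hball _ ht
    have hco : (H + C ((η / 2 : ℝ) : ℂ) * X ^ k).coeff k = ((η / 2 : ℝ) : ℂ) := by
      rw [coeff_add, hk, zero_add, coeff_C_mul, coeff_X_pow_self, mul_one]
    refine ⟨H + C ((η / 2 : ℝ) : ℂ) * X ^ k, ?_, ?_, ?_, ?_⟩
    · intro h0
      rw [h0, coeff_zero] at hco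
      exact ht0 hco.symm
    · apply le_antisymm
      · apply (natDegree_add_le _ _).trans
        apply max_le hH
        exact natDegree_C_mul_X_pow_le _ _
      · apply le_natDegree_of_ne_zero
        rw [hco]; exact ht0
    · intro i
      have := h3.1 i
      simpa using this
    · intro i
      have := h3.2 i
      simpa using this
  · refine ⟨H, ?_, ?_, ?_, ?_⟩
    · intro h0
      rw [h0, coeff_zero] at hk
      exact hk rfl
    · exact le_antisymm hH (le_natDegree_of_ne_zero hk)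
    · intro i; rw [sub_self, norm_zero]; exact hε
    · intro i; rw [sub_self, norm_zero]; exact hε

/-- coprime pairs near the degenerate pair -/
theorem coprime_near {α β γ δ a : ℂ} {H : Polynomial ℂ} (D : MobData α β γ δ a H) (hγ : γ ≠ 0)
    {η : ℝ} (hη : 0 < η) :
    ∃ P Q : Polynomial ℂ, IsCoprime P Q ∧ max P.natDegree Q.natDegree = H.natDegree + 1 ∧
      (∀ i, ‖P.coeff i - ((C α * X + C β) * H).coeff i‖ < η) ∧
      (∀ i, ‖Q.coeff i - ((C γ * X + C δ) * H).coeff i‖ < η) := by
  have hH : H ≠ 0 := by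
    intro h0
    have := D.Ha
    rw [h0] at this
    simp at this
  set z := -δ / γ with hz
  set s := (α * z + β) * H.eval z with hs
  have hs0 : s ≠ 0 := by
    have hzz : γ * z + δ = 0 := by rw [hz]; field_simp; ring
    apply mul_ne_zero
    · intro h1
      apply D.det
      have : γ * (α * z + β) - α * (γ * z + δ) = -(α * δ - β * γ) := by ring
      rw [h1, hzz, mul_zero, mul_zero, sub_zero] at this
      exact neg_eq_zero.1 this.symm
    · intro h1
      obtain ⟨x, hx0, hx1, -⟩ := D.orb z h1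
      have := hx1 0
      rw [hx0] at this
      exact this hzz
  set t := min (η / 2) (‖s‖ / 2) with ht
  have hspos := norm_pos_iff.2 hs0
  have htpos : 0 < t := lt_min (by positivity) (by positivity)
  have htn : ‖(t : ℂ)‖ = t := by
    rw [Complex.norm_real, Real.norm_eq_abs, abs_of_pos htpos]
  have ht0 : (t : ℂ) ≠ 0 := by exact_mod_cast htpos.ne'
  refine ⟨(C α * X + C β) * H + C (t : ℂ), (C γ * X + C δ) * H, ?_, ?_, ?_, ?_⟩
  · apply IsCoprime.mul_right
    · -- with the linear factor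
      have h1 : (C γ * X + C δ : Polynomial ℂ) = C γ * (X - C z) := by
        rw [mul_sub, ← C_mul, hz]
        have : γ * (-δ / γ) = -δ := by field_simp
        rw [this, C_neg]
        ring
      rw [h1]
      apply IsCoprime.mul_right
      · exact (isCoprime_one_right).of_isCoprime_of_dvd_right
          ((isUnit_C.2 (isUnit_iff_ne_zero.2 hγ)).dvd)
      · apply IsCoprime.symm
        rw [(irreducible_X_sub_C z).coprime_iff_not_dvd, dvd_iff_isRoot]
        intro h2
        have h3 : ((C α * X + C β) * H + C (t : ℂ)).eval z = 0 := h2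
        have h4 : s + t = 0 := by
          simpa [hs] using h3
        have h5 : ‖s‖ = t := by
          rw [← htn, ← norm_neg (t : ℂ)]
          congr 1
          linear_combination h4
        have h6 := min_le_right (η / 2) (‖s‖ / 2)
        linarith
    · refine ⟨C ((t : ℂ)⁻¹), -(C ((t : ℂ)⁻¹) * (C α * X + C β)), ?_⟩
      have h1 : C ((t : ℂ)⁻¹) * C (t : ℂ) = 1 := by
        rw [← C_mul, inv_mul_cancel₀ ht0, C_1]
      linear_combination h1
  · have hQ : ((C γ * X + C δ) * H).natDegree = H.natDegree + 1 := by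
      rw [natDegree_mul _ hH, natDegree_linear hγ]
      · ring
      · intro h0
        have := natDegree_linear (b := δ) hγ
        rw [h0] at this
        simp at this
    have hP : ((C α * X + C β) * H + C (t : ℂ)).natDegree ≤ H.natDegree + 1 := by
      apply (natDegree_add_le _ _).trans
      apply max_le (deg_lin α β H)
      rw [natDegree_C]; omega
    rw [hQ]
    exact max_eq_right hP
  · intro i
    rw [coeff_add, add_sub_cancel_left, coeff_C]
    have h6 := min_le_left (η / 2) (‖s‖ / 2)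
    split_ifs
    · rw [htn]; linarith
    · rw [norm_zero]; exact hη
  · intro i
    rw [sub_self, norm_zero]
    exact hη

/-- main theorem about the stratum of reduced degree at most one -/
theorem boundary_main {k : ℕ} (A B H : Polynomial ℂ) (hA : A.natDegree ≤ 1)
    (hB : B.natDegree ≤ 1) (hH : H.natDegree ≤ k) {ε : ℝ} (hε : 0 < ε) :
    ∃ A' B' H' : Polynomial ℂ, A'.natDegree ≤ 1 ∧ B'.natDegree = 1 ∧ H'.natDegree = k ∧
      (∀ i, ‖(A' * H').coeff i - (A * H).coeff i‖ < ε) ∧
      (∀ i, ‖(B' * H').coeff i - (B * H).coeff i‖ < ε) ∧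
      ∃ ρ : ℝ, 0 < ρ ∧
        (∀ P Q : Polynomial ℂ, IsCoprime P Q → max P.natDegree Q.natDegree = k + 1 →
          (∀ i, ‖P.coeff i - (A' * H').coeff i‖ < ρ) →
          (∀ i, ‖Q.coeff i - (B' * H').coeff i‖ < ρ) → Hyp P Q) ∧
        ∀ η : ℝ, 0 < η → ∃ P Q : Polynomial ℂ, IsCoprime P Q ∧
          max P.natDegree Q.natDegree = k + 1 ∧
          (∀ i, ‖P.coeff i - (A' * H').coeff i‖ < η) ∧
          (∀ i, ‖Q.coeff i - (B' * H').coeff i‖ < η) := by
  obtain ⟨α, β, rfl⟩ := exists_eq_X_add_C_of_natDegree_le_one hA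
  obtain ⟨γ, δ, rfl⟩ := exists_eq_X_add_C_of_natDegree_le_one hB
  obtain ⟨H1, hH1, hH1k, hc1, hc2⟩ := pert_deg _ _ H hH (half_pos hε) hA hB
  obtain ⟨l, h, hl, hHe⟩ := exists_roots k H1 hH1 hH1k
  -- continuity in the parameters
  have hcont : ContC (fun p : (ℂ × ℂ) × (Fin k → ℂ) =>
      (C p.1.1 * X + C p.1.2) * (C l * ∏ i, (X - C (p.2 i)))) := by
    apply ContC.mul
    · apply ContC.add
      · exact (ContC.C (continuous_fst.comp continuous_fst)).mul (ContC.const X)
      · exact ContC.C (continuous_snd.comp continuous_fst)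
    · apply (ContC.const _).mul
      apply ContC.prod
      intro i
      apply (ContC.const X).sub
      exact ContC.C ((continuous_apply i).comp continuous_snd)
  have hdeg : ∀ p : (ℂ × ℂ) × (Fin k → ℂ),
      ((C p.1.1 * X + C p.1.2) * (C l * ∏ i, (X - C (p.2 i)))).natDegree ≤ k + 1 := by
    intro p
    have := deg_lin p.1.1 p.1.2 (C l * ∏ i, (X - C (p.2 i)))
    rwa [natDegree_roots hl] at this
  have e1 := hcont.near hdeg ((α, β), h) (half_pos hε)
  have e2 := hcont.near hdeg ((γ, δ), h) (half_pos hε)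
  obtain ⟨ε1, hε1, hb1⟩ := Metric.eventually_nhds_iff_ball.1 e1
  obtain ⟨ε2, hε2, hb2⟩ := Metric.eventually_nhds_iff_ball.1 e2
  set ε3 := min ε1 ε2 with hε3
  have hε3pos : 0 < ε3 := lt_min hε1 hε2
  obtain ⟨a, l1, l2, g, hg, h1, h2, hlt, hα, hβ, hγ, hδ⟩ := pert_mob α β γ δ hε3pos
  obtain ⟨h', hh1, D⟩ := generic_roots (a := a) hg h1 h2 hlt h hl hε3pos
  have hm1 : (((l2 + g * a, -g * a ^ 2 + (l1 - l2) * a), h') : (ℂ × ℂ) × (Fin k → ℂ)) ∈
      ball (((α, β), h) : (ℂ × ℂ) × (Fin k → ℂ)) ε1 := by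
    rw [mem_ball, Prod.dist_eq, Prod.dist_eq, max_lt_iff, max_lt_iff]
    refine ⟨⟨?_, ?_⟩, ?_⟩
    · rw [dist_eq_norm]; exact lt_of_lt_of_le hα (min_le_left _ _)
    · rw [dist_eq_norm]; exact lt_of_lt_of_le hβ (min_le_left _ _)
    · rw [dist_pi_lt_iff hε1]
      intro i
      rw [dist_eq_norm]; exact lt_of_lt_of_le (hh1 i) (min_le_left _ _)
  have hm2 : (((g, l1 - g * a), h') : (ℂ × ℂ) × (Fin k → ℂ)) ∈
      ball (((γ, δ), h) : (ℂ × ℂ) × (Fin k → ℂ)) ε2 := by
    rw [mem_ball, Prod.dist_eq, Prod.dist_eq, max_lt_iff, max_lt_iff]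
    refine ⟨⟨?_, ?_⟩, ?_⟩
    · rw [dist_eq_norm]; exact lt_of_lt_of_le hγ (min_le_right _ _)
    · rw [dist_eq_norm]; exact lt_of_lt_of_le hδ (min_le_right _ _)
    · rw [dist_pi_lt_iff hε2]
      intro i
      rw [dist_eq_norm]; exact lt_of_lt_of_le (hh1 i) (min_le_right _ _)
  have f1 := hb1 _ hm1
  have f2 := hb2 _ hm2
  simp only at f1 f2
  rw [← hHe] at f1 f2
  obtain ⟨ρ, hρ, hρm⟩ := mob_main D
  have hkk := natDegree_roots hl h'
  refine ⟨_, _, C l * ∏ i, (X - C (h' i)), natDegree_linear_le (a := l2 + g * a)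
    (b := -g * a ^ 2 + (l1 - l2) * a), natDegree_linear (b := l1 - g * a) hg, hkk, ?_, ?_, ρ, hρ, ?_, ?_⟩
  · intro i
    have g1 := f1 i
    have g2 := hc1 i
    calc _ = ‖(((C (l2 + g * a) * X + C (-g * a ^ 2 + (l1 - l2) * a)) *
          (C l * ∏ i, (X - C (h' i)))).coeff i - ((C α * X + C β) * H1).coeff i) +
          (((C α * X + C β) * H1).coeff i - ((C α * X + C β) * H).coeff i)‖ := by
            congr 1; ring
      _ ≤ _ + _ := norm_add_le _ _
      _ < ε := by linarith
  · intro i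
    have g1 := f2 i
    have g2 := hc2 i
    calc _ = ‖(((C g * X + C (l1 - g * a)) *
          (C l * ∏ i, (X - C (h' i)))).coeff i - ((C γ * X + C δ) * H1).coeff i) +
          (((C γ * X + C δ) * H1).coeff i - ((C γ * X + C δ) * H).coeff i)‖ := by
            congr 1; ring
      _ ≤ _ + _ := norm_add_le _ _
      _ < ε := by linarith
  · intro P Q hcop hdeg h3 h4
    rw [hkk] at hρm
    exact hρm P Q hcop hdeg h3 h4
  · intro η hη
    have := coprime_near D hg hη
    rw [hkk] at this
    exact this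

end Pool.Agent.H44.Fatou
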