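import Mathlib
import Pool.Agent.H44.Fatou.Basic

set_option autoImplicit false

open Filter Topology Polynomial OnePoint Metric

namespace Pool.Agent.H44.Fatou

/-- the two standard charts of the sphere -/
noncomputable def ch (i : Bool) (u : ℂ) : OnePoint ℂ := if i then pt 1 u else pt u 1

theorem ch_false (u : ℂ) : ch false u = pt u 1 := rfl
theorem ch_true (u : ℂ) : ch true u = pt 1 u := rfl

theorem ch_false_coe (u : ℂ) : ch false u = (u : OnePoint ℂ) := by
  rw [ch_false]; unfold pt; rw [if_neg one_ne_zero, div_one]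

theorem ch_cont (i : Bool) : Continuous (ch i) := by
  rw [continuous_iff_continuousAt]
  intro u
  cases i
  · exact tendsto_pt tendsto_id tendsto_const_nhds (Or.inr one_ne_zero)
  · exact tendsto_pt tendsto_const_nhds tendsto_id (Or.inl one_ne_zero)

theorem ch_open (i : Bool) (u : ℂ) (V : Set ℂ) (hV : V ∈ 𝓝 u) : ch i '' V ∈ 𝓝 (ch i u) := by
  cases i
  · rw [ch_false_coe, nhds_coe_eq]
    have : ch false '' V = ((↑) : ℂ → OnePoint ℂ) '' V := by
      apply Set.image_congr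
      intro a _
      exact ch_false_coe a
    rw [this]
    exact image_mem_map hV
  · by_cases hu : u = 0
    · subst hu
      have h0 : ch true 0 = ∞ := by rw [ch_true]; unfold pt; rw [if_pos rfl]
      rw [h0, nhds_infty_eq, mem_sup, mem_map, mem_pure]
      refine ⟨?_, ⟨0, mem_of_mem_nhds hV, h0⟩⟩
      rw [coclosedCompact_eq_cocompact, ← Metric.cobounded_eq_cocompact]
      have h1 := (tendsto_inv₀_cobounded' (α := ℂ)).eventually (self_mem_nhdsWithin)
      have h2 := (tendsto_inv₀_cobounded (α := ℂ)).eventually hV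
      filter_upwards [h1, h2] with z hz1 hz2
      refine ⟨z⁻¹, hz2, ?_⟩
      have hz0 : z⁻¹ ≠ 0 := hz1
      rw [ch_true]
      unfold pt
      rw [if_neg hz0, one_div, inv_inv]
    · have h0 : ch true u = ((u⁻¹ : ℂ) : OnePoint ℂ) := by
        rw [ch_true]; unfold pt; rw [if_neg hu, one_div]
      rw [h0, nhds_coe_eq, mem_map]
      have hc : Tendsto (fun z : ℂ => z⁻¹) (𝓝 u⁻¹) (𝓝 u) := by
        have := tendsto_inv₀ (inv_ne_zero hu)
        rwa [inv_inv] at this
      have h1 := hc.eventually hV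
      have h2 : ∀ᶠ z : ℂ in 𝓝 u⁻¹, z ≠ 0 := eventually_ne_nhds (inv_ne_zero hu)
      filter_upwards [h1, h2] with z hz1 hz2
      refine ⟨z⁻¹, hz1, ?_⟩
      rw [ch_true]
      unfold pt
      rw [if_neg (inv_ne_zero hz2), one_div, inv_inv]

/-- trap in a chart -/
theorem trapC {φ : ℂ → OnePoint ℂ} (hφ : Continuous φ)
    (hφo : ∀ u, ∀ V ∈ 𝓝 u, φ '' V ∈ 𝓝 (φ u)) {f : OnePoint ℂ → OnePoint ℂ} {F : ℂ → ℂ} {r q : ℝ}
    (hr : 0 < r) (hq0 : 0 ≤ q) (hq : q < 1) (hfF : ∀ z ∈ closedBall (0 : ℂ) r, f (φ z) = φ (F z))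
    (hmaps : ∀ z ∈ closedBall (0 : ℂ) r, F z ∈ ball (0 : ℂ) r)
    (hlip : ∀ z ∈ closedBall (0 : ℂ) r, ∀ w ∈ closedBall (0 : ℂ) r, ‖F z - F w‖ ≤ q * ‖z - w‖) :
    ∃ y ∈ closedBall (0 : ℂ) r, f (φ y) = φ y ∧
      (∃ U ∈ 𝓝 (φ y), ∀ w ∈ U, Tendsto (fun k : ℕ => f^[k] w) atTop (𝓝 (φ y))) ∧
      ∀ w ∈ closedBall (0 : ℂ) r, Tendsto (fun k : ℕ => f^[k] (φ w)) atTop (𝓝 (φ y)) := by
  have hmaps' : Set.MapsTo F (closedBall (0 : ℂ) r) (closedBall (0 : ℂ) r) :=
    fun z hz => ball_subset_closedBall (hmaps z hz)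
  have hcontr : ContractingWith ⟨q, hq0⟩ (hmaps'.restrict F _ _) := by
    refine ⟨by exact_mod_cast hq, ?_⟩
    apply LipschitzWith.of_dist_le_mul
    intro x y
    rw [Subtype.dist_eq, Subtype.dist_eq, dist_eq_norm, dist_eq_norm]
    exact hlip x x.2 y y.2
  have hcomplete : IsComplete (closedBall (0 : ℂ) r) := isClosed_closedBall.isComplete
  obtain ⟨y, hy, hfix, -, -⟩ := hcontr.exists_fixedPoint' hcomplete hmaps'
    (mem_closedBall_self hr.le) (edist_ne_top _ _)
  have hfixF : F y = y := hfix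
  have hiter : ∀ k : ℕ, ∀ w ∈ closedBall (0 : ℂ) r, F^[k] w ∈ closedBall (0 : ℂ) r := by
    intro k w hw
    exact hmaps'.iterate k hw
  have hfiter : ∀ k : ℕ, ∀ w ∈ closedBall (0 : ℂ) r, f^[k] (φ w) = φ (F^[k] w) := by
    intro k
    induction k with
    | zero => intro w _; rfl
    | succ k ih =>
      intro w hw
      rw [Function.iterate_succ_apply', ih w hw, hfF _ (hiter k w hw),
        Function.iterate_succ_apply']
  have hgeo : ∀ k : ℕ, ∀ w ∈ closedBall (0 : ℂ) r, ‖F^[k] w - y‖ ≤ q ^ k * ‖w - y‖ := by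
    intro k
    induction k with
    | zero => intro w _; simp
    | succ k ih =>
      intro w hw
      rw [Function.iterate_succ_apply']
      calc ‖F (F^[k] w) - y‖ = ‖F (F^[k] w) - F y‖ := by rw [hfixF]
        _ ≤ q * ‖F^[k] w - y‖ := hlip _ (hiter k w hw) _ hy
        _ ≤ q * (q ^ k * ‖w - y‖) := by gcongr; exact ih w hw
        _ = q ^ (k + 1) * ‖w - y‖ := by ring
  have htend : ∀ w ∈ closedBall (0 : ℂ) r,
      Tendsto (fun k : ℕ => f^[k] (φ w)) atTop (𝓝 (φ y)) := by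
    intro w hw
    have h1 : Tendsto (fun k : ℕ => F^[k] w) atTop (𝓝 y) := by
      rw [tendsto_iff_norm_sub_tendsto_zero]
      apply squeeze_zero (fun k => norm_nonneg _) (fun k => hgeo k w hw)
      have := (tendsto_pow_atTop_nhds_zero_of_lt_one hq0 hq).mul_const ‖w - y‖
      rwa [zero_mul] at this
    have h2 := (hφ.tendsto y).comp h1
    apply h2.congr
    intro k
    exact (hfiter k w hw).symm
  refine ⟨y, hy, ?_, ⟨φ '' ball 0 r, ?_, ?_⟩, htend⟩
  · rw [hfF y hy, hfixF]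
  · have hyb : y ∈ ball (0 : ℂ) r := by
      have := hmaps y hy
      rwa [hfixF] at this
    exact hφo y _ (isOpen_ball.mem_nhds hyb)
  · rintro _ ⟨w, hw, rfl⟩
    exact htend w (ball_subset_closedBall hw)

/-- two discs, in the charts at zero and infinity, mapped contractingly into each other -/
theorem two_traps {f : OnePoint ℂ → OnePoint ℂ} (hf : Continuous f) {s : Bool → Bool}
    {F : Bool → ℂ → ℂ} {r q : ℝ} (hr : 0 < r) (hq0 : 0 ≤ q) (hq : q < 1)
    (hfF : ∀ i, ∀ z ∈ closedBall (0 : ℂ) r, f (ch i z) = ch (s i) (F i z))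
    (hmaps : ∀ i, ∀ z ∈ closedBall (0 : ℂ) r, F i z ∈ ball (0 : ℂ) r)
    (hlip : ∀ i, ∀ z ∈ closedBall (0 : ℂ) r, ∀ w ∈ closedBall (0 : ℂ) r,
      ‖F i z - F i w‖ ≤ q * ‖z - w‖)
    (c : OnePoint ℂ) (i : Bool) (u : ℂ) (hu : u ∈ closedBall (0 : ℂ) r) (hc : f c = ch i u) :
    ∃ z : OnePoint ℂ, ∃ n : ℕ, 0 < n ∧ f^[n] z = z ∧
        (∃ U ∈ nhds z, ∀ w ∈ U, Tendsto (fun k : ℕ => f^[n * k] w) atTop (nhds z)) ∧
        Tendsto (fun k : ℕ => f^[n * k] c) atTop (nhds z) := by
  have hss : ∀ i, s (s (s (s i))) = s (s i) := by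
    intro i
    rcases h0 : s false with _ | _ <;> rcases h1 : s true with _ | _ <;> cases i <;> simp [h0, h1]
  have hsss : ∀ i, s (s i) = i → s (s (s i)) = s i := by
    intro i hi
    rw [hi]
  have hcb : ∀ i, ∀ z ∈ closedBall (0 : ℂ) r, F i z ∈ closedBall (0 : ℂ) r :=
    fun i z hz => ball_subset_closedBall (hmaps i z hz)
  -- the second iterate
  have key : ∀ j, s (s j) = j → ∃ y ∈ closedBall (0 : ℂ) r, f^[2] (ch j y) = ch j y ∧
      (∃ U ∈ 𝓝 (ch j y), ∀ w ∈ U, Tendsto (fun k : ℕ => (f^[2])^[k] w) atTop (𝓝 (ch j y))) ∧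
      ∀ w ∈ closedBall (0 : ℂ) r, Tendsto (fun k : ℕ => (f^[2])^[k] (ch j w)) atTop
        (𝓝 (ch j y)) := by
    intro j hj
    apply trapC (ch_cont j) (ch_open j) (F := fun z => F (s j) (F j z)) hr
      (mul_nonneg hq0 hq0) (by nlinarith : q * q < 1)
    · intro z hz
      rw [Function.iterate_succ_apply, Function.iterate_one, hfF j z hz, hfF _ _ (hcb j z hz), hj]
    · intro z hz
      exact hmaps _ _ (hcb j z hz)
    · intro z hz w hw
      calc _ ≤ q * ‖F j z - F j w‖ := hlip _ _ (hcb j z hz) _ (hcb j w hw)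
        _ ≤ q * (q * ‖z - w‖) := by gcongr; exact hlip j z hz w hw
        _ = q * q * ‖z - w‖ := by ring
  set j := s (s i) with hj
  have hjj : s (s j) = j := hss i
  obtain ⟨y, hy, hy1, -, hy3⟩ := key j hjj
  obtain ⟨y', hy', hy'1, hy'2, hy'3⟩ := key (s j) (hsss j hjj)
  -- the image of the fixed point
  have himg : f (ch j y) = ch (s j) (F j y) := hfF j y hy
  have hper : f^[2] (f (ch j y)) = f (ch j y) := by
    have h1 : f^[2] (f (ch j y)) = f (f^[2] (ch j y)) := by
      rw [← Function.iterate_succ_apply, Function.iterate_succ_apply']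
    rw [h1, hy1]
  have heq : f (ch j y) = ch (s j) y' := by
    have h1 := hy'3 (F j y) (hcb j y hy)
    rw [← himg] at h1
    have h2 : ∀ k : ℕ, (f^[2])^[k] (f (ch j y)) = f (ch j y) := by
      intro k
      induction k with
      | zero => rfl
      | succ k ih => rw [Function.iterate_succ_apply, hper, ih]
    simp only [h2] at h1
    exact tendsto_nhds_unique tendsto_const_nhds h1
  refine ⟨ch (s j) y', 2, two_pos, hy'1, ?_, ?_⟩
  · obtain ⟨U, hU, h1⟩ := hy'2
    refine ⟨U, hU, fun w hw => ?_⟩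
    have := h1 w hw
    simpa only [Function.iterate_mul] using this
  · have hv : F (s i) (F i u) ∈ closedBall (0 : ℂ) r := hcb _ _ (hcb i u hu)
    have h3 : f^[3] c = ch j (F (s i) (F i u)) := by
      rw [Function.iterate_succ_apply, hc, Function.iterate_succ_apply, hfF i u hu,
        Function.iterate_one, hfF _ _ (hcb i u hu)]
    have h4 := hy3 _ hv
    have h5 := (hf.tendsto (ch j y)).comp h4
    rw [heq] at h5
    rw [← tendsto_add_atTop_iff_nat 2]
    apply h5.congr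
    intro k
    simp only [Function.comp_apply]
    rw [← h3, ← Function.iterate_mul, ← Function.iterate_succ_apply' f,
      ← Function.iterate_add_apply]
    congr 1

/-- ratio of two polynomials near the origin -/
theorem ratio_bound {X' Y' : Polynomial ℂ} (h : ‖X'.eval 0‖ < ‖Y'.eval 0‖) :
    ∃ κ M r : ℝ, 0 < κ ∧ κ < 1 ∧ 0 ≤ M ∧ 0 < r ∧ ∀ u ∈ closedBall (0 : ℂ) r,
      Y'.eval u ≠ 0 ∧ ‖X'.eval u / Y'.eval u‖ ≤ κ ∧ ‖(Wr X' Y').eval u / Y'.eval u ^ 2‖ ≤ M := by
  have hY : Y'.eval 0 ≠ 0 := by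
    intro h0
    rw [h0, norm_zero] at h
    exact absurd h (not_lt.2 (norm_nonneg _))
  have h1 : ‖X'.eval 0 / Y'.eval 0‖ < 1 := by
    rw [norm_div, div_lt_one (norm_pos_iff.2 hY)]; exact h
  obtain ⟨κ, hκ1, hκ2⟩ := exists_between h1
  have e1 : ∀ᶠ u in 𝓝 (0 : ℂ), Y'.eval u ≠ 0 := Y'.continuous.continuousAt.eventually_ne hY
  have e2 : ∀ᶠ u in 𝓝 (0 : ℂ), ‖X'.eval u / Y'.eval u‖ < κ := by
    have : ContinuousAt (fun u => X'.eval u / Y'.eval u) 0 :=
      X'.continuous.continuousAt.div Y'.continuous.continuousAt hY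
    exact this.norm.eventually (gt_mem_nhds hκ1)
  have e3 : ∀ᶠ u in 𝓝 (0 : ℂ), ‖(Wr X' Y').eval u / Y'.eval u ^ 2‖ <
      ‖(Wr X' Y').eval 0 / Y'.eval 0 ^ 2‖ + 1 := by
    have : ContinuousAt (fun u => (Wr X' Y').eval u / Y'.eval u ^ 2) 0 :=
      (Wr X' Y').continuous.continuousAt.div (Y'.continuous.continuousAt.pow 2) (pow_ne_zero 2 hY)
    exact this.norm.eventually (gt_mem_nhds (lt_add_one _))
  obtain ⟨ε, hε, hball⟩ := Metric.eventually_nhds_iff_ball.1 (e1.and (e2.and e3))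
  refine ⟨κ, ‖(Wr X' Y').eval 0 / Y'.eval 0 ^ 2‖ + 1, ε / 2, lt_of_le_of_lt (norm_nonneg _) hκ1,
    hκ2, by positivity, by positivity, ?_⟩
  intro u hu
  have hu' : u ∈ ball (0 : ℂ) ε := closedBall_subset_ball (by linarith) hu
  obtain ⟨g1, g2, g3⟩ := hball u hu'
  exact ⟨g1, g2.le, g3.le⟩

/-- powers of the ratio contract strongly -/
theorem ratio_pow {X' Y' : Polynomial ℂ} {κ M r : ℝ} (hκ0 : 0 < κ) (hκ : κ < 1) (_hM : 0 ≤ M)
    (hb : ∀ u ∈ closedBall (0 : ℂ) r, Y'.eval u ≠ 0 ∧ ‖X'.eval u / Y'.eval u‖ ≤ κ ∧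
      ‖(Wr X' Y').eval u / Y'.eval u ^ 2‖ ≤ M) (r' : ℝ) (hr' : 0 < r') (hrr : r' ≤ r) :
    ∀ᶠ N : ℕ in atTop, (∀ z ∈ closedBall (0 : ℂ) r', (X'.eval z / Y'.eval z) ^ N ∈ ball (0 : ℂ) r') ∧
      ∀ z ∈ closedBall (0 : ℂ) r', ∀ w ∈ closedBall (0 : ℂ) r',
        ‖(X'.eval z / Y'.eval z) ^ N - (X'.eval w / Y'.eval w) ^ N‖ ≤ 1 / 2 * ‖z - w‖ := by
  have e1 : ∀ᶠ N : ℕ in atTop, κ ^ N < r' :=
    (tendsto_pow_atTop_nhds_zero_of_lt_one hκ0.le hκ).eventually (gt_mem_nhds hr')
  have e2 : ∀ᶠ N : ℕ in atTop, (N : ℝ) * κ ^ N * (M / κ) < 1 / 2 := by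
    have h1 := (tendsto_self_mul_const_pow_of_lt_one hκ0.le hκ).mul_const (M / κ)
    rw [zero_mul] at h1
    exact h1.eventually (gt_mem_nhds (by norm_num))
  filter_upwards [e1, e2, eventually_ge_atTop 1] with N h1 h2 hN
  have hsub : closedBall (0 : ℂ) r' ⊆ closedBall (0 : ℂ) r := closedBall_subset_closedBall hrr
  constructor
  · intro z hz
    rw [mem_ball_zero_iff, norm_pow]
    calc _ ≤ κ ^ N := by gcongr; exact (hb z (hsub hz)).2.1
      _ < r' := h1
  · intro z hz w hw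
    have hderiv : ∀ x ∈ closedBall (0 : ℂ) r', HasDerivWithinAt (fun z => (X'.eval z / Y'.eval z) ^ N)
        (N * (X'.eval x / Y'.eval x) ^ (N - 1) * ((Wr X' Y').eval x / Y'.eval x ^ 2))
        (closedBall (0 : ℂ) r') x := by
      intro x hx
      have h3 := ((X'.hasDerivAt x).div (Y'.hasDerivAt x) (hb x (hsub hx)).1).pow N
      have h4 : (Wr X' Y').eval x = (derivative X').eval x * Y'.eval x -
          X'.eval x * (derivative Y').eval x := by
        unfold Wr; rw [eval_sub, eval_mul, eval_mul]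
      rw [h4]
      exact h3.hasDerivWithinAt
    have hbound : ∀ x ∈ closedBall (0 : ℂ) r',
        ‖(N * (X'.eval x / Y'.eval x) ^ (N - 1) * ((Wr X' Y').eval x / Y'.eval x ^ 2) : ℂ)‖
          ≤ 1 / 2 := by
      intro x hx
      rw [norm_mul, norm_mul, norm_pow, Complex.norm_natCast]
      have g1 := (hb x (hsub hx)).2.1
      have g2 := (hb x (hsub hx)).2.2
      calc (N : ℝ) * ‖X'.eval x / Y'.eval x‖ ^ (N - 1) * ‖(Wr X' Y').eval x / Y'.eval x ^ 2‖
          ≤ (N : ℝ) * κ ^ (N - 1) * M := by gcongr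
        _ = (N : ℝ) * κ ^ N * (M / κ) := by
            have : κ ^ N = κ ^ (N - 1) * κ := by
              rw [← pow_succ]; congr 1; omega
            rw [this]; field_simp
        _ ≤ 1 / 2 := h2.le
    exact (convex_closedBall (0 : ℂ) r').norm_image_sub_le_of_norm_hasDerivWithin_le
      hderiv hbound hw hz

theorem Wr_pow (P Q : Polynomial ℂ) (N : ℕ) :
    Wr (P ^ (N + 1)) (Q ^ (N + 1)) = C ((N + 1 : ℕ) : ℂ) * (P * Q) ^ N * Wr P Q := by
  unfold Wr
  rw [derivative_pow, derivative_pow]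
  simp only [Nat.add_sub_cancel]
  rw [mul_pow, pow_succ, pow_succ]
  ring

theorem reflect_pow' {P : Polynomial ℂ} {m : ℕ} (h : P.natDegree ≤ m) (N : ℕ) :
    reflect (N * m) (P ^ N) = (reflect m P) ^ N := by
  induction N with
  | zero => simp
  | succ N ih =>
    have h1 : (P ^ N).natDegree ≤ N * m := natDegree_pow_le.trans (Nat.mul_le_mul_left N h)
    rw [pow_succ, Nat.succ_mul, reflect_mul _ _ h1 h, ih, pow_succ]

theorem dg_pow (P Q : Polynomial ℂ) (N : ℕ) : dg (P ^ N) (Q ^ N) = N * dg P Q := by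
  unfold dg
  rw [natDegree_pow, natDegree_pow, Nat.mul_max_mul_left]

/-- polynomials in the charts -/
noncomputable def pc (i : Bool) (m : ℕ) (P : Polynomial ℂ) : Polynomial ℂ :=
  if i then reflect m P else P

theorem rat_pow_ch (P Q : Polynomial ℂ) (N : ℕ) (i : Bool) (u : ℂ) :
    rat (P ^ N) (Q ^ N) (ch i u) =
      pt ((pc i (dg P Q) P).eval u ^ N) ((pc i (dg P Q) Q).eval u ^ N) := by
  cases i
  · rw [ch_false_coe, rat_coe, eval_pow, eval_pow]; rfl
  · have hP := reflect_pow' (P := P) (m := dg P Q) (le_max_left _ _) N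
    have hQ := reflect_pow' (P := Q) (m := dg P Q) (le_max_right _ _) N
    by_cases hu : u = 0
    · subst hu
      have h0 : ch true 0 = ∞ := by rw [ch_true]; unfold pt; rw [if_pos rfl]
      rw [h0, rat_infty, dg_pow, ← eval_reflect_zero, ← eval_reflect_zero, hP, hQ, eval_pow,
        eval_pow]
      rfl
    · have h0 : ch true u = ((u⁻¹ : ℂ) : OnePoint ℂ) := by
        rw [ch_true]; unfold pt; rw [if_neg hu, one_div]
      rw [h0, rat_coe_eq (inv_ne_zero hu), inv_inv, dg_pow, hP, hQ, eval_pow, eval_pow]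
      rfl

theorem pt_pow_false {x y : ℂ} (hy : y ≠ 0) (N : ℕ) : pt (x ^ N) (y ^ N) = ch false ((x / y) ^ N) := by
  rw [ch_false_coe]
  unfold pt
  rw [if_neg (pow_ne_zero N hy), div_pow]

theorem pt_pow_true {x y : ℂ} (hx : x ≠ 0) (N : ℕ) : pt (x ^ N) (y ^ N) = ch true ((y / x) ^ N) := by
  rw [ch_true]
  have h1 : pt (1 * x ^ N) ((y / x) ^ N * x ^ N) = pt 1 ((y / x) ^ N) := pt_smul (pow_ne_zero N hx)
  rw [← h1, one_mul, div_pow, div_mul_cancel₀ _ (pow_ne_zero N hx)]

/-- powers of a generic rational map are hyperbolic -/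
theorem hyp_pow {P Q : Polynomial ℂ} (hcop : IsCoprime P Q) (hW : Wr P Q ≠ 0)
    (h0 : ‖P.eval 0‖ ≠ ‖Q.eval 0‖)
    (h1 : ‖P.coeff (dg P Q)‖ ≠ ‖Q.coeff (dg P Q)‖)
    (h2 : ∀ c, (Wr P Q).eval c = 0 → ‖P.eval c‖ ≠ ‖Q.eval c‖) :
    ∀ᶠ N : ℕ in atTop, Hyp (P ^ N) (Q ^ N) := by
  classical
  set m := dg P Q with hm
  -- values at the centre of the charts
  have hne : ∀ i : Bool, ‖(pc i m P).eval 0‖ ≠ ‖(pc i m Q).eval 0‖ := by
    intro i
    cases i
    · exact h0
    · have e1 : (pc true m P).eval 0 = P.coeff m := eval_reflect_zero P m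
      have e2 : (pc true m Q).eval 0 = Q.coeff m := eval_reflect_zero Q m
      rw [e1, e2]; exact h1
  set s : Bool → Bool := fun i => decide (‖(pc i m Q).eval 0‖ < ‖(pc i m P).eval 0‖) with hs
  set Xp : Bool → Polynomial ℂ := fun i => if s i then pc i m Q else pc i m P with hXp
  set Yp : Bool → Polynomial ℂ := fun i => if s i then pc i m P else pc i m Q with hYp
  have hXY : ∀ i, ‖(Xp i).eval 0‖ < ‖(Yp i).eval 0‖ := by
    intro i
    by_cases hi : ‖(pc i m Q).eval 0‖ < ‖(pc i m P).eval 0‖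
    · have hsi : s i = true := by rw [hs]; exact decide_eq_true hi
      simp only [hXp, hYp, hsi, if_true]
      exact hi
    · have hsi : s i = false := by rw [hs]; exact decide_eq_false hi
      simp only [hXp, hYp, hsi]
      exact lt_of_le_of_ne (not_lt.1 hi) (hne i)
  choose κ M r hκ0 hκ1 hM hr hb using fun i => ratio_bound (hXY i)
  set r' := min (r false) (r true) with hr'
  have hr'pos : 0 < r' := lt_min (hr _) (hr _)
  have hr'le : ∀ i, r' ≤ r i := by
    intro i; cases i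
    · exact min_le_left _ _
    · exact min_le_right _ _
  have ev1 : ∀ i, ∀ᶠ N : ℕ in atTop,
      (∀ z ∈ closedBall (0 : ℂ) r', ((Xp i).eval z / (Yp i).eval z) ^ N ∈ ball (0 : ℂ) r') ∧
      ∀ z ∈ closedBall (0 : ℂ) r', ∀ w ∈ closedBall (0 : ℂ) r',
        ‖((Xp i).eval z / (Yp i).eval z) ^ N - ((Xp i).eval w / (Yp i).eval w) ^ N‖
          ≤ 1 / 2 * ‖z - w‖ :=
    fun i => ratio_pow (hκ0 i) (hκ1 i) (hM i) (hb i) r' hr'pos (hr'le i)
  have ev1' := eventually_all.2 ev1
  -- critical points of the original map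
  have ev2 : ∀ c ∈ (Wr P Q).roots.toFinset, ∀ᶠ N : ℕ in atTop,
      ∃ i : Bool, ∃ u ∈ closedBall (0 : ℂ) r', pt (P.eval c ^ N) (Q.eval c ^ N) = ch i u := by
    intro c hc
    rw [Multiset.mem_toFinset, mem_roots hW] at hc
    rcases lt_or_gt_of_ne (h2 c hc) with h3 | h3
    · have hQ : Q.eval c ≠ 0 := by
        intro h4; rw [h4, norm_zero] at h3; exact absurd h3 (not_lt.2 (norm_nonneg _))
      have h5 : ‖P.eval c / Q.eval c‖ < 1 := by
        rw [norm_div, div_lt_one (norm_pos_iff.2 hQ)]; exact h3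
      have h6 : ∀ᶠ N : ℕ in atTop, ‖P.eval c / Q.eval c‖ ^ N < r' :=
        (tendsto_pow_atTop_nhds_zero_of_lt_one (norm_nonneg _) h5).eventually (gt_mem_nhds hr'pos)
      filter_upwards [h6] with N hN
      refine ⟨false, (P.eval c / Q.eval c) ^ N, ?_, pt_pow_false hQ N⟩
      rw [mem_closedBall_zero_iff, norm_pow]
      exact hN.le
    · have hP : P.eval c ≠ 0 := by
        intro h4; rw [h4, norm_zero] at h3; exact absurd h3 (not_lt.2 (norm_nonneg _))
      have h5 : ‖Q.eval c / P.eval c‖ < 1 := by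
        rw [norm_div, div_lt_one (norm_pos_iff.2 hP)]; exact h3
      have h6 : ∀ᶠ N : ℕ in atTop, ‖Q.eval c / P.eval c‖ ^ N < r' :=
        (tendsto_pow_atTop_nhds_zero_of_lt_one (norm_nonneg _) h5).eventually (gt_mem_nhds hr'pos)
      filter_upwards [h6] with N hN
      refine ⟨true, (Q.eval c / P.eval c) ^ N, ?_, pt_pow_true hP N⟩
      rw [mem_closedBall_zero_iff, norm_pow]
      exact hN.le
  have ev2' := (Filter.eventually_all_finset _).2 ev2
  filter_upwards [ev1', ev2', eventually_ge_atTop 1] with N g1 g2 hN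
  obtain ⟨N, rfl⟩ := Nat.exists_eq_add_of_le' hN
  have hcopN : IsCoprime (P ^ (N + 1)) (Q ^ (N + 1)) := hcop.pow
  have hcont := rat_continuous hcopN
  have hfF : ∀ i, ∀ z ∈ closedBall (0 : ℂ) r', rat (P ^ (N + 1)) (Q ^ (N + 1)) (ch i z) =
      ch (s i) (((Xp i).eval z / (Yp i).eval z) ^ (N + 1)) := by
    intro i z hz
    rw [rat_pow_ch]
    have hY := (hb i z (closedBall_subset_closedBall (hr'le i) hz)).1
    by_cases hi : s i = true
    · simp only [hXp, hYp, hi, if_true] at hY ⊢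
      exact pt_pow_true hY _
    · have hi' : s i = false := by simpa using hi
      simp only [hXp, hYp, hi'] at hY ⊢
      exact pt_pow_false hY _
  refine ⟨rat (P ^ (N + 1)) (Q ^ (N + 1)), hcont, fun z hz => rat_coe_of_ne hz, ?_⟩
  intro c hc
  have hcu : ∃ i : Bool, ∃ u ∈ closedBall (0 : ℂ) r',
      rat (P ^ (N + 1)) (Q ^ (N + 1)) c = ch i u := by
    induction c using OnePoint.rec with
    | infty =>
      have h3 : ch true 0 = ∞ := by rw [ch_true]; unfold pt; rw [if_pos rfl]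
      refine ⟨s true, _, ?_, by rw [← h3]; exact hfF true 0 (mem_closedBall_self hr'pos.le)⟩
      exact ball_subset_closedBall ((g1 true).1 0 (mem_closedBall_self hr'pos.le))
    | coe c =>
      have h3 := crit_coe hc
      rw [Wr_pow, eval_mul, eval_mul, eval_C, eval_pow, eval_mul] at h3
      rw [rat_coe, eval_pow, eval_pow]
      rcases mul_eq_zero.1 h3 with h4 | h4
      · rcases mul_eq_zero.1 h4 with h5 | h5
        · exfalso
          have : (N + 1 : ℕ) = 0 := by exact_mod_cast h5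
          omega
        · have h7 : P.eval c * Q.eval c = 0 := eq_zero_of_pow_eq_zero h5
          rcases mul_eq_zero.1 h7 with h8 | h8
          · have hQ : Q.eval c ≠ 0 := by
              rcases coprime_eval hcop c with h9 | h9
              · exact absurd h8 h9
              · exact h9
            refine ⟨false, _, ?_, pt_pow_false hQ _⟩
            rw [h8, zero_div, zero_pow (Nat.succ_ne_zero N)]
            exact mem_closedBall_self hr'pos.le
          · have hP : P.eval c ≠ 0 := by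
              rcases coprime_eval hcop c with h9 | h9
              · exact h9
              · exact absurd h8 h9
            refine ⟨true, _, ?_, pt_pow_true hP _⟩
            rw [h8, zero_div, zero_pow (Nat.succ_ne_zero N)]
            exact mem_closedBall_self hr'pos.le
      · apply g2 c
        rw [Multiset.mem_toFinset, mem_roots hW]
        exact h4
  obtain ⟨i, u, hu, hcu⟩ := hcu
  exact two_traps hcont hr'pos (by norm_num) (by norm_num : (1 / 2 : ℝ) < 1) hfF
    (fun i => (g1 i).1) (fun i => (g1 i).2) c i u hu hcu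

end Pool.Agent.H44.Fatou
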