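import Mathlib
import Pool.Agent.H44.Fatou.Trap

set_option autoImplicit false

open Filter Topology Polynomial OnePoint Metric

namespace Pool.Agent.H44.Fatou

/-- choice of a small parameter -/
theorem exists_small (l : List ℝ) (hl : ∀ x ∈ l, 0 < x) : ∃ δ : ℝ, 0 < δ ∧ ∀ x ∈ l, δ ≤ x := by
  induction l with
  | nil => exact ⟨1, one_pos, by simp⟩
  | cons a l ih =>
    obtain ⟨δ, h1, h2⟩ := ih (fun x hx => hl x (List.mem_cons_of_mem _ hx))
    refine ⟨min δ a, lt_min h1 (hl a List.mem_cons_self), ?_⟩
    intro x hx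
    rw [List.mem_cons] at hx
    rcases hx with rfl | hx
    · exact min_le_right _ _
    · exact (min_le_left _ _).trans (h2 x hx)

theorem wr_shift (Q s : Polynomial ℂ) (a : ℂ) :
    Wr (C a * Q + s) Q = derivative s * Q - s * derivative Q := by
  unfold Wr
  rw [derivative_add, derivative_C_mul]
  ring

/-- all rational maps of degree `d` near `(aH, H)` are hyperbolic -/
theorem nbhd_const {d : ℕ} (hd : 1 ≤ d) {H : Polynomial ℂ} (hH : H.natDegree = d)
    (hsq : IsCoprime H (derivative H)) {a : ℂ} (ha : H.eval a ≠ 0) :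
    ∃ δ : ℝ, 0 < δ ∧ ∀ P Q : Polynomial ℂ, IsCoprime P Q → P.natDegree ≤ d → Q.natDegree ≤ d →
      (∀ i, ‖P.coeff i - (C a * H).coeff i‖ < δ) → (∀ i, ‖Q.coeff i - H.coeff i‖ < δ) →
      Hyp P Q := by
  have hH0 : H ≠ 0 := by
    intro h; rw [h] at ha; simp at ha
  have hlead : 0 < ‖H.coeff d‖ := by
    rw [← hH]; exact norm_pos_iff.2 (leadingCoeff_ne_zero.2 hH0)
  obtain ⟨m, hm, hlow⟩ := lower_sqfree hH hH0 hsq
  -- radius of the trap
  set μ := ‖H.eval a‖ / 2 with hμ
  have hμpos : 0 < μ := by
    have := norm_pos_iff.2 ha; positivity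
  obtain ⟨r, hr0, hr1, hrH⟩ : ∃ r : ℝ, 0 < r ∧ r ≤ 1 ∧ ∀ z ∈ closedBall a r, μ ≤ ‖H.eval z‖ := by
    have h1 : ∀ᶠ z in 𝓝 a, μ < ‖H.eval z‖ := by
      apply (H.continuous.norm.tendsto a).eventually (lt_mem_nhds _)
      have := norm_pos_iff.2 ha
      rw [hμ]; linarith
    rw [Metric.eventually_nhds_iff_ball] at h1
    obtain ⟨ε, hε, h1⟩ := h1
    refine ⟨min (ε / 2) 1, by positivity, min_le_right _ _, fun z hz => (h1 z ?_).le⟩
    rw [mem_closedBall] at hz
    rw [mem_ball]
    have := min_le_left (ε / 2) 1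
    linarith
  -- constants
  set A := 1 + ‖a‖ with hA
  have hApos : 0 < A := by positivity
  set D : ℝ := (d : ℝ) + 1 with hD
  have hDpos : 0 < D := by positivity
  have hdpos : (0 : ℝ) < d := by exact_mod_cast hd
  set Wt : ℝ := (1 + (‖a‖ + 1)) ^ d with hWt
  have hWt1 : 1 ≤ Wt := one_le_pow₀ (by have := norm_nonneg a; linarith)
  have hWtpos : 0 < Wt := by linarith
  -- bound for H and H' on the trap
  set HB : ℝ := ∑ i ∈ Finset.range (d + 1), ‖H.coeff i‖ with hHB
  have hHBnn : 0 ≤ HB := Finset.sum_nonneg (fun i _ => norm_nonneg _)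
  have hHcoeff : ∀ i, ‖H.coeff i‖ ≤ HB := by
    intro i
    by_cases hi : i < d + 1
    · exact Finset.single_le_sum (f := fun i => ‖H.coeff i‖) (fun j _ => norm_nonneg _)
        (Finset.mem_range.2 hi)
    · rw [coeff_eq_zero_of_natDegree_lt (by omega), norm_zero]; exact hHBnn
  obtain ⟨δ, hδ, hall⟩ := exists_small
    [1, ‖H.coeff d‖ / 2, m / (2 * (D * 1)), m / (2 * (D * d)), μ / (2 * (D * Wt)),
      r * m / (4 * (D * A)), r * m / (4 * (D * (d * A))), r * μ / (4 * (D * A * Wt)),
      r * ‖H.coeff d‖ / (4 * A),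
      μ ^ 2 / (16 * (D * (d * A) * Wt * (D * (HB + 1) * Wt))),
      μ ^ 2 / (16 * (D * A * Wt * (D * (d * (HB + 1)) * Wt)))] (by
      intro x hx
      simp only [List.mem_cons, List.not_mem_nil, or_false] at hx
      rcases hx with rfl | rfl | rfl | rfl | rfl | rfl | rfl | rfl | rfl | rfl | rfl <;> positivity)
  simp only [List.mem_cons, List.not_mem_nil, or_false, forall_eq_or_imp, forall_eq] at hall
  obtain ⟨e1, e2, e3, e4, e5, e6, e7, e8, e9, e10, e11⟩ := hall
  refine ⟨δ, hδ, fun P Q hcop hPd hQd hP hQ => ?_⟩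
  -- s = P - a Q
  set s : Polynomial ℂ := P - C a * Q with hs
  have hsd : s.natDegree ≤ d :=
    (natDegree_sub_le _ _).trans (max_le hPd ((natDegree_C_mul_le a Q).trans hQd))
  have hsc : ∀ i, ‖s.coeff i‖ ≤ A * δ := by
    intro i
    have h1 : s.coeff i = (P.coeff i - (C a * H).coeff i) - a * (Q.coeff i - H.coeff i) := by
      rw [hs, coeff_sub, coeff_C_mul, coeff_C_mul]; ring
    rw [h1]
    calc _ ≤ ‖P.coeff i - (C a * H).coeff i‖ + ‖a * (Q.coeff i - H.coeff i)‖ := norm_sub_le _ _
      _ ≤ δ + ‖a‖ * δ := by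
          rw [norm_mul]
          have := (hP i).le
          have := (hQ i).le
          gcongr
      _ = A * δ := by rw [hA]; ring
  have hPeq : P = C a * Q + s := by rw [hs]; ring
  -- t = Q - H
  set t : Polynomial ℂ := Q - H with ht
  have htd : t.natDegree ≤ d := (natDegree_sub_le _ _).trans (max_le hQd hH.le)
  have htc : ∀ i, ‖t.coeff i‖ ≤ δ := by
    intro i; rw [ht, coeff_sub]; exact (hQ i).le
  have hQcoeff : ∀ i, ‖Q.coeff i‖ ≤ HB + 1 := by
    intro i
    have h1 : Q.coeff i = t.coeff i + H.coeff i := by rw [ht, coeff_sub]; ring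
    rw [h1]
    calc _ ≤ ‖t.coeff i‖ + ‖H.coeff i‖ := norm_add_le _ _
      _ ≤ δ + HB := add_le_add (htc i) (hHcoeff i)
      _ ≤ HB + 1 := by linarith
  have hsb := eval_bound hsd hsc
  have hsb' := deriv_bound hsd hsc
  have htb := eval_bound htd htc
  have htb' := deriv_bound htd htc
  have hQb := eval_bound hQd hQcoeff
  have hQb' := deriv_bound hQd hQcoeff
  -- leading coefficient of Q
  have hQlead : ‖H.coeff d‖ / 2 ≤ ‖Q.coeff d‖ := by
    have h1 : H.coeff d = Q.coeff d - t.coeff d := by rw [ht, coeff_sub]; ring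
    have h2 : ‖H.coeff d‖ ≤ ‖Q.coeff d‖ + ‖t.coeff d‖ := by
      conv_lhs => rw [h1]
      exact norm_sub_le _ _
    have := htc d
    linarith
  have hQlead0 : Q.coeff d ≠ 0 := norm_pos_iff.1 (by linarith)
  have hQdeg : Q.natDegree = d := le_antisymm hQd (le_natDegree_of_ne_zero hQlead0)
  have hdg : dg P Q = d := by unfold dg; rw [hQdeg]; exact max_eq_right hPd
  -- Q bounded below on the trap
  have hwt : ∀ z ∈ closedBall a r, (1 + ‖z‖) ^ d ≤ Wt ∧ (1 + ‖z‖) ^ (d - 1) ≤ Wt := by
    intro z hz
    rw [mem_closedBall, dist_eq_norm] at hz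
    have h1 : ‖z‖ ≤ ‖a‖ + 1 := by
      calc ‖z‖ = ‖(z - a) + a‖ := by ring_nf
        _ ≤ ‖z - a‖ + ‖a‖ := norm_add_le _ _
        _ ≤ ‖a‖ + 1 := by linarith
    have h2 : (1 + ‖z‖) ^ d ≤ Wt := by rw [hWt]; gcongr
    refine ⟨h2, le_trans ?_ h2⟩
    apply pow_le_pow_right₀
    · have := norm_nonneg z; linarith
    · omega
  have hQlow : ∀ z ∈ closedBall a r, μ / 2 ≤ ‖Q.eval z‖ := by
    intro z hz
    have h1 : H.eval z = Q.eval z - t.eval z := by rw [ht, eval_sub]; ring
    have h2 : ‖H.eval z‖ ≤ ‖Q.eval z‖ + ‖t.eval z‖ := by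
      conv_lhs => rw [h1]
      exact norm_sub_le _ _
    have h3 := hrH z hz
    have h4 : ‖t.eval z‖ ≤ μ / 2 := by
      refine (htb z).trans ?_
      calc ((d : ℝ) + 1) * δ * (1 + ‖z‖) ^ d ≤ D * (μ / (2 * (D * Wt))) * Wt := by
            have := (hwt z hz).1
            gcongr
        _ = μ / 2 := by field_simp
    linarith
  have hQne : ∀ z ∈ closedBall a r, Q.eval z ≠ 0 := fun z hz =>
    norm_pos_iff.1 (lt_of_lt_of_le (by positivity) (hQlow z hz))
  -- the map on the trap
  set F : ℂ → ℂ := fun z => P.eval z / Q.eval z with hF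
  have hFeq : ∀ z, Q.eval z ≠ 0 → F z - a = s.eval z / Q.eval z := by
    intro z hz
    rw [hF]
    simp only
    have : P.eval z = a * Q.eval z + s.eval z := by
      conv_lhs => rw [hPeq]
      rw [eval_add, eval_mul, eval_C]
    rw [this]
    field_simp
    ring
  have hball : ∀ z ∈ closedBall a r, ‖F z - a‖ ≤ r / 2 := by
    intro z hz
    rw [hFeq z (hQne z hz), norm_div, div_le_iff₀ (norm_pos_iff.2 (hQne z hz))]
    have h1 := hQlow z hz
    have h2 : ‖s.eval z‖ ≤ r * μ / 4 := by
      refine (hsb z).trans ?_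
      calc ((d : ℝ) + 1) * (A * δ) * (1 + ‖z‖) ^ d ≤ D * (A * (r * μ / (4 * (D * A * Wt)))) * Wt := by
            have := (hwt z hz).1
            gcongr
        _ = r * μ / 4 := by field_simp
    calc ‖s.eval z‖ ≤ r * μ / 4 := h2
      _ = r / 2 * (μ / 2) := by ring
      _ ≤ r / 2 * ‖Q.eval z‖ := by gcongr
  have hderiv : ∀ z ∈ closedBall a r, HasDerivAt F
      (((derivative P).eval z * Q.eval z - P.eval z * (derivative Q).eval z) / Q.eval z ^ 2) z :=
    fun z hz => (P.hasDerivAt z).div (Q.hasDerivAt z) (hQne z hz)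
  have hdbound : ∀ z ∈ closedBall a r,
      ‖((derivative P).eval z * Q.eval z - P.eval z * (derivative Q).eval z) / Q.eval z ^ 2‖
        ≤ 1 / 2 := by
    intro z hz
    have hW : (derivative P).eval z * Q.eval z - P.eval z * (derivative Q).eval z
        = (derivative s).eval z * Q.eval z - s.eval z * (derivative Q).eval z := by
      have h1 := wr_shift Q s a
      rw [← hPeq] at h1
      have h2 := congrArg (Polynomial.eval z) h1
      unfold Wr at h2
      simpa [eval_sub, eval_mul] using h2
    have hnz := norm_pos_iff.2 (hQne z hz)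
    rw [hW, norm_div, norm_pow, div_le_iff₀ (by positivity)]
    have hw := hwt z hz
    have b1 : ‖(derivative s).eval z * Q.eval z‖ ≤ μ ^ 2 / 16 := by
      rw [norm_mul]
      calc ‖(derivative s).eval z‖ * ‖Q.eval z‖
          ≤ (((d : ℝ) + 1) * (d * (A * δ)) * (1 + ‖z‖) ^ (d - 1))
              * (((d : ℝ) + 1) * (HB + 1) * (1 + ‖z‖) ^ d) := by
            gcongr
            · exact hsb' z
            · exact hQb z
        _ ≤ (D * (d * (A * (μ ^ 2 / (16 * (D * (d * A) * Wt * (D * (HB + 1) * Wt)))))) * Wt)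
              * (D * (HB + 1) * Wt) := by
            have := hw.1
            have := hw.2
            gcongr
        _ = μ ^ 2 / 16 := by field_simp
    have b2 : ‖s.eval z * (derivative Q).eval z‖ ≤ μ ^ 2 / 16 := by
      rw [norm_mul]
      calc ‖s.eval z‖ * ‖(derivative Q).eval z‖
          ≤ (((d : ℝ) + 1) * (A * δ) * (1 + ‖z‖) ^ d)
              * (((d : ℝ) + 1) * (d * (HB + 1)) * (1 + ‖z‖) ^ (d - 1)) := by
            gcongr
            · exact hsb z
            · exact hQb' z
        _ ≤ (D * (A * (μ ^ 2 / (16 * (D * A * Wt * (D * (d * (HB + 1)) * Wt))))) * Wt)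
              * (D * (d * (HB + 1)) * Wt) := by
            have := hw.1
            have := hw.2
            gcongr
        _ = μ ^ 2 / 16 := by field_simp
    calc ‖(derivative s).eval z * Q.eval z - s.eval z * (derivative Q).eval z‖
        ≤ ‖(derivative s).eval z * Q.eval z‖ + ‖s.eval z * (derivative Q).eval z‖ := norm_sub_le _ _
      _ ≤ μ ^ 2 / 8 := by linarith
      _ = 1 / 2 * (μ / 2) ^ 2 := by ring
      _ ≤ 1 / 2 * ‖Q.eval z‖ ^ 2 := by
          have := hQlow z hz
          gcongr
  have hlip : ∀ z ∈ closedBall a r, ∀ w ∈ closedBall a r, ‖F z - F w‖ ≤ 1 / 2 * ‖z - w‖ := by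
    intro z hz w hw
    exact (convex_closedBall a r).norm_image_sub_le_of_norm_hasDerivWithin_le
      (fun x hx => (hderiv x hx).hasDerivWithinAt) hdbound hw hz
  apply hyp_of_trap hcop (F := F) (a := a) (r := r) (q := 1 / 2) hr0 (by norm_num) (by norm_num)
  · intro z hz
    exact rat_coe_of_ne (hQne z hz)
  · intro z hz
    rw [mem_ball, dist_eq_norm]
    have := hball z hz
    linarith
  · exact hlip
  · intro c hc
    refine ⟨1, ?_⟩
    induction c using OnePoint.rec with
    | infty =>
      refine ⟨P.coeff d / Q.coeff d, ?_, ?_⟩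
      · rw [mem_closedBall, dist_eq_norm]
        have h1 : P.coeff d / Q.coeff d - a = s.coeff d / Q.coeff d := by
          have : P.coeff d = a * Q.coeff d + s.coeff d := by
            rw [hs, coeff_sub, coeff_C_mul]; ring
          rw [this]
          field_simp
          ring
        rw [h1, norm_div, div_le_iff₀ (norm_pos_iff.2 hQlead0)]
        calc ‖s.coeff d‖ ≤ A * δ := hsc d
          _ ≤ A * (r * ‖H.coeff d‖ / (4 * A)) := by gcongr
          _ = r * (‖H.coeff d‖ / 2) / 2 := by field_simp; norm_num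
          _ ≤ r * ‖Q.coeff d‖ / 2 := by gcongr
          _ ≤ r * ‖Q.coeff d‖ := by
              have : 0 ≤ r * ‖Q.coeff d‖ := by positivity
              linarith
      · rw [Function.iterate_one, rat_infty, hdg]
        unfold pt
        rw [if_neg hQlead0]
    | coe c =>
      have hW := crit_coe hc
      have hW2 : (derivative s).eval c * Q.eval c = s.eval c * (derivative Q).eval c := by
        have h1 := wr_shift Q s a
        rw [← hPeq] at h1
        rw [h1, eval_sub, eval_mul, eval_mul] at hW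
        linear_combination hW
      set w : ℝ := 1 + ‖c‖ with hw
      have hwpos : 0 < w := by positivity
      have hwd : 0 < w ^ d := by positivity
      have hwd1 : 0 < w ^ (d - 1) := by positivity
      have hcase : m / 2 * w ^ d ≤ ‖Q.eval c‖ ∨ m / 2 * w ^ (d - 1) ≤ ‖(derivative Q).eval c‖ := by
        rcases hlow c with h | h
        · left
          have h1 : H.eval c = Q.eval c - t.eval c := by rw [ht, eval_sub]; ring
          have h2 : ‖H.eval c‖ ≤ ‖Q.eval c‖ + ‖t.eval c‖ := by
            conv_lhs => rw [h1]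
            exact norm_sub_le _ _
          have h4 : ‖t.eval c‖ ≤ m / 2 * w ^ d := by
            refine (htb c).trans ?_
            calc ((d : ℝ) + 1) * δ * (1 + ‖c‖) ^ d ≤ D * (m / (2 * (D * 1))) * w ^ d := by gcongr
              _ = m / 2 * w ^ d := by field_simp
          linarith
        · right
          have h1 : (derivative H).eval c = (derivative Q).eval c - (derivative t).eval c := by
            rw [ht, derivative_sub, eval_sub]; ring
          have h2 : ‖(derivative H).eval c‖ ≤ ‖(derivative Q).eval c‖ + ‖(derivative t).eval c‖ := by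
            conv_lhs => rw [h1]
            exact norm_sub_le _ _
          have h4 : ‖(derivative t).eval c‖ ≤ m / 2 * w ^ (d - 1) := by
            refine (htb' c).trans ?_
            calc ((d : ℝ) + 1) * (d * δ) * (1 + ‖c‖) ^ (d - 1)
                ≤ D * (d * (m / (2 * (D * d)))) * w ^ (d - 1) := by gcongr
              _ = m / 2 * w ^ (d - 1) := by field_simp
          linarith
      have hmain : Q.eval c ≠ 0 ∧ ‖F c - a‖ ≤ r := by
        rcases hcase with h | h
        · have hQc : Q.eval c ≠ 0 := norm_pos_iff.1 (lt_of_lt_of_le (by positivity) h)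
          refine ⟨hQc, ?_⟩
          rw [hFeq c hQc, norm_div, div_le_iff₀ (norm_pos_iff.2 hQc)]
          calc ‖s.eval c‖ ≤ ((d : ℝ) + 1) * (A * δ) * (1 + ‖c‖) ^ d := hsb c
            _ ≤ D * (A * (r * m / (4 * (D * A)))) * w ^ d := by gcongr
            _ = r * (m / 2 * w ^ d) / 2 := by field_simp; norm_num
            _ ≤ r * ‖Q.eval c‖ / 2 := by gcongr
            _ ≤ r * ‖Q.eval c‖ := by
                have : 0 ≤ r * ‖Q.eval c‖ := by positivity
                linarith
        · have hQ'c : (derivative Q).eval c ≠ 0 :=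
            norm_pos_iff.1 (lt_of_lt_of_le (by positivity) h)
          have hQc : Q.eval c ≠ 0 := by
            intro h0
            rw [h0, mul_zero] at hW2
            have hsc0 : s.eval c = 0 := by
              rcases mul_eq_zero.1 hW2.symm with h1 | h1
              · exact h1
              · exact absurd h1 hQ'c
            rcases coprime_eval hcop c with h1 | h1
            · apply h1
              rw [hPeq, eval_add, eval_mul, h0, hsc0]; ring
            · exact h1 h0
          refine ⟨hQc, ?_⟩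
          have h1 : s.eval c / Q.eval c = (derivative s).eval c / (derivative Q).eval c := by
            rw [div_eq_div_iff hQc hQ'c]
            linear_combination -hW2
          rw [hFeq c hQc, h1, norm_div, div_le_iff₀ (norm_pos_iff.2 hQ'c)]
          calc ‖(derivative s).eval c‖ ≤ ((d : ℝ) + 1) * (d * (A * δ)) * (1 + ‖c‖) ^ (d - 1) := hsb' c
            _ ≤ D * (d * (A * (r * m / (4 * (D * (d * A)))))) * w ^ (d - 1) := by gcongr
            _ = r * (m / 2 * w ^ (d - 1)) / 2 := by field_simp; norm_num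
            _ ≤ r * ‖(derivative Q).eval c‖ / 2 := by gcongr
            _ ≤ r * ‖(derivative Q).eval c‖ := by
                have : 0 ≤ r * ‖(derivative Q).eval c‖ := by positivity
                linarith
      refine ⟨F c, ?_, ?_⟩
      · rw [mem_closedBall, dist_eq_norm]; exact hmain.2
      · rw [Function.iterate_one]
        exact rat_coe_of_ne hmain.1

end Pool.Agent.H44.Fatou
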