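import Mathlib
import Pool.Agent.H44.Fatou.Const

set_option autoImplicit false

open Filter Topology Polynomial OnePoint Metric

namespace Pool.Agent.H44.Fatou

theorem wr_ne_zero {P Q : Polynomial ℂ} (h : IsCoprime P Q) (hd : 1 ≤ max P.natDegree Q.natDegree) :
    Wr P Q ≠ 0 := by
  intro h0
  have h1 : wronskian P Q = 0 := by
    unfold wronskian
    unfold Wr at h0
    linear_combination -h0
  rw [IsCoprime.wronskian_eq_zero_iff h] at h1
  obtain ⟨h2, h3⟩ := h1
  have h4 : P.natDegree = 0 := Polynomial.derivative_eq_zero.1 h2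
  have h5 : Q.natDegree = 0 := Polynomial.derivative_eq_zero.1 h3
  rw [h4, h5] at hd
  simp at hd

/-- the pencil member -/
theorem pencil_good {P Q : Polynomial ℂ} (h : IsCoprime P Q) {d : ℕ} (hd : 1 ≤ d)
    (hmax : max P.natDegree Q.natDegree = d) :
    ∃ E : Set ℂ, E.Finite ∧ ∀ w ∉ E, (P - C w * Q).natDegree = d ∧
      IsCoprime (P - C w * Q) (derivative (P - C w * Q)) := by
  have hW := wr_ne_zero h (hmax ▸ hd)
  refine ⟨{P.coeff d / Q.coeff d} ∪ (fun c => P.eval c / Q.eval c) '' {c | (Wr P Q).IsRoot c}, ?_, ?_⟩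
  · apply Set.Finite.union (Set.finite_singleton _)
    apply Set.Finite.image
    exact Polynomial.finite_setOf_isRoot hW
  · intro w hw
    rw [Set.mem_union, not_or] at hw
    obtain ⟨hw1, hw2⟩ := hw
    have hPd : P.natDegree ≤ d := hmax ▸ le_max_left _ _
    have hQd : Q.natDegree ≤ d := hmax ▸ le_max_right _ _
    have hcoeff : (P - C w * Q).coeff d ≠ 0 := by
      rw [coeff_sub, coeff_C_mul]
      intro h0
      by_cases hQ0 : Q.coeff d = 0
      · rw [hQ0, mul_zero, sub_zero] at h0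
        have := coeff_dg h
        unfold dg at this
        rw [hmax] at this
        rcases this with h1 | h1
        · exact h1 h0
        · exact h1 hQ0
      · apply hw1
        rw [Set.mem_singleton_iff, eq_div_iff hQ0]
        linear_combination -h0
    have hdeg : (P - C w * Q).natDegree = d := by
      apply le_antisymm
      · exact (natDegree_sub_le _ _).trans (max_le hPd ((natDegree_C_mul_le w Q).trans hQd))
      · exact le_natDegree_of_ne_zero hcoeff
    refine ⟨hdeg, ?_⟩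
    have hne : P - C w * Q ≠ 0 := by
      intro h0; rw [h0] at hcoeff; simp at hcoeff
    rw [Polynomial.isCoprime_iff_aeval_ne_zero_of_isAlgClosed (K := ℂ) (k := ℂ)]
    intro c
    by_contra hcon
    push Not at hcon
    obtain ⟨h1, h2⟩ := hcon
    simp only [coe_aeval_eq_eval, eval_sub, eval_mul, eval_C, derivative_sub,
      derivative_C_mul] at h1 h2
    apply hw2
    refine ⟨c, ?_, ?_⟩
    · show (Wr P Q).IsRoot c
      rw [IsRoot.def]
      unfold Wr
      rw [eval_sub, eval_mul, eval_mul]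
      linear_combination Q.eval c * h2 - (derivative Q).eval c * h1
    · have hQc : Q.eval c ≠ 0 := by
        intro h0
        rw [h0, mul_zero, sub_zero] at h1
        rcases coprime_eval h c with h3 | h3
        · exact h3 h1
        · exact h3 h0
      show P.eval c / Q.eval c = w
      rw [div_eq_iff hQc]
      linear_combination h1

theorem coset_aux {P Q : Polynomial ℂ} (h : IsCoprime P Q) {d : ℕ} (hd : 1 ≤ d)
    (hmax : max P.natDegree Q.natDegree = d) {w a : ℂ} (hdeg : (P - C w * Q).natDegree = d)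
    (hsq : IsCoprime (P - C w * Q) (derivative (P - C w * Q))) (ha : P.eval a ≠ w * Q.eval a) :
    ∃ ρ : ℝ, 0 < ρ ∧ ∀ α β γ δ : ℂ, α * δ - β * γ ≠ 0 → ‖α - a‖ < ρ → ‖β + a * w‖ < ρ →
      ‖γ - 1‖ < ρ → ‖δ + w‖ < ρ → Hyp (C α * P + C β * Q) (C γ * P + C δ * Q) := by
  have hPd : P.natDegree ≤ d := hmax ▸ le_max_left _ _
  have hQd : Q.natDegree ≤ d := hmax ▸ le_max_right _ _
  obtain ⟨δ0, hδ0, hmain⟩ := nbhd_const hd hdeg hsq (a := a) (by
    rw [eval_sub, eval_mul, eval_C]
    exact sub_ne_zero.2 ha)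
  -- bound for coefficients
  set B : ℝ := (∑ i ∈ Finset.range (d + 1), ‖P.coeff i‖) + ∑ i ∈ Finset.range (d + 1), ‖Q.coeff i‖
    with hB
  have hB1 : 0 ≤ ∑ i ∈ Finset.range (d + 1), ‖P.coeff i‖ :=
    Finset.sum_nonneg (fun i _ => norm_nonneg _)
  have hB2 : 0 ≤ ∑ i ∈ Finset.range (d + 1), ‖Q.coeff i‖ :=
    Finset.sum_nonneg (fun i _ => norm_nonneg _)
  have hBP : ∀ i, ‖P.coeff i‖ ≤ B := by
    intro i
    by_cases hi : i < d + 1
    · have := Finset.single_le_sum (f := fun i => ‖P.coeff i‖) (fun j _ => norm_nonneg _)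
        (Finset.mem_range.2 hi)
      linarith
    · rw [coeff_eq_zero_of_natDegree_lt (by omega), norm_zero]; linarith
  have hBQ : ∀ i, ‖Q.coeff i‖ ≤ B := by
    intro i
    by_cases hi : i < d + 1
    · have := Finset.single_le_sum (f := fun i => ‖Q.coeff i‖) (fun j _ => norm_nonneg _)
        (Finset.mem_range.2 hi)
      linarith
    · rw [coeff_eq_zero_of_natDegree_lt (by omega), norm_zero]; linarith
  have hBnn : 0 ≤ B := by linarith
  refine ⟨δ0 / (2 * (B + 1)), by positivity, ?_⟩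
  intro α β γ δ hdet hα hβ hγ hδ
  have hsmall : ∀ x y : ℂ, ‖x‖ < δ0 / (2 * (B + 1)) → ‖y‖ < δ0 / (2 * (B + 1)) → ∀ i,
      ‖x * P.coeff i + y * Q.coeff i‖ < δ0 := by
    intro x y hx hy i
    calc ‖x * P.coeff i + y * Q.coeff i‖ ≤ ‖x * P.coeff i‖ + ‖y * Q.coeff i‖ := norm_add_le _ _
      _ ≤ δ0 / (2 * (B + 1)) * B + δ0 / (2 * (B + 1)) * B := by
          rw [norm_mul, norm_mul]
          have := hBP i
          have := hBQ i
          gcongr
      _ = δ0 * (B / (B + 1)) := by field_simp; ring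
      _ < δ0 * 1 := by
          apply mul_lt_mul_of_pos_left _ hδ0
          rw [div_lt_one (by linarith)]
          linarith
      _ = δ0 := mul_one _
  apply hmain
  · -- coprimality is preserved
    obtain ⟨u, v, huv⟩ := h
    refine ⟨C (α * δ - β * γ)⁻¹ * (C δ * u - C γ * v), C (α * δ - β * γ)⁻¹ * (C α * v - C β * u), ?_⟩
    have hdet' : C (α * δ - β * γ)⁻¹ * C (α * δ - β * γ) = (1 : Polynomial ℂ) := by
      rw [← C_mul, inv_mul_cancel₀ hdet, C_1]
    rw [C_sub, C_mul, C_mul] at hdet'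
    linear_combination (u * P + v * Q) * hdet' + huv
  · exact (natDegree_add_le _ _).trans (max_le ((natDegree_C_mul_le _ _).trans hPd)
      ((natDegree_C_mul_le _ _).trans hQd))
  · exact (natDegree_add_le _ _).trans (max_le ((natDegree_C_mul_le _ _).trans hPd)
      ((natDegree_C_mul_le _ _).trans hQd))
  · intro i
    have h1 : (C α * P + C β * Q).coeff i - (C a * (P - C w * Q)).coeff i
        = (α - a) * P.coeff i + (β + a * w) * Q.coeff i := by
      rw [coeff_add, coeff_C_mul, coeff_C_mul, coeff_C_mul, coeff_sub, coeff_C_mul]; ring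
    rw [h1]
    exact hsmall _ _ hα hβ i
  · intro i
    have h1 : (C γ * P + C δ * Q).coeff i - (P - C w * Q).coeff i
        = (γ - 1) * P.coeff i + (δ + w) * Q.coeff i := by
      rw [coeff_add, coeff_C_mul, coeff_C_mul, coeff_sub, coeff_C_mul]; ring
    rw [h1]
    exact hsmall _ _ hγ hδ i

theorem coset_main {P Q : Polynomial ℂ} (h : IsCoprime P Q) {d : ℕ} (hd : 1 ≤ d)
    (hmax : max P.natDegree Q.natDegree = d) :
    ∃ E : Set ℂ, E.Finite ∧ ∀ w ∉ E, ∀ a : ℂ, P.eval a ≠ w * Q.eval a →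
      ∃ ρ : ℝ, 0 < ρ ∧ ∀ α β γ δ : ℂ, α * δ - β * γ ≠ 0 → ‖α - a‖ < ρ → ‖β + a * w‖ < ρ →
        ‖γ - 1‖ < ρ → ‖δ + w‖ < ρ → Hyp (C α * P + C β * Q) (C γ * P + C δ * Q) := by
  obtain ⟨E, hE, hE2⟩ := pencil_good h hd hmax
  refine ⟨E, hE, fun w hw a ha => ?_⟩
  obtain ⟨h1, h2⟩ := hE2 w hw
  exact coset_aux h hd hmax h1 h2 ha

end Pool.Agent.H44.Fatou
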