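import Mathlib
import Pool.Agent.H44.Fatou.Pow
import Pool.Agent.H44.Fatou.Coset

set_option autoImplicit false

open Filter Topology Polynomial OnePoint Metric

namespace Pool.Agent.H44.Fatou

/-- small positive reals avoiding a finite set -/
theorem exists_avoid (B : Set ℝ) (hB : B.Finite) {a b : ℝ} (hab : a < b) : ∃ x ∈ Set.Ioo a b, x ∉ B := by
  have h : (Set.Ioo a b \ B).Nonempty := by
    apply Set.Infinite.nonempty
    exact (Set.Ioo_infinite hab).sdiff hB
  obtain ⟨x, hx⟩ := h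
  exact ⟨x, hx.1, hx.2⟩

/-- coprime pairs of full degree near an arbitrary pair -/
theorem coprime_pert {P Q : Polynomial ℂ} {m : ℕ} (hm : 1 ≤ m) (hP : P.natDegree ≤ m)
    (hQ : Q.natDegree ≤ m) {ε : ℝ} (hε : 0 < ε) :
    ∃ P1 Q1 : Polynomial ℂ, IsCoprime P1 Q1 ∧ max P1.natDegree Q1.natDegree = m ∧
      (∀ i, ‖P1.coeff i - P.coeff i‖ < ε) ∧ (∀ i, ‖Q1.coeff i - Q.coeff i‖ < ε) := by
  classical
  -- leading coefficient
  obtain ⟨t, ht, htn⟩ : ∃ t : ℝ, t ∈ Set.Ioo 0 ε ∧ t ∉ ({x : ℝ | P.coeff m + (x : ℂ) = 0} : Set ℝ) := by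
    apply exists_avoid _ _ hε
    apply Set.Subsingleton.finite
    intro x hx y hy
    have h1 : P.coeff m + (x : ℂ) = 0 := hx
    have h2 : P.coeff m + (y : ℂ) = 0 := hy
    have h3 : (x : ℂ) = y := by linear_combination h1 - h2
    exact_mod_cast h3
  set P1 := P + C (t : ℂ) * X ^ m with hP1
  have hc : P1.coeff m ≠ 0 := by
    rw [hP1, coeff_add, coeff_C_mul, coeff_X_pow_self, mul_one]
    exact htn
  have hP1m : P1.natDegree = m := by
    apply le_antisymm
    · exact (natDegree_add_le _ _).trans (max_le hP (natDegree_C_mul_X_pow_le _ _))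
    · exact le_natDegree_of_ne_zero hc
  have hP10 : P1 ≠ 0 := by
    intro h0; rw [h0, coeff_zero] at hc; exact hc rfl
  obtain ⟨u, hu, hun⟩ : ∃ u : ℝ, u ∈ Set.Ioo 0 ε ∧
      u ∉ (⋃ z ∈ P1.roots.toFinset, {x : ℝ | Q.eval z + (x : ℂ) = 0} : Set ℝ) := by
    apply exists_avoid _ _ hε
    apply Set.Finite.biUnion (Finset.finite_toSet _)
    intro z _
    apply Set.Subsingleton.finite
    intro x hx y hy
    have h1 : Q.eval z + (x : ℂ) = 0 := hx
    have h2 : Q.eval z + (y : ℂ) = 0 := hy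
    have h3 : (x : ℂ) = y := by linear_combination h1 - h2
    exact_mod_cast h3
  refine ⟨P1, Q + C (u : ℂ), ?_, ?_, ?_, ?_⟩
  · apply (isCoprime_iff_aeval_ne_zero_of_isAlgClosed ℂ ℂ P1 (Q + C (u : ℂ))).2
    intro z
    by_contra hcon
    push Not at hcon
    have h1 : P1.eval z = 0 := by simpa [coe_aeval_eq_eval] using hcon.1
    have h2 : (Q + C (u : ℂ)).eval z = 0 := by simpa [coe_aeval_eq_eval] using hcon.2
    apply hun
    rw [Set.mem_iUnion₂]
    refine ⟨z, ?_, ?_⟩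
    · rw [Multiset.mem_toFinset, mem_roots hP10]; exact h1
    · rw [eval_add, eval_C] at h2; exact h2
  · rw [hP1m]
    apply max_eq_left
    exact (natDegree_add_le _ _).trans (max_le hQ (by rw [natDegree_C]; omega))
  · intro i
    rw [hP1, coeff_add, add_sub_cancel_left, coeff_C_mul, coeff_X_pow]
    split_ifs
    · rw [mul_one, Complex.norm_real, Real.norm_eq_abs, abs_of_pos ht.1]; exact ht.2
    · rw [mul_zero, norm_zero]; exact hε
  · intro i
    rw [coeff_add, add_sub_cancel_left, coeff_C]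
    split_ifs
    · rw [Complex.norm_real, Real.norm_eq_abs, abs_of_pos hu.1]; exact hu.2
    · rw [norm_zero]; exact hε

/-- pairs all of whose large powers are hyperbolic are dense -/
theorem pow_dense {P Q : Polynomial ℂ} {m : ℕ} (hm : 1 ≤ m) (hP : P.natDegree ≤ m)
    (hQ : Q.natDegree ≤ m) {ε : ℝ} (hε : 0 < ε) :
    ∃ P1 Q1 : Polynomial ℂ, IsCoprime P1 Q1 ∧ max P1.natDegree Q1.natDegree = m ∧
      (∀ i, ‖P1.coeff i - P.coeff i‖ < ε) ∧ (∀ i, ‖Q1.coeff i - Q.coeff i‖ < ε) ∧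
      ∀ᶠ N : ℕ in atTop, Hyp (P1 ^ N) (Q1 ^ N) := by
  classical
  obtain ⟨P1, Q1, hcop, hmax, hc1, hc2⟩ := coprime_pert hm hP hQ (half_pos hε)
  have hW : Wr P1 Q1 ≠ 0 := wr_ne_zero hcop (by omega)
  -- bound for the coefficients of P1
  obtain ⟨M, hM0, hM⟩ : ∃ M : ℝ, 0 < M ∧ ∀ i, ‖P1.coeff i‖ ≤ M := by
    refine ⟨∑ i ∈ Finset.range (m + 1), ‖P1.coeff i‖ + 1, by positivity, ?_⟩
    intro i
    by_cases hi : i ∈ Finset.range (m + 1)
    · have := Finset.single_le_sum (f := fun i => ‖P1.coeff i‖) (fun i _ => norm_nonneg _) hi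
      linarith
    · rw [Finset.mem_range] at hi
      have : P1.natDegree ≤ m := by rw [← hmax]; exact le_max_left _ _
      rw [coeff_eq_zero_of_natDegree_lt (by omega), norm_zero]
      positivity
  set B : Set ℝ := (fun c : ℂ => ‖Q1.eval c‖ / ‖P1.eval c‖) '' ((insert 0 (Wr P1 Q1).roots.toFinset : Finset ℂ) : Set ℂ)
    ∪ {‖Q1.coeff m‖ / ‖P1.coeff m‖} with hB
  have hBfin : B.Finite := by
    apply Set.Finite.union
    · exact (Finset.finite_toSet _).image _
    · exact Set.finite_singleton _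
  obtain ⟨x, hx, hxB⟩ := exists_avoid B hBfin (show (1 : ℝ) < 1 + ε / (2 * M) by
    have : 0 < ε / (2 * M) := by positivity
    linarith)
  have hx0 : 0 < x := lt_trans one_pos hx.1
  have hxc : (x : ℂ) ≠ 0 := by exact_mod_cast hx0.ne'
  have hxn : ‖(x : ℂ)‖ = x := by rw [Complex.norm_real, Real.norm_eq_abs, abs_of_pos hx0]
  have hdeg : (C (x : ℂ) * P1).natDegree = P1.natDegree := natDegree_C_mul hxc
  have hcop' : IsCoprime (C (x : ℂ) * P1) Q1 := by
    have : IsUnit (C (x : ℂ)) := isUnit_C.2 (isUnit_iff_ne_zero.2 hxc)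
    exact (isCoprime_mul_unit_left_left this P1 Q1).2 hcop
  have havoid : ∀ c : ℂ, ‖Q1.eval c‖ / ‖P1.eval c‖ ∈ B → ‖(C (x : ℂ) * P1).eval c‖ ≠ ‖Q1.eval c‖ := by
    intro c hcB heq
    rw [eval_mul, eval_C, norm_mul, hxn] at heq
    by_cases hPc : P1.eval c = 0
    · rw [hPc, norm_zero, mul_zero] at heq
      have hQc : Q1.eval c = 0 := norm_eq_zero.1 heq.symm
      rcases coprime_eval hcop c with h | h
      · exact h hPc
      · exact h hQc
    · apply hxB
      have : x = ‖Q1.eval c‖ / ‖P1.eval c‖ := by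
        rw [eq_div_iff (norm_ne_zero_iff.2 hPc)]; exact heq
      rw [this]; exact hcB
  have hWx : Wr (C (x : ℂ) * P1) Q1 = C (x : ℂ) * Wr P1 Q1 := by
    unfold Wr
    rw [derivative_C_mul]
    ring
  refine ⟨C (x : ℂ) * P1, Q1, hcop', by rw [hdeg]; exact hmax, ?_, ?_, ?_⟩
  · intro i
    have h1 : (C (x : ℂ) * P1).coeff i - P.coeff i =
        ((x : ℂ) - 1) * P1.coeff i + (P1.coeff i - P.coeff i) := by
      rw [coeff_C_mul]; ring
    rw [h1]
    have h2 : ‖((x : ℂ) - 1) * P1.coeff i‖ ≤ ε / 2 := by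
      rw [norm_mul]
      have h3 : ‖(x : ℂ) - 1‖ ≤ ε / (2 * M) := by
        have : (x : ℂ) - 1 = ((x - 1 : ℝ) : ℂ) := by push_cast; ring
        rw [this, Complex.norm_real, Real.norm_eq_abs, abs_of_pos (by linarith [hx.1])]
        linarith [hx.2]
      calc _ ≤ ε / (2 * M) * M := by gcongr; exact hM i
        _ = ε / 2 := by field_simp
    calc _ ≤ ‖((x : ℂ) - 1) * P1.coeff i‖ + ‖P1.coeff i - P.coeff i‖ := norm_add_le _ _
      _ < ε / 2 + ε / 2 := add_lt_add_of_le_of_lt h2 (hc1 i)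
      _ = ε := by ring
  · intro i
    exact (hc2 i).trans (by linarith)
  · apply hyp_pow hcop'
    · rw [hWx]
      exact mul_ne_zero (C_ne_zero.2 hxc) hW
    · apply havoid
      left
      exact ⟨0, by simp, rfl⟩
    · have hdg : dg (C (x : ℂ) * P1) Q1 = m := by
        unfold dg; rw [hdeg]; exact hmax
      rw [hdg, coeff_C_mul, norm_mul, hxn]
      intro heq
      have hdgm : dg P1 Q1 = m := hmax
      have hco := coeff_dg hcop
      rw [hdgm] at hco
      by_cases hPm : P1.coeff m = 0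
      · rw [hPm, norm_zero, mul_zero] at heq
        have hQm : Q1.coeff m = 0 := norm_eq_zero.1 heq.symm
        rcases hco with h | h
        · exact h hPm
        · exact h hQm
      · apply hxB
        right
        rw [Set.mem_singleton_iff, eq_div_iff (norm_ne_zero_iff.2 hPm)]
        exact heq
    · intro c hc
      rw [hWx, eval_mul, eval_C] at hc
      apply havoid
      left
      refine ⟨c, ?_, rfl⟩
      rw [Finset.coe_insert]
      right
      rw [Finset.mem_coe, Multiset.mem_toFinset, mem_roots hW]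
      rcases mul_eq_zero.1 hc with h | h
      · exact absurd h hxc
      · exact h

/-- polynomial with given coefficient vector -/
noncomputable def pv {m : ℕ} (v : Fin (m + 1) → ℂ) : Polynomial ℂ := ∑ i, C (v i) * X ^ (i : ℕ)

theorem pv_coeff {m : ℕ} (v : Fin (m + 1) → ℂ) (i : ℕ) :
    (pv v).coeff i = if h : i < m + 1 then v ⟨i, h⟩ else 0 := by
  unfold pv
  rw [finsetSum_coeff]
  split_ifs with h
  · rw [Finset.sum_eq_single ⟨i, h⟩]
    · rw [coeff_C_mul, coeff_X_pow_self, mul_one]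
    · intro j _ hj
      rw [coeff_C_mul, coeff_X_pow, if_neg, mul_zero]
      intro h1
      exact hj (Fin.ext h1.symm)
    · intro h1; exact absurd (Finset.mem_univ _) h1
  · apply Finset.sum_eq_zero
    intro j _
    rw [coeff_C_mul, coeff_X_pow, if_neg, mul_zero]
    have := j.2
    omega

theorem pv_natDegree {m : ℕ} (v : Fin (m + 1) → ℂ) : (pv v).natDegree ≤ m := by
  rw [natDegree_le_iff_coeff_eq_zero]
  intro N hN
  rw [pv_coeff, dif_neg (by omega)]

/-- uniform version -/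
theorem pow_uniform (m : ℕ) (hm : 1 ≤ m) {ε : ℝ} (hε : 0 < ε) :
    ∃ N₀ : ℕ, ∀ N ≥ N₀, ∀ P Q : Polynomial ℂ, P.natDegree ≤ m → Q.natDegree ≤ m →
      (∀ i, ‖P.coeff i‖ ≤ 1 ∧ ‖Q.coeff i‖ ≤ 1) →
      ∃ P1 Q1 : Polynomial ℂ, IsCoprime P1 Q1 ∧ max P1.natDegree Q1.natDegree = m ∧
        (∀ i, ‖P1.coeff i - P.coeff i‖ < ε ∧ ‖Q1.coeff i - Q.coeff i‖ < ε) ∧
        Hyp (P1 ^ N) (Q1 ^ N) := by
  classical
  set K : Set ((Fin (m + 1) → ℂ) × (Fin (m + 1) → ℂ)) := closedBall 0 1 with hK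
  have hKc : IsCompact K := isCompact_closedBall _ _
  have hex : ∀ v : (Fin (m + 1) → ℂ) × (Fin (m + 1) → ℂ), ∃ P1 Q1 : Polynomial ℂ, ∃ N₀ : ℕ,
      IsCoprime P1 Q1 ∧ max P1.natDegree Q1.natDegree = m ∧
      (∀ i, ‖P1.coeff i - (pv v.1).coeff i‖ < ε / 2) ∧
      (∀ i, ‖Q1.coeff i - (pv v.2).coeff i‖ < ε / 2) ∧ ∀ N ≥ N₀, Hyp (P1 ^ N) (Q1 ^ N) := by
    intro v
    obtain ⟨P1, Q1, g1, g2, g3, g4, g5⟩ := pow_dense hm (pv_natDegree v.1) (pv_natDegree v.2)
      (half_pos hε)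
    obtain ⟨N₀, hN₀⟩ := eventually_atTop.1 g5
    exact ⟨P1, Q1, N₀, g1, g2, g3, g4, hN₀⟩
  choose P1 Q1 N₀ g1 g2 g3 g4 g5 using hex
  obtain ⟨t, -, ht⟩ := hKc.elim_nhds_subcover (fun v => ball v (ε / 2))
    (fun v _ => ball_mem_nhds v (half_pos hε))
  refine ⟨t.sup N₀, ?_⟩
  intro N hN P Q hP hQ hPQ
  have hv : ((fun i : Fin (m + 1) => P.coeff i, fun i : Fin (m + 1) => Q.coeff i) :
      (Fin (m + 1) → ℂ) × (Fin (m + 1) → ℂ)) ∈ K := by
    rw [hK, mem_closedBall_zero_iff, Prod.norm_def, max_le_iff]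
    constructor
    · rw [pi_norm_le_iff_of_nonneg zero_le_one]
      exact fun i => (hPQ i).1
    · rw [pi_norm_le_iff_of_nonneg zero_le_one]
      exact fun i => (hPQ i).2
  obtain ⟨x, hxt, hx⟩ := Set.mem_iUnion₂.1 (ht hv)
  rw [mem_ball, Prod.dist_eq, max_lt_iff, dist_pi_lt_iff (half_pos hε),
    dist_pi_lt_iff (half_pos hε)] at hx
  have hclose : ∀ (R : Polynomial ℂ) (w : Fin (m + 1) → ℂ), R.natDegree ≤ m →
      (∀ i : Fin (m + 1), dist (R.coeff i) (w i) < ε / 2) → ∀ i, ‖(pv w).coeff i - R.coeff i‖ < ε / 2 := by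
    intro R w hR hw i
    rw [pv_coeff]
    split_ifs with h
    · have := hw ⟨i, h⟩
      rw [dist_comm, dist_eq_norm] at this
      exact this
    · rw [coeff_eq_zero_of_natDegree_lt (by omega), sub_self, norm_zero]
      exact half_pos hε
  refine ⟨P1 x, Q1 x, g1 x, g2 x, ?_, g5 x N (le_trans (Finset.le_sup hxt) hN)⟩
  intro i
  constructor
  · have h1 := g3 x i
    have h2 := hclose P x.1 hP hx.1 i
    calc _ = ‖((P1 x).coeff i - (pv x.1).coeff i) + ((pv x.1).coeff i - P.coeff i)‖ := by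
          congr 1; ring
      _ ≤ _ + _ := norm_add_le _ _
      _ < ε / 2 + ε / 2 := add_lt_add h1 h2
      _ = ε := by ring
  · have h1 := g4 x i
    have h2 := hclose Q x.2 hQ hx.2 i
    calc _ = ‖((Q1 x).coeff i - (pv x.2).coeff i) + ((pv x.2).coeff i - Q.coeff i)‖ := by
          congr 1; ring
      _ ≤ _ + _ := norm_add_le _ _
      _ < ε / 2 + ε / 2 := add_lt_add h1 h2
      _ = ε := by ring

end Pool.Agent.H44.Fatou
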