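import Mathlib
import Pool.Agent.H44.Fatou.Basic

set_option autoImplicit false

open Filter Topology Polynomial OnePoint Metric

namespace Pool.Agent.H44.Fatou

/-- all critical values escape: the polynomial is hyperbolic -/
theorem hyp_of_escape {P : Polynomial ℂ} (hdeg : 1 ≤ P.natDegree) {R : ℝ} (hR : 0 < R)
    (hesc : ∀ z : ℂ, R ≤ ‖z‖ → 2 * ‖z‖ ≤ ‖P.eval z‖)
    (hcrit : ∀ c : ℂ, (derivative P).eval c = 0 → R ≤ ‖P.eval c‖) : Hyp P 1 := by
  have hcop : IsCoprime P 1 := isCoprime_one_right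
  have hrat : ∀ z : ℂ, rat P 1 (z : OnePoint ℂ) = ((P.eval z : ℂ) : OnePoint ℂ) := by
    intro z
    have := rat_coe_of_ne (P := P) (Q := 1) (z := z) (by simp)
    simpa using this
  have hinf : rat P 1 ∞ = ∞ := by
    rw [rat_infty]
    unfold pt dg
    rw [if_pos]
    rw [natDegree_one, max_eq_left (Nat.zero_le _), coeff_one, if_neg (by omega)]
  have hit : ∀ (k : ℕ) (z : ℂ), (rat P 1)^[k] (z : OnePoint ℂ)
      = (((fun w => P.eval w)^[k] z : ℂ) : OnePoint ℂ) := by
    intro k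
    induction k with
    | zero => intro z; rfl
    | succ k ih =>
      intro z
      rw [Function.iterate_succ_apply, hrat, ih, Function.iterate_succ_apply]
  have hgrow : ∀ (k : ℕ) (z : ℂ), R ≤ ‖z‖ → 2 ^ k * R ≤ ‖(fun w => P.eval w)^[k] z‖ := by
    intro k
    induction k with
    | zero => intro z hz; simpa using hz
    | succ k ih =>
      intro z hz
      rw [Function.iterate_succ_apply']
      have h1 := ih z hz
      have h2 : R ≤ ‖(fun w => P.eval w)^[k] z‖ := by
        refine le_trans ?_ h1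
        have : (1 : ℝ) ≤ 2 ^ k := one_le_pow₀ (by norm_num)
        nlinarith
      have h3 := hesc _ h2
      calc (2 : ℝ) ^ (k + 1) * R = 2 * (2 ^ k * R) := by ring
        _ ≤ 2 * ‖(fun w => P.eval w)^[k] z‖ := by linarith
        _ ≤ _ := h3
  have hconv : ∀ z : ℂ, R ≤ ‖z‖ →
      Tendsto (fun k : ℕ => (rat P 1)^[k] (z : OnePoint ℂ)) atTop (𝓝 (∞ : OnePoint ℂ)) := by
    intro z hz
    have h1 : Tendsto (fun k : ℕ => (fun w => P.eval w)^[k] z) atTop (coclosedCompact ℂ) := by
      rw [coclosedCompact_eq_cocompact, ← Metric.cobounded_eq_cocompact,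
        ← tendsto_norm_atTop_iff_cobounded]
      apply tendsto_atTop_mono (fun k => hgrow k z hz)
      exact (tendsto_pow_atTop_atTop_of_one_lt (by norm_num : (1 : ℝ) < 2)).atTop_mul_const hR
    have h2 := (tendsto_coe_infty (X := ℂ)).comp h1
    apply h2.congr
    intro k
    exact (hit k z).symm
  have hconvi : Tendsto (fun k : ℕ => (rat P 1)^[k] (∞ : OnePoint ℂ)) atTop
      (𝓝 (∞ : OnePoint ℂ)) := by
    have : ∀ k : ℕ, (rat P 1)^[k] (∞ : OnePoint ℂ) = ∞ := by
      intro k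
      induction k with
      | zero => rfl
      | succ k ih => rw [Function.iterate_succ_apply, hinf, ih]
    simp only [this]
    exact tendsto_const_nhds
  refine ⟨rat P 1, rat_continuous hcop, fun z hz => rat_coe_of_ne hz, ?_⟩
  intro c hc
  refine ⟨∞, 1, one_pos, hinf, ?_, ?_⟩
  · refine ⟨((↑) '' (closedBall (0 : ℂ) R) : Set (OnePoint ℂ))ᶜ, ?_, ?_⟩
    · apply IsOpen.mem_nhds
      · exact isOpen_compl_image_coe.2 ⟨isClosed_closedBall, isCompact_closedBall _ _⟩
      · exact infty_notMem_image_coe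
    · intro w hw
      simp only [one_mul]
      induction w using OnePoint.rec with
      | infty => exact hconvi
      | coe z =>
        apply hconv
        by_contra h
        push Not at h
        apply hw
        exact ⟨z, by rw [mem_closedBall_zero_iff]; exact h.le, rfl⟩
  · simp only [one_mul]
    induction c using OnePoint.rec with
    | infty => exact hconvi
    | coe z =>
      have h1 := crit_coe hc
      have h2 : (derivative P).eval z = 0 := by
        unfold Wr at h1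
        simpa using h1
      have h3 := hconv _ (hcrit z h2)
      have h4 : Tendsto (fun k : ℕ => (rat P 1)^[k + 1] (z : OnePoint ℂ)) atTop
          (𝓝 (∞ : OnePoint ℂ)) := by
        apply h3.congr
        intro k
        rw [Function.iterate_succ_apply, hrat]
      exact (tendsto_add_atTop_iff_nat 1).1 h4

/-- integer polynomial with coefficient vector `a` -/
noncomputable def ip {n : ℕ} (a : Fin n → ℤ) : Polynomial ℂ :=
  ∑ i, C ((a i : ℤ) : ℂ) * X ^ (i : ℕ)

theorem ip_coeff {n : ℕ} (a : Fin n → ℤ) (i : Fin n) : (ip a).coeff i = (a i : ℂ) := by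
  unfold ip
  rw [finsetSum_coeff]
  rw [Finset.sum_eq_single i]
  · rw [coeff_C_mul, coeff_X_pow_self, mul_one]
  · intro j _ hj
    rw [coeff_C_mul, coeff_X_pow, if_neg, mul_zero]
    intro h
    exact hj (Fin.ext h.symm)
  · intro h; exact absurd (Finset.mem_univ i) h

theorem ip_natDegree_le {d : ℕ} (a : Fin (d + 1) → ℤ) : (ip a).natDegree ≤ d := by
  unfold ip
  apply natDegree_sum_le_of_forall_le
  intro i _
  refine (natDegree_C_mul_X_pow_le _ _).trans ?_
  omega

theorem ip_eval {n : ℕ} (a : Fin n → ℤ) (z : ℂ) :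
    (ip a).eval z = ∑ i, (a i : ℂ) * z ^ (i : ℕ) := by
  unfold ip
  rw [eval_finsetSum]
  simp

/-- escape radius -/
theorem ip_escape {d N : ℕ} (hd : 2 ≤ d) (a : Fin (d + 1) → ℤ) (ha : ∀ i, |a i| ≤ N)
    (hl : a (Fin.last d) ≠ 0) (z : ℂ)
    (hz : (d * N + 2) / |(a (Fin.last d) : ℝ)| + 1 ≤ ‖z‖) : 2 * ‖z‖ ≤ ‖(ip a).eval z‖ := by
  set m := |(a (Fin.last d) : ℝ)| with hm
  have hm1 : 1 ≤ m := by
    rw [hm, ← Int.cast_abs]
    exact_mod_cast Int.one_le_abs hl
  have hm0 : 0 < m := by linarith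
  have hz1 : 1 ≤ ‖z‖ := by
    have : 0 ≤ (d * N + 2 : ℝ) / m := by positivity
    linarith
  have hz2 : (d * N + 2 : ℝ) ≤ m * (‖z‖ - 1) := by
    have : (d * N + 2 : ℝ) / m ≤ ‖z‖ - 1 := by linarith
    rw [div_le_iff₀ hm0] at this
    linarith
  rw [ip_eval, Fin.sum_univ_castSucc]
  simp only [Fin.val_last, Fin.val_castSucc]
  have h1 : ‖∑ i : Fin d, (a i.castSucc : ℂ) * z ^ (i : ℕ)‖ ≤ d * N * ‖z‖ ^ (d - 1) := by
    calc _ ≤ ∑ i : Fin d, ‖(a i.castSucc : ℂ) * z ^ (i : ℕ)‖ := norm_sum_le _ _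
      _ ≤ ∑ i : Fin d, (N : ℝ) * ‖z‖ ^ (d - 1) := by
          apply Finset.sum_le_sum
          intro i _
          rw [norm_mul, norm_pow]
          have h2 : ‖(a i.castSucc : ℂ)‖ ≤ N := by
            rw [Complex.norm_intCast]
            have := ha i.castSucc
            rw [← Int.cast_abs]
            exact_mod_cast this
          have h3 : ‖z‖ ^ (i : ℕ) ≤ ‖z‖ ^ (d - 1) := pow_le_pow_right₀ hz1 (by omega)
          gcongr
      _ = _ := by rw [Finset.sum_const, Finset.card_univ, Fintype.card_fin, nsmul_eq_mul]; ring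
  have h2 : ‖(a (Fin.last d) : ℂ) * z ^ d‖ = m * ‖z‖ ^ (d - 1) * ‖z‖ := by
    rw [norm_mul, norm_pow, Complex.norm_intCast, hm, mul_assoc, ← pow_succ]
    congr 2
    omega
  have h3 : ‖z‖ ≤ ‖z‖ ^ (d - 1) := by
    calc ‖z‖ = ‖z‖ ^ 1 := (pow_one _).symm
      _ ≤ _ := pow_le_pow_right₀ hz1 (by omega)
  have h4 : ‖(a (Fin.last d) : ℂ) * z ^ d‖ - ‖∑ i : Fin d, (a i.castSucc : ℂ) * z ^ (i : ℕ)‖
      ≤ ‖∑ i : Fin d, (a i.castSucc : ℂ) * z ^ (i : ℕ) + (a (Fin.last d) : ℂ) * z ^ d‖ := by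
    rw [add_comm]
    exact norm_sub_le_norm_add _ _
  refine le_trans ?_ h4
  rw [h2]
  have h5 : (d * N + 2 : ℝ) * ‖z‖ ^ (d - 1) ≤ m * ‖z‖ ^ (d - 1) * ‖z‖ := by
    have h6 : (0 : ℝ) ≤ ‖z‖ ^ (d - 1) := by positivity
    have h7 : (d * N + 2 : ℝ) ≤ m * ‖z‖ := by nlinarith
    nlinarith
  nlinarith

/-- integers in an interval -/
theorem card_int_interval (s : Finset ℤ) (y R : ℝ) (hR : 0 ≤ R) (h : ∀ x ∈ s, |(x : ℝ) + y| < R) :
    (s.card : ℝ) ≤ 2 * R + 1 := by
  have h1 : s ⊆ Finset.Icc ⌈-y - R⌉ ⌊-y + R⌋ := by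
    intro x hx
    have := abs_lt.1 (h x hx)
    rw [Finset.mem_Icc]
    constructor
    · rw [Int.ceil_le]; linarith
    · rw [Int.le_floor]; linarith
  have h2 := Finset.card_le_card h1
  rw [Int.card_Icc] at h2
  have h3 : (s.card : ℝ) ≤ ((⌊-y + R⌋ + 1 - ⌈-y - R⌉).toNat : ℝ) := by exact_mod_cast h2
  refine h3.trans ?_
  have h4 := Int.floor_le (-y + R)
  have h5 := Int.le_ceil (-y - R)
  by_cases h6 : 0 ≤ ⌊-y + R⌋ + 1 - ⌈-y - R⌉
  · have h7 : ((⌊-y + R⌋ + 1 - ⌈-y - R⌉).toNat : ℤ) = ⌊-y + R⌋ + 1 - ⌈-y - R⌉ := Int.toNat_of_nonneg h6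
    have h8 : ((⌊-y + R⌋ + 1 - ⌈-y - R⌉).toNat : ℝ) = (⌊-y + R⌋ : ℝ) + 1 - ⌈-y - R⌉ := by
      rw [← Int.cast_natCast (R := ℝ) (⌊-y + R⌋ + 1 - ⌈-y - R⌉).toNat, h7]
      push_cast
      ring
    rw [h8]; linarith
  · rw [Int.toNat_of_nonpos (by omega)]
    simp
    linarith

/-- count of constant terms for which the polynomial is not hyperbolic -/
theorem fibre_count {d N : ℕ} (hd : 2 ≤ d) (t : Fin d → ℤ) (ht : ∀ i, |t i| ≤ N)
    (e : ℕ) (he : d = e + 1) (hl : t ⟨e, by omega⟩ ≠ 0) (s : Finset ℤ)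
    (hs : ∀ x ∈ s, |x| ≤ N ∧ ¬ Hyp (ip (Fin.cons x t : Fin (d + 1) → ℤ)) 1) :
    (s.card : ℝ) ≤ d * (2 * ((d * N + 2) / |(t ⟨e, by omega⟩ : ℝ)| + 1) + 1) := by
  classical
  set R : ℝ := (d * N + 2) / |(t ⟨e, by omega⟩ : ℝ)| + 1 with hR
  have hR0 : 0 < R := by positivity
  have hlast : ∀ x : ℤ, (Fin.cons x t : Fin (d + 1) → ℤ) (Fin.last d) = t ⟨e, by omega⟩ := by
    intro x
    have : Fin.last d = (⟨e, by omega⟩ : Fin d).succ := by
      apply Fin.ext
      simp [he]
    rw [this, Fin.cons_succ]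
  -- the polynomial without constant term
  set p : Polynomial ℂ := ip (Fin.cons 0 t : Fin (d + 1) → ℤ) with hp
  have hsplit : ∀ x : ℤ, ip (Fin.cons x t : Fin (d + 1) → ℤ) = p + C (x : ℂ) := by
    intro x
    rw [hp]
    unfold ip
    rw [Fin.sum_univ_succ, Fin.sum_univ_succ]
    simp only [Fin.cons_zero, Fin.cons_succ]
    simp
    ring
  have hder : ∀ x : ℤ, derivative (ip (Fin.cons x t : Fin (d + 1) → ℤ)) = derivative p := by
    intro x
    rw [hsplit x, derivative_add, derivative_C, add_zero]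
  have hpd : p.natDegree ≤ d := ip_natDegree_le _
  have hpc : p.coeff d ≠ 0 := by
    have := ip_coeff (Fin.cons 0 t : Fin (d + 1) → ℤ) (Fin.last d)
    rw [Fin.val_last] at this
    rw [hp, this, hlast]
    exact_mod_cast hl
  have hdp : derivative p ≠ 0 := by
    intro h0
    have h1 : (derivative p).coeff (d - 1) = 0 := by rw [h0, coeff_zero]
    rw [coeff_derivative] at h1
    have h2 : d - 1 + 1 = d := by omega
    rw [h2] at h1
    rcases mul_eq_zero.1 h1 with h3 | h3
    · exact hpc h3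
    · have h4 : (((d - 1 : ℕ) : ℂ) + 1) = ((d - 1 + 1 : ℕ) : ℂ) := by push_cast; ring
      rw [h4] at h3
      have : (d - 1 + 1 : ℕ) = 0 := by exact_mod_cast h3
      omega
  have hcard : (derivative p).roots.toFinset.card ≤ d := by
    calc _ ≤ Multiset.card (derivative p).roots := Multiset.toFinset_card_le _
      _ ≤ (derivative p).natDegree := card_roots' _
      _ ≤ d := (natDegree_derivative_le p).trans (by omega)
  -- cover
  have hcover : s ⊆ (derivative p).roots.toFinset.biUnion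
      (fun c => s.filter (fun x : ℤ => |(x : ℝ) + (p.eval c).re| < R)) := by
    intro x hx
    obtain ⟨hx1, hx2⟩ := hs x hx
    by_contra hcon
    apply hx2
    rw [Finset.mem_biUnion] at hcon
    push Not at hcon
    have hN : ∀ i, |(Fin.cons x t : Fin (d + 1) → ℤ) i| ≤ N := by
      intro i
      refine Fin.cases ?_ (fun i => ?_) i
      · rw [Fin.cons_zero]; exact hx1
      · rw [Fin.cons_succ]; exact ht i
    have hll : (Fin.cons x t : Fin (d + 1) → ℤ) (Fin.last d) ≠ 0 := by rw [hlast]; exact hl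
    apply hyp_of_escape (R := R)
    · have h1 := ip_coeff (Fin.cons x t : Fin (d + 1) → ℤ) (Fin.last d)
      rw [Fin.val_last] at h1
      have h2 : (ip (Fin.cons x t : Fin (d + 1) → ℤ)).coeff d ≠ 0 := by
        rw [h1]; exact_mod_cast hll
      have := le_natDegree_of_ne_zero h2
      omega
    · exact hR0
    · intro z hz
      apply ip_escape hd _ hN hll
      rw [hlast]
      exact hz
    · intro c hc
      rw [hder] at hc
      have hcr : c ∈ (derivative p).roots.toFinset := by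
        rw [Multiset.mem_toFinset, mem_roots hdp]; exact hc
      have h1 := hcon c hcr
      rw [Finset.mem_filter] at h1
      push Not at h1
      have h2 := h1 hx
      rw [hsplit, eval_add, eval_C]
      calc R ≤ |(x : ℝ) + (p.eval c).re| := h2
        _ = |(p.eval c + (x : ℂ)).re| := by
            congr 1
            rw [Complex.add_re, Complex.intCast_re]; ring
        _ ≤ _ := Complex.abs_re_le_norm _
  have h1 := Finset.card_le_card hcover
  have h2 : (s.card : ℝ) ≤ ∑ c ∈ (derivative p).roots.toFinset,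
      ((s.filter (fun x : ℤ => |(x : ℝ) + (p.eval c).re| < R)).card : ℝ) := by
    have := h1.trans Finset.card_biUnion_le
    exact_mod_cast this
  have h3 : ∑ c ∈ (derivative p).roots.toFinset,
      ((s.filter (fun x : ℤ => |(x : ℝ) + (p.eval c).re| < R)).card : ℝ)
      ≤ ∑ c ∈ (derivative p).roots.toFinset, (2 * R + 1) := by
    apply Finset.sum_le_sum
    intro c _
    apply card_int_interval _ ((p.eval c).re) R hR0.le
    intro x hx
    exact (Finset.mem_filter.1 hx).2
  rw [Finset.sum_const, nsmul_eq_mul] at h3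
  have h4 : (((derivative p).roots.toFinset.card : ℕ) : ℝ) ≤ d := by exact_mod_cast hcard
  calc (s.card : ℝ) ≤ _ := h2
    _ ≤ _ := h3
    _ ≤ d * (2 * R + 1) := by
        apply mul_le_mul_of_nonneg_right h4
        linarith

end Pool.Agent.H44.Fatou
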