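import Mathlib
import Pool.Agent.H44.Fatou.IntPoly

set_option autoImplicit false

open Filter Topology Polynomial OnePoint Metric

namespace Pool.Agent.H44.Fatou

open Classical in
/-- bad vectors in the box -/
noncomputable def badF (d N : ℕ) : Finset (Fin (d + 1) → ℤ) :=
  (Fintype.piFinset (fun _ : Fin (d + 1) => Finset.Icc (-(N : ℤ)) N)).filter
    (fun a => ¬ (a (Fin.last d) ≠ 0 ∧ Hyp (ip a) 1))

theorem card_Icc_N (N : ℕ) : (Finset.Icc (-(N : ℤ)) N).card = 2 * N + 1 := by
  rw [Int.card_Icc]; omega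

theorem harm_bound (N : ℕ) :
    ∑ m ∈ (Finset.Icc (-(N : ℤ)) N).filter (fun m => m ≠ 0), (1 : ℝ) / |(m : ℝ)| ≤
      2 * (1 + Real.log N) := by
  have h0 : ∑ m ∈ Finset.Icc 1 N, (1 : ℝ) / (m : ℝ) ≤ 1 + Real.log N := by
    have h := harmonic_le_one_add_log N
    have h1 : ((harmonic N : ℚ) : ℝ) = ∑ m ∈ Finset.Icc 1 N, (1 : ℝ) / (m : ℝ) := by
      rw [harmonic_eq_sum_Icc]
      push_cast
      apply Finset.sum_congr rfl
      intro i _
      rw [one_div]
    rw [← h1]; exact h
  have hsub : (Finset.Icc (-(N : ℤ)) N).filter (fun m => m ≠ 0) ⊆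
      (Finset.Icc 1 N).image (fun m : ℕ => (m : ℤ)) ∪ (Finset.Icc 1 N).image (fun m : ℕ => -(m : ℤ)) := by
    intro m hm
    rw [Finset.mem_filter, Finset.mem_Icc] at hm
    rw [Finset.mem_union, Finset.mem_image, Finset.mem_image]
    rcases lt_or_gt_of_ne hm.2 with h | h
    · right
      refine ⟨(-m).toNat, ?_, ?_⟩
      · rw [Finset.mem_Icc]; omega
      · omega
    · left
      refine ⟨m.toNat, ?_, ?_⟩
      · rw [Finset.mem_Icc]; omega
      · omega
  calc _ ≤ ∑ m ∈ (Finset.Icc 1 N).image (fun m : ℕ => (m : ℤ)) ∪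
          (Finset.Icc 1 N).image (fun m : ℕ => -(m : ℤ)), (1 : ℝ) / |(m : ℝ)| := by
        apply Finset.sum_le_sum_of_subset_of_nonneg hsub
        intro i _ _; positivity
    _ ≤ ∑ m ∈ (Finset.Icc 1 N).image (fun m : ℕ => (m : ℤ)), (1 : ℝ) / |(m : ℝ)| +
        ∑ m ∈ (Finset.Icc 1 N).image (fun m : ℕ => -(m : ℤ)), (1 : ℝ) / |(m : ℝ)| := by
        rw [← Finset.sum_union_inter]
        have : 0 ≤ ∑ m ∈ (Finset.Icc 1 N).image (fun m : ℕ => (m : ℤ)) ∩
          (Finset.Icc 1 N).image (fun m : ℕ => -(m : ℤ)), (1 : ℝ) / |(m : ℝ)| :=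
          Finset.sum_nonneg (fun i _ => by positivity)
        linarith
    _ = ∑ m ∈ Finset.Icc 1 N, (1 : ℝ) / (m : ℝ) + ∑ m ∈ Finset.Icc 1 N, (1 : ℝ) / (m : ℝ) := by
        rw [Finset.sum_image, Finset.sum_image]
        · congr 1
          · apply Finset.sum_congr rfl
            intro i _
            simp
          · apply Finset.sum_congr rfl
            intro i _
            simp
        · intro i _ j _ h
          simpa using h
        · intro i _ j _ h
          simpa using h
    _ ≤ 2 * (1 + Real.log N) := by linarith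

/-- the weight of a leading coefficient -/
noncomputable def wt (d N : ℕ) (m : ℤ) : ℝ :=
  if m = 0 then 2 * N + 1 else d * (2 * ((d * N + 2) / |(m : ℝ)| + 1) + 1)

theorem wt_nonneg (d N : ℕ) (m : ℤ) : 0 ≤ wt d N m := by
  unfold wt
  split_ifs <;> positivity

theorem wt_sum (d N : ℕ) (hd : 2 ≤ d) (hN : 1 ≤ N) :
    ∑ m ∈ Finset.Icc (-(N : ℤ)) N, wt d N m ≤ (2 * d ^ 2 + 7 * d + 1) * (1 + Real.log N) * (2 * N + 1) := by
  have hlog : 0 ≤ Real.log N := Real.log_nonneg (by exact_mod_cast hN)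
  have hdR : (2 : ℝ) ≤ d := by exact_mod_cast hd
  have hNR : (1 : ℝ) ≤ N := by exact_mod_cast hN
  rw [← Finset.sum_filter_add_sum_filter_not (Finset.Icc (-(N : ℤ)) N) (fun m => m = 0)]
  have h1 : ∑ m ∈ (Finset.Icc (-(N : ℤ)) N).filter (fun m => m = 0), wt d N m = 2 * N + 1 := by
    have : (Finset.Icc (-(N : ℤ)) N).filter (fun m => m = 0) = {0} := by
      ext m
      rw [Finset.mem_filter, Finset.mem_Icc, Finset.mem_singleton]
      constructor
      · exact fun h => h.2
      · intro h; omega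
    rw [this, Finset.sum_singleton]
    unfold wt
    rw [if_pos rfl]
  have h2 : ∑ m ∈ (Finset.Icc (-(N : ℤ)) N).filter (fun m => ¬ m = 0), wt d N m
      = 2 * d * (d * N + 2) * ∑ m ∈ (Finset.Icc (-(N : ℤ)) N).filter (fun m => m ≠ 0),
        (1 : ℝ) / |(m : ℝ)| + 3 * d * (2 * N) := by
    have hc : (((Finset.Icc (-(N : ℤ)) N).filter (fun m => m ≠ 0)).card : ℝ) = 2 * N := by
      have h3 : (Finset.Icc (-(N : ℤ)) N).filter (fun m => m ≠ 0) = (Finset.Icc (-(N : ℤ)) N).erase 0 := by
        ext m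
        rw [Finset.mem_filter, Finset.mem_erase]
        tauto
      rw [h3, Finset.card_erase_of_mem (by rw [Finset.mem_Icc]; omega), card_Icc_N]
      simp
    have hc2 : 3 * (d : ℝ) * (2 * N) =
        ∑ m ∈ (Finset.Icc (-(N : ℤ)) N).filter (fun m => m ≠ 0), 3 * (d : ℝ) := by
      rw [Finset.sum_const, nsmul_eq_mul, hc]; ring
    rw [hc2, Finset.mul_sum, ← Finset.sum_add_distrib]
    apply Finset.sum_congr rfl
    intro m hm
    rw [Finset.mem_filter] at hm
    unfold wt
    rw [if_neg hm.2]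
    ring
  rw [h1, h2]
  have h3 := harm_bound N
  have h4 : 2 * d * (d * N + 2) * ∑ m ∈ (Finset.Icc (-(N : ℤ)) N).filter (fun m => m ≠ 0),
        (1 : ℝ) / |(m : ℝ)| ≤ 2 * d * (d * N + 2) * (2 * (1 + Real.log N)) := by
    gcongr
  have h5 : 2 * (d : ℝ) * (d * N + 2) * (2 * (1 + Real.log N)) ≤
      (2 * d ^ 2 + 4 * d) * (1 + Real.log N) * (2 * N + 1) := by
    have h6 : 2 * (d : ℝ) * (d * N + 2) * 2 ≤ (2 * d ^ 2 + 4 * d) * (2 * N + 1) := by nlinarith
    nlinarith
  have h7 : 3 * (d : ℝ) * (2 * N) ≤ 3 * d * (1 + Real.log N) * (2 * N + 1) := by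
    have h8 : 3 * (d : ℝ) * (2 * N) ≤ 3 * d * (2 * N + 1) := by nlinarith
    have h9 : 3 * (d : ℝ) * (2 * N + 1) * 1 ≤ 3 * d * (2 * N + 1) * (1 + Real.log N) := by
      gcongr; linarith
    nlinarith
  have h10 : (2 * N + 1 : ℝ) ≤ 1 * (1 + Real.log N) * (2 * N + 1) := by nlinarith
  nlinarith

theorem bad_count (e N : ℕ) (he : 1 ≤ e) (hN : 1 ≤ N) :
    ((badF (e + 1) N).card : ℝ) ≤ (2 * ((e + 1 : ℕ) : ℝ) ^ 2 + 7 * ((e + 1 : ℕ) : ℝ) + 1) *
      (1 + Real.log N) * (2 * N + 1) ^ (e + 1) := by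
  classical
  set I := Finset.Icc (-(N : ℤ)) N with hI
  set T := Fintype.piFinset (fun _ : Fin (e + 1) => I) with hT
  have hmemI : ∀ x : ℤ, x ∈ I ↔ |x| ≤ N := by
    intro x
    rw [hI, Finset.mem_Icc, abs_le]
  -- fibre over the tail
  have hmaps : ((badF (e + 1) N : Finset (Fin (e + 1 + 1) → ℤ)) : Set (Fin (e + 1 + 1) → ℤ)).MapsTo
      (fun a => Fin.tail a) T := by
    intro a ha
    have ha' : a ∈ badF (e + 1) N := ha
    unfold badF at ha'
    rw [Finset.mem_filter, Fintype.mem_piFinset] at ha'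
    show Fin.tail a ∈ (T : Set (Fin (e + 1) → ℤ))
    rw [Finset.mem_coe, hT, Fintype.mem_piFinset]
    intro i
    exact ha'.1 i.succ
  rw [Finset.card_eq_sum_card_fiberwise hmaps]
  have hfib : ∀ t ∈ T, (((badF (e + 1) N).filter (fun a => Fin.tail a = t)).card : ℝ) ≤
      wt (e + 1) N (t (Fin.last e)) := by
    intro t ht
    have ht' : ∀ i, |t i| ≤ N := by
      intro i
      rw [← hmemI]
      exact Fintype.mem_piFinset.1 ht i
    -- the set of constant terms
    set s := ((badF (e + 1) N).filter (fun a => Fin.tail a = t)).image (fun a => a 0) with hs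
    have hcard : ((badF (e + 1) N).filter (fun a => Fin.tail a = t)).card = s.card := by
      rw [hs, Finset.card_image_of_injOn]
      intro a ha b hb hab
      have ha' := (Finset.mem_filter.1 (Finset.mem_coe.1 ha)).2
      have hb' := (Finset.mem_filter.1 (Finset.mem_coe.1 hb)).2
      have hab' : a 0 = b 0 := hab
      rw [← Fin.cons_self_tail a, ← Fin.cons_self_tail b, ha', hb', hab']
    have hsI : s ⊆ I := by
      intro x hx
      rw [hs, Finset.mem_image] at hx
      obtain ⟨a, ha, rfl⟩ := hx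
      have ha' := (Finset.mem_filter.1 ha).1
      unfold badF at ha'
      rw [Finset.mem_filter, Fintype.mem_piFinset] at ha'
      exact ha'.1 0
    rw [hcard]
    unfold wt
    split_ifs with h0
    · have := Finset.card_le_card hsI
      rw [hI, card_Icc_N] at this
      exact_mod_cast this
    · apply fibre_count (d := e + 1) (N := N) (by omega) t ht' e rfl h0 s
      intro x hx
      refine ⟨(hmemI x).1 (hsI hx), ?_⟩
      rw [hs, Finset.mem_image] at hx
      obtain ⟨a, ha, rfl⟩ := hx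
      obtain ⟨ha1, ha2⟩ := Finset.mem_filter.1 ha
      unfold badF at ha1
      rw [Finset.mem_filter] at ha1
      rw [← ha2, Fin.cons_self_tail]
      intro hh
      apply ha1.2
      refine ⟨?_, hh⟩
      have : a (Fin.last (e + 1)) = t (Fin.last e) := by
        rw [← ha2]; rfl
      rw [this]
      exact h0
  push_cast
  have hsum1 : ∑ t ∈ T, (((badF (e + 1) N).filter (fun a => Fin.tail a = t)).card : ℝ) ≤
      ∑ t ∈ T, wt (e + 1) N (t (Fin.last e)) := Finset.sum_le_sum hfib
  refine hsum1.trans ?_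
  -- sum over the leading coefficient
  have hmaps2 : ∀ t ∈ T, t (Fin.last e) ∈ I := fun t ht => Fintype.mem_piFinset.1 ht _
  rw [← Finset.sum_fiberwise_of_maps_to hmaps2]
  have hfib2 : ∀ m ∈ I, ∑ t ∈ T.filter (fun t => t (Fin.last e) = m), wt (e + 1) N (t (Fin.last e))
      ≤ (2 * N + 1) ^ e * wt (e + 1) N m := by
    intro m _
    have h1 : ∑ t ∈ T.filter (fun t => t (Fin.last e) = m), wt (e + 1) N (t (Fin.last e))
        = ∑ t ∈ T.filter (fun t => t (Fin.last e) = m), wt (e + 1) N m := by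
      apply Finset.sum_congr rfl
      intro t ht
      rw [(Finset.mem_filter.1 ht).2]
    rw [h1, Finset.sum_const, nsmul_eq_mul]
    have h2 : (T.filter (fun t => t (Fin.last e) = m)).card ≤ (2 * N + 1) ^ e := by
      have h3 : (T.filter (fun t => t (Fin.last e) = m)).card ≤
          (Fintype.piFinset (fun _ : Fin e => I)).card := by
        apply Finset.card_le_card_of_injOn (fun t => Fin.init t)
        · intro t ht
          have ht' := (Finset.mem_filter.1 (Finset.mem_coe.1 ht)).1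
          show Fin.init t ∈ ((Fintype.piFinset (fun _ : Fin e => I) : Finset (Fin e → ℤ)) : Set (Fin e → ℤ))
          rw [Finset.mem_coe, Fintype.mem_piFinset]
          intro i
          exact Fintype.mem_piFinset.1 ht' i.castSucc
        · intro t ht t' ht' htt
          have h4 := (Finset.mem_filter.1 (Finset.mem_coe.1 ht)).2
          have h5 := (Finset.mem_filter.1 (Finset.mem_coe.1 ht')).2
          have h6 : Fin.init t = Fin.init t' := htt
          rw [← Fin.snoc_init_self t, ← Fin.snoc_init_self t', h6, h4, h5]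
      rw [Fintype.card_piFinset] at h3
      have h8 : I.card = 2 * N + 1 := by rw [hI, card_Icc_N]
      simp only [h8, Finset.prod_const, Finset.card_univ, Fintype.card_fin] at h3
      exact h3
    have h3 : ((T.filter (fun t => t (Fin.last e) = m)).card : ℝ) ≤ (2 * N + 1) ^ e := by
      exact_mod_cast h2
    exact mul_le_mul_of_nonneg_right h3 (wt_nonneg _ _ _)
  refine (Finset.sum_le_sum hfib2).trans ?_
  rw [← Finset.mul_sum]
  have h4 := wt_sum (e + 1) N (by omega) hN
  calc _ ≤ (2 * (N : ℝ) + 1) ^ e * ((2 * ((e + 1 : ℕ) : ℝ) ^ 2 + 7 * ((e + 1 : ℕ) : ℝ) + 1) *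
        (1 + Real.log N) * (2 * N + 1)) := by
        apply mul_le_mul_of_nonneg_left h4
        positivity
    _ = _ := by push_cast; ring

end Pool.Agent.H44.Fatou
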